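import Mathlib

/-!
# A second moment inequality
-/

set_option autoImplicit false

namespace Pool.Agent.T2H95.Sqf

open Finset

section

variable {X Y : Type} [Fintype X] [Fintype Y] [DecidableEq Y] (π : X → Y) (K : ℕ) (a : X → ℝ)
  (b : Y → ℝ)

theorem sum_fib (hb : ∀ y, b y = ∑ x ∈ univ.filter (fun x => π x = y), a x)
    (hK : ∀ y, (univ.filter (fun x => π x = y)).card = K) (hK0 : 0 < K) (c : Y → ℝ) :
    ∑ x, c (π x) * (a x - b (π x) / K) = 0 := by
  have hKr : (K : ℝ) ≠ 0 := by exact_mod_cast hK0.ne'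
  rw [← Finset.sum_fiberwise univ π]
  apply Finset.sum_eq_zero
  intro y _
  have h1 : ∀ x ∈ univ.filter (fun x => π x = y), c (π x) * (a x - b (π x) / K) =
      c y * a x - c y * (b y / K) := by
    intro x hx
    rw [(mem_filter.1 hx).2]
    ring
  rw [Finset.sum_congr rfl h1, Finset.sum_sub_distrib, ← Finset.mul_sum, ← hb, Finset.sum_const,
    hK, nsmul_eq_mul]
  field_simp
  ring

theorem sum_sq_split (hb : ∀ y, b y = ∑ x ∈ univ.filter (fun x => π x = y), a x)
    (hK : ∀ y, (univ.filter (fun x => π x = y)).card = K) (hK0 : 0 < K) :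
    ∑ x, a x ^ 2 = (∑ y, b y ^ 2) / K + ∑ x, (a x - b (π x) / K) ^ 2 := by
  have hKr : (K : ℝ) ≠ 0 := by exact_mod_cast hK0.ne'
  have h1 := sum_fib π K a b hb hK hK0 b
  have h2 : ∑ x, (b (π x)) ^ 2 = K * ∑ y, b y ^ 2 := by
    rw [← Finset.sum_fiberwise univ π, Finset.mul_sum]
    refine Finset.sum_congr rfl fun y _ => ?_
    have h3 : ∀ x ∈ univ.filter (fun x => π x = y), (b (π x)) ^ 2 = b y ^ 2 := by
      intro x hx
      rw [(mem_filter.1 hx).2]
    rw [Finset.sum_congr rfl h3, Finset.sum_const, hK, nsmul_eq_mul]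
  have h4 : ∑ x, (a x - b (π x) / K) ^ 2 = ∑ x, a x ^ 2 - 2 / K * ∑ x, b (π x) *
      (a x - b (π x) / K) - (1 / K ^ 2) * ∑ x, (b (π x)) ^ 2 := by
    rw [Finset.mul_sum, Finset.mul_sum, ← Finset.sum_sub_distrib, ← Finset.sum_sub_distrib]
    refine Finset.sum_congr rfl fun x _ => ?_
    field_simp
    ring
  rw [h4, h1, h2]
  field_simp
  ring

theorem sum_shift_ge (hb : ∀ y, b y = ∑ x ∈ univ.filter (fun x => π x = y), a x)
    (hK : ∀ y, (univ.filter (fun x => π x = y)).card = K) (hK0 : 0 < K) (τ : X ≃ X)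
    (hτ : ∀ x, π (τ x) = π x) :
    2 * ((∑ y, b y ^ 2) / K) - ∑ x, a x ^ 2 ≤ ∑ x, a x * a (τ x) := by
  have hKr : (K : ℝ) ≠ 0 := by exact_mod_cast hK0.ne'
  set β : X → ℝ := fun x => a x - b (π x) / K with hβ
  have h1 := sum_fib π K a b hb hK hK0 b
  have h1' : ∑ x, b (π x) * β (τ x) = 0 := by
    rw [← h1, ← Equiv.sum_comp τ (fun x => b (π x) * (a x - b (π x) / K))]
    refine Finset.sum_congr rfl fun x _ => ?_
    rw [hτ]
    simp only [hβ, hτ]
  have h2 : ∑ x, (b (π x)) ^ 2 = K * ∑ y, b y ^ 2 := by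
    rw [← Finset.sum_fiberwise univ π, Finset.mul_sum]
    refine Finset.sum_congr rfl fun y _ => ?_
    have h3 : ∀ x ∈ univ.filter (fun x => π x = y), (b (π x)) ^ 2 = b y ^ 2 := by
      intro x hx
      rw [(mem_filter.1 hx).2]
    rw [Finset.sum_congr rfl h3, Finset.sum_const, hK, nsmul_eq_mul]
  have h3 : ∑ x, a x * a (τ x) = (1 / K ^ 2) * ∑ x, (b (π x)) ^ 2 +
      (1 / K) * ∑ x, b (π x) * β x + (1 / K) * ∑ x, b (π x) * β (τ x) +
      ∑ x, β x * β (τ x) := by
    rw [Finset.mul_sum, Finset.mul_sum, Finset.mul_sum, ← Finset.sum_add_distrib,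
      ← Finset.sum_add_distrib, ← Finset.sum_add_distrib]
    refine Finset.sum_congr rfl fun x _ => ?_
    simp only [hβ, hτ]
    field_simp
    ring
  have h4 : -∑ x, β x ^ 2 ≤ ∑ x, β x * β (τ x) := by
    have h5 : ∑ x, β (τ x) ^ 2 = ∑ x, β x ^ 2 := Equiv.sum_comp τ (fun x => β x ^ 2)
    have h6 : 0 ≤ ∑ x, (β x + β (τ x)) ^ 2 := Finset.sum_nonneg fun x _ => sq_nonneg _
    have h7 : ∑ x, (β x + β (τ x)) ^ 2 = ∑ x, β x ^ 2 + 2 * ∑ x, β x * β (τ x) +
        ∑ x, β (τ x) ^ 2 := by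
      rw [Finset.mul_sum, ← Finset.sum_add_distrib, ← Finset.sum_add_distrib]
      refine Finset.sum_congr rfl fun x _ => ?_
      ring
    linarith
  have h5 := sum_sq_split π K a b hb hK hK0
  rw [h3, h1, h1', h2]
  have h6 : (1 : ℝ) / K ^ 2 * (K * ∑ y, b y ^ 2) = (∑ y, b y ^ 2) / K := by
    field_simp
  rw [h6]
  simp only [hβ] at h4
  simp only [hβ]
  linarith

theorem sum_shift_le (τ : X ≃ X) : ∑ x, a x * a (τ x) ≤ ∑ x, a x ^ 2 := by
  have h5 : ∑ x, a (τ x) ^ 2 = ∑ x, a x ^ 2 := Equiv.sum_comp τ (fun x => a x ^ 2)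
  have h6 : 0 ≤ ∑ x, (a x - a (τ x)) ^ 2 := Finset.sum_nonneg fun x _ => sq_nonneg _
  have h7 : ∑ x, (a x - a (τ x)) ^ 2 = ∑ x, a x ^ 2 - 2 * ∑ x, a x * a (τ x) +
      ∑ x, a (τ x) ^ 2 := by
    rw [Finset.mul_sum, ← Finset.sum_sub_distrib, ← Finset.sum_add_distrib]
    refine Finset.sum_congr rfl fun x _ => ?_
    ring
  linarith

end

/-- the fibres of the reduction `ZMod N' → ZMod N` -/
theorem card_fib (N N' : ℕ) (hN : 0 < N) (hN' : 0 < N') (hd : N ∣ N') [NeZero N'] [NeZero N]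
    (y : ZMod N) :
    (univ.filter (fun x : ZMod N' => (ZMod.castHom hd (ZMod N)) x = y)).card = N' / N := by
  classical
  set π := ZMod.castHom hd (ZMod N) with hπ
  have hsurj : Function.Surjective π := ZMod.castHom_surjective hd
  have hconst : ∀ y, (univ.filter (fun x : ZMod N' => π x = y)).card =
      (univ.filter (fun x : ZMod N' => π x = 0)).card := by
    intro y
    obtain ⟨x₀, rfl⟩ := hsurj y
    refine Finset.card_bij (fun x _ => x - x₀) ?_ ?_ ?_
    · intro x hx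
      simp only [mem_filter, mem_univ, true_and] at hx ⊢
      rw [map_sub, hx, sub_self]
    · intro x _ x' _ h
      exact sub_left_injective h
    · intro x hx
      simp only [mem_filter, mem_univ, true_and] at hx
      exact ⟨x + x₀, by simp [hx], by simp⟩
  have hsum : ∑ y : ZMod N, (univ.filter (fun x : ZMod N' => π x = y)).card = N' := by
    have := Finset.card_eq_sum_card_fiberwise (f := π) (s := (univ : Finset (ZMod N')))
      (t := (univ : Finset (ZMod N))) (fun x _ => Finset.mem_coe.2 (mem_univ _))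
    rw [← this, Finset.card_univ, ZMod.card]
  rw [Finset.sum_congr rfl (fun y _ => hconst y), Finset.sum_const, Finset.card_univ, ZMod.card,
    smul_eq_mul] at hsum
  rw [hconst y]
  exact Nat.eq_div_of_mul_eq_right hN.ne' hsum

end Pool.Agent.T2H95.Sqf
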