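import Mathlib

/-!
# The additive group of integers with a predicate for the square-free integers: definitions

The language, the structure on `ℤ`, the theory `T_Sqf`, and MS-measurability.
-/

set_option autoImplicit false

open FirstOrder

namespace Pool.Agent.T2H95.Sqf

/-- The function symbols `+` (binary), `-` (unary) and `1` (constant). -/
inductive Fn : ℕ → Type
  | add : Fn 2
  | neg : Fn 1
  | one : Fn 0

/-- The relation symbols: unary predicates `P_m` for `m ≥ 1` and `U_{p,l}` for primes `p` and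
integers `l`. -/
inductive Rl : ℕ → Type
  | P (m : ℕ) (hm : 1 ≤ m) : Rl 1
  | U (p : ℕ) (hp : p.Prime) (l : ℤ) : Rl 1

/-- The language `{+, -, 1, (P_m)_{m ≥ 1}, (U_{p,l})_{p prime, l ∈ ℤ}}`. -/
def Lsqf : FirstOrder.Language.{0, 0} := ⟨Fn, Rl⟩

/-- The `p`-adic valuation of an integer, with value `∞` at `0`. -/
noncomputable def vp (p : ℕ) (a : ℤ) : ℕ∞ := emultiplicity (p : ℤ) a

/-- `P_m = {a ∈ ℤ : v_p(a) < 2 + v_p(m) for all primes p}`. -/
def PSet (m : ℕ) : Set ℤ := {a | ∀ p : ℕ, p.Prime → vp p a < 2 + vp p (m : ℤ)}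

/-- `U_{p,l} = {a ∈ ℤ : v_p(a) ≥ l}`; since `v_p(a) ≥ 0` always, `l` may be replaced by
`max l 0`. -/
def USet (p : ℕ) (l : ℤ) : Set ℤ := {a | ((l.toNat : ℕ) : ℕ∞) ≤ vp p a}

/-- `ℤ` as a structure in the language `Lsqf`, with the symbols interpreted as above. -/
instance : Lsqf.Structure ℤ where
  funMap := fun f x => match f, x with
    | Fn.add, x => x 0 + x 1
    | Fn.neg, x => - x 0
    | Fn.one, _ => 1
  RelMap := fun R x => match R, x with
    | Rl.P m _, x => x 0 ∈ PSet m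
    | Rl.U p _ l, x => x 0 ∈ USet p l

/-- The complete theory of `ℤ` in the language `Lsqf`. -/
def TSqf : Lsqf.Theory := Lsqf.completeTheory ℤ

universe u v w

/-- `X` is a definable set, parameters allowed. -/
def Dfn (L : FirstOrder.Language.{u, v}) (M : Type w) [L.Structure M] {n : ℕ}
    (X : Set (Fin n → M)) : Prop :=
  (Set.univ : Set M).Definable L X

/-- `h` witnesses that `M` is MS-measurable (Macpherson-Steinhorn): `h` assigns to every definable
set `X ⊆ M ^ n`, `n ≥ 1`, a value in `(ℕ × ℝ_{>0}) ∪ {(0, 0)}` such that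
(1) for every formula `φ(x, y)` the function `b ↦ h(φ(M, b))` takes finitely many values and for
each value the set of all `b` where it is taken is definable without parameters;
(2) `h(X) = (0, |X|)` for finite `X`;
(3) if `f : X → Y` is a definable surjection of definable sets (and `X` is not empty) then `Y` has
a finite partition into (nonempty) definable sets `Y_i` such that `h(f⁻¹(y)) = (d_i, μ_i)` for all
`y ∈ Y_i`, and if `h(Y_i) = (e_i, ν_i)` and `c` is the maximum of the numbers `d_i + e_i`, then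
`h(X) = (c, ∑ μ_i ν_i)`, where the sum is over all `i` with `d_i + e_i = c`. -/
structure IsMSMeasure (L : FirstOrder.Language.{u, v}) (M : Type w) [L.Structure M]
    (h : ∀ n : ℕ, Set (Fin n → M) → ℕ × ℝ) : Prop where
  values : ∀ n : ℕ, 1 ≤ n → ∀ X : Set (Fin n → M), Dfn L M X → 0 < (h n X).2 ∨ h n X = (0, 0)
  finite_values : ∀ n k : ℕ, 1 ≤ n → ∀ φ : L.Formula (Fin n ⊕ Fin k),
    {a : ℕ × ℝ | ∃ b : Fin k → M, h n {x | φ.Realize (Sum.elim x b)} = a}.Finite ∧
    ∀ a : ℕ × ℝ, (∅ : Set M).Definable L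
      {b : Fin k → M | h n {x | φ.Realize (Sum.elim x b)} = a}
  finite_sets : ∀ n : ℕ, 1 ≤ n → ∀ X : Set (Fin n → M), X.Finite → h n X = (0, (X.ncard : ℝ))
  fubini : ∀ n k : ℕ, 1 ≤ n → 1 ≤ k → ∀ (X : Set (Fin n → M)) (Y : Set (Fin k → M))
    (f : (Fin n → M) → (Fin k → M)), X.Nonempty → Dfn L M X → Dfn L M Y → f '' X = Y →
    (Set.univ : Set M).Definable L
      {z : Fin n ⊕ Fin k → M | z ∘ Sum.inl ∈ X ∧ z ∘ Sum.inr = f (z ∘ Sum.inl)} →
    ∃ (r : ℕ) (Z : Fin r → Set (Fin k → M)) (d : Fin r → ℕ) (μ : Fin r → ℝ) (c : ℕ),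
      (∀ i, (Z i).Nonempty ∧ Dfn L M (Z i)) ∧ Pairwise (Function.onFun Disjoint Z) ∧
      (⋃ i, Z i) = Y ∧ (∀ i, ∀ y ∈ Z i, h n {x | x ∈ X ∧ f x = y} = (d i, μ i)) ∧
      (∀ i, d i + (h k (Z i)).1 ≤ c) ∧ (∃ i, d i + (h k (Z i)).1 = c) ∧
      h n X = (c, ∑ i : Fin r, if d i + (h k (Z i)).1 = c then μ i * (h k (Z i)).2 else 0)

/-- `M` is MS-measurable. -/
def MSMeasurable (L : FirstOrder.Language.{u, v}) (M : Type w) [L.Structure M] : Prop :=
  ∃ h : ∀ n : ℕ, Set (Fin n → M) → ℕ × ℝ, IsMSMeasure L M h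

/-- A theory is MS-measurable if it has an MS-measurable model (in the universe `w`). -/
def TheoryMSMeasurable (L : FirstOrder.Language.{u, v}) (T : L.Theory) : Prop :=
  ∃ (M : Type w) (_ : L.Structure M), M ⊨ T ∧ MSMeasurable L M

end Pool.Agent.T2H95.Sqf
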