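import Pool.Agent.T2H95.Sqf.QE

/-!
# Transfer between `ℤ` and the models of its theory
-/

set_option autoImplicit false

open FirstOrder

namespace Pool.Agent.T2H95.Sqf

universe u v w₁ w₂ w

section

variable (L : FirstOrder.Language.{u, v}) {M₁ : Type w₁} {M₂ : Type w₂} [L.Structure M₁]
  [L.Structure M₂]

/-- functions given by the same term in two structures -/
def UT {α : Type} (g₁ : (α → M₁) → M₁) (g₂ : (α → M₂) → M₂) : Prop :=
  ∃ t : L.Term α, (∀ v, t.realize v = g₁ v) ∧ ∀ v, t.realize v = g₂ v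

/-- predicates given by the same formula in two structures -/
def UP {α : Type} (P₁ : (α → M₁) → Prop) (P₂ : (α → M₂) → Prop) : Prop :=
  ∃ φ : L.Formula α, (∀ v, φ.Realize v ↔ P₁ v) ∧ ∀ v, φ.Realize v ↔ P₂ v

variable {L} {α : Type}

theorem UT.var (i : α) : UT L (fun v : α → M₁ => v i) (fun v : α → M₂ => v i) :=
  ⟨Language.Term.var i, fun _ => rfl, fun _ => rfl⟩

theorem UP.congr {P₁ Q₁ : (α → M₁) → Prop} {P₂ Q₂ : (α → M₂) → Prop} (h : UP L P₁ P₂)
    (h1 : ∀ v, P₁ v ↔ Q₁ v) (h2 : ∀ v, P₂ v ↔ Q₂ v) : UP L Q₁ Q₂ := by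
  obtain ⟨φ, h3, h4⟩ := h
  exact ⟨φ, fun v => (h3 v).trans (h1 v), fun v => (h4 v).trans (h2 v)⟩

theorem UP.self (φ : L.Formula α) :
    UP L (fun v : α → M₁ => φ.Realize v) (fun v : α → M₂ => φ.Realize v) :=
  ⟨φ, fun _ => Iff.rfl, fun _ => Iff.rfl⟩

theorem UP.not {P₁ : (α → M₁) → Prop} {P₂ : (α → M₂) → Prop} (h : UP L P₁ P₂) :
    UP L (fun v => ¬ P₁ v) (fun v => ¬ P₂ v) := by
  obtain ⟨φ, h1, h2⟩ := h
  exact ⟨φ.not, fun v => by rw [Language.Formula.realize_not, h1],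
    fun v => by rw [Language.Formula.realize_not, h2]⟩

theorem UP.imp {P₁ Q₁ : (α → M₁) → Prop} {P₂ Q₂ : (α → M₂) → Prop} (h : UP L P₁ P₂)
    (h' : UP L Q₁ Q₂) : UP L (fun v => P₁ v → Q₁ v) (fun v => P₂ v → Q₂ v) := by
  obtain ⟨φ, h1, h2⟩ := h
  obtain ⟨ψ, h3, h4⟩ := h'
  exact ⟨φ.imp ψ, fun v => by rw [Language.Formula.realize_imp, h1, h3],
    fun v => by rw [Language.Formula.realize_imp, h2, h4]⟩

theorem UP.and {P₁ Q₁ : (α → M₁) → Prop} {P₂ Q₂ : (α → M₂) → Prop} (h : UP L P₁ P₂)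
    (h' : UP L Q₁ Q₂) : UP L (fun v => P₁ v ∧ Q₁ v) (fun v => P₂ v ∧ Q₂ v) :=
  (h.imp h'.not).not.congr (fun v => by tauto) (fun v => by tauto)

theorem UP.or {P₁ Q₁ : (α → M₁) → Prop} {P₂ Q₂ : (α → M₂) → Prop} (h : UP L P₁ P₂)
    (h' : UP L Q₁ Q₂) : UP L (fun v => P₁ v ∨ Q₁ v) (fun v => P₂ v ∨ Q₂ v) :=
  (h.not.imp h').congr (fun v => by tauto) (fun v => by tauto)

theorem UP.true : UP L (fun _ : α → M₁ => True) (fun _ : α → M₂ => True) :=
  ⟨⊤, fun v => by simp [Language.Formula.Realize], fun v => by simp [Language.Formula.Realize]⟩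

theorem UP.const (p : Prop) : UP L (fun _ : α → M₁ => p) (fun _ : α → M₂ => p) := by
  by_cases hp : p
  · exact UP.true.congr (fun v => by simp [hp]) (fun v => by simp [hp])
  · exact UP.true.not.congr (fun v => by simp [hp]) (fun v => by simp [hp])

theorem UP.iff {P₁ Q₁ : (α → M₁) → Prop} {P₂ Q₂ : (α → M₂) → Prop} (h : UP L P₁ P₂)
    (h' : UP L Q₁ Q₂) : UP L (fun v => P₁ v ↔ Q₁ v) (fun v => P₂ v ↔ Q₂ v) :=
  ((h.imp h').and (h'.imp h)).congr (fun v => (iff_def).symm) (fun v => (iff_def).symm)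

theorem UP.eq {g₁ h₁ : (α → M₁) → M₁} {g₂ h₂ : (α → M₂) → M₂} (hg : UT L g₁ g₂)
    (hh : UT L h₁ h₂) : UP L (fun v => g₁ v = h₁ v) (fun v => g₂ v = h₂ v) := by
  obtain ⟨s, h3, h4⟩ := hg
  obtain ⟨t, h5, h6⟩ := hh
  exact ⟨s.equal t, fun v => by rw [Language.Formula.realize_equal, h3, h5],
    fun v => by rw [Language.Formula.realize_equal, h4, h6]⟩

theorem UP.ball {ι : Type} (s : Finset ι) {P₁ : ι → (α → M₁) → Prop}
    {P₂ : ι → (α → M₂) → Prop} (h : ∀ i, UP L (P₁ i) (P₂ i)) :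
    UP L (fun v => ∀ i ∈ s, P₁ i v) (fun v => ∀ i ∈ s, P₂ i v) := by
  classical
  induction s using Finset.induction_on with
  | empty => exact UP.true.congr (fun v => by simp) (fun v => by simp)
  | insert a s _ ih => exact ((h a).and ih).congr (fun v => by simp) (fun v => by simp)

theorem UP.allTuple {β : Type} [Finite β] {P₁ : (α → M₁) → (β → M₁) → Prop}
    {P₂ : (α → M₂) → (β → M₂) → Prop}
    (h : UP L (fun w : α ⊕ β → M₁ => P₁ (w ∘ Sum.inl) (w ∘ Sum.inr))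
      (fun w : α ⊕ β → M₂ => P₂ (w ∘ Sum.inl) (w ∘ Sum.inr))) :
    UP L (fun v => ∀ y, P₁ v y) (fun v => ∀ y, P₂ v y) := by
  obtain ⟨φ, h1, h2⟩ := h
  refine ⟨Language.Formula.iAlls β φ, fun v => ?_, fun v => ?_⟩
  · rw [Language.Formula.realize_iAlls]
    exact forall_congr' fun y => h1 (Sum.elim v y)
  · rw [Language.Formula.realize_iAlls]
    exact forall_congr' fun y => h2 (Sum.elim v y)

theorem UP.all {P₁ : (α → M₁) → M₁ → Prop} {P₂ : (α → M₂) → M₂ → Prop}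
    (h : UP L (fun w : α ⊕ Unit → M₁ => P₁ (w ∘ Sum.inl) (w (Sum.inr ())))
      (fun w : α ⊕ Unit → M₂ => P₂ (w ∘ Sum.inl) (w (Sum.inr ())))) :
    UP L (fun v => ∀ y, P₁ v y) (fun v => ∀ y, P₂ v y) :=
  (UP.allTuple (P₁ := fun v y => P₁ v (y ())) (P₂ := fun v y => P₂ v (y ())) h).congr
    (fun v => ⟨fun h y => h (fun _ => y), fun h y => h (y ())⟩)
    (fun v => ⟨fun h y => h (fun _ => y), fun h y => h (y ())⟩)

theorem UP.ex {P₁ : (α → M₁) → M₁ → Prop} {P₂ : (α → M₂) → M₂ → Prop}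
    (h : UP L (fun w : α ⊕ Unit → M₁ => P₁ (w ∘ Sum.inl) (w (Sum.inr ())))
      (fun w : α ⊕ Unit → M₂ => P₂ (w ∘ Sum.inl) (w (Sum.inr ())))) :
    UP L (fun v => ∃ y, P₁ v y) (fun v => ∃ y, P₂ v y) :=
  (UP.all (P₁ := fun v y => ¬ P₁ v y) (P₂ := fun v y => ¬ P₂ v y) h.not).not.congr
    (fun v => by simp) (fun v => by simp)

/-- transfer -/
theorem UP.transfer {P₁ : (Empty → M₁) → Prop} {P₂ : (Empty → M₂) → Prop} (h : UP L P₁ P₂)
    (hM : M₂ ⊨ L.completeTheory M₁) (h1 : P₁ (fun e => e.elim)) : P₂ (fun e => e.elim) := by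
  obtain ⟨φ, h2, h3⟩ := h
  have e1 : (default : Empty → M₁) = (fun e => e.elim) := Subsingleton.elim _ _
  have e2 : (default : Empty → M₂) = (fun e => e.elim) := Subsingleton.elim _ _
  have h4 : M₁ ⊨ (φ : L.Sentence) := by
    have := (h2 _).2 h1
    unfold Language.Sentence.Realize
    rw [e1]
    exact this
  have h5 : (φ : L.Sentence) ∈ L.completeTheory M₁ := (Language.mem_completeTheory).2 h4
  have h6 : M₂ ⊨ (φ : L.Sentence) := hM.realize_of_mem φ h5
  rw [← h3]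
  unfold Language.Sentence.Realize at h6
  rw [e2] at h6
  exact h6

end

/-- an abelian group structure compatible with the structure in the language `Lsqf` -/
structure Compat (M : Type w) [Lsqf.Structure M] [AddCommGroup M] (e : M) : Prop where
  add : ∀ v : Fin 2 → M, Language.Structure.funMap (L := Lsqf) Fn.add v = v 0 + v 1
  neg : ∀ v : Fin 1 → M, Language.Structure.funMap (L := Lsqf) Fn.neg v = - v 0
  one : ∀ v : Fin 0 → M, Language.Structure.funMap (L := Lsqf) Fn.one v = e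

theorem compatInt : Compat ℤ (1 : ℤ) := ⟨fun _ => rfl, fun _ => rfl, fun _ => rfl⟩

/-- the predicate `P_m` -/
def IsP (M : Type w) [Lsqf.Structure M] (m : ℕ) (hm : 1 ≤ m) (x : M) : Prop :=
  Language.Structure.RelMap (L := Lsqf) (Rl.P m hm) ![x]

theorem isP_int (m : ℕ) (hm : 1 ≤ m) (x : ℤ) : IsP ℤ m hm x ↔ x ∈ PSet m := Iff.rfl

section

variable {M₁ : Type w₁} {M₂ : Type w₂} [Lsqf.Structure M₁] [Lsqf.Structure M₂] {α : Type}

theorem UP.isP {g₁ : (α → M₁) → M₁} {g₂ : (α → M₂) → M₂} (hg : UT Lsqf g₁ g₂) (m : ℕ)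
    (hm : 1 ≤ m) : UP Lsqf (fun v => IsP M₁ m hm (g₁ v)) (fun v => IsP M₂ m hm (g₂ v)) := by
  obtain ⟨s, h3, h4⟩ := hg
  refine ⟨Language.Relations.formula₁ (L := Lsqf) (Rl.P m hm) s, fun v => ?_, fun v => ?_⟩
  · rw [Language.Formula.realize_rel₁, h3]
    exact Iff.rfl
  · rw [Language.Formula.realize_rel₁, h4]
    exact Iff.rfl

variable [AddCommGroup M₁] [AddCommGroup M₂] {e₁ : M₁} {e₂ : M₂}

theorem UT.add (c₁ : Compat M₁ e₁) (c₂ : Compat M₂ e₂) {g₁ h₁ : (α → M₁) → M₁}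
    {g₂ h₂ : (α → M₂) → M₂} (hg : UT Lsqf g₁ g₂) (hh : UT Lsqf h₁ h₂) :
    UT Lsqf (fun v => g₁ v + h₁ v) (fun v => g₂ v + h₂ v) := by
  obtain ⟨s, h3, h4⟩ := hg
  obtain ⟨t, h5, h6⟩ := hh
  refine ⟨Language.Functions.apply₂ (L := Lsqf) Fn.add s t, fun v => ?_, fun v => ?_⟩
  · rw [Language.Term.realize_functions_apply₂, c₁.add, h3, h5]; rfl
  · rw [Language.Term.realize_functions_apply₂, c₂.add, h4, h6]; rfl

theorem UT.neg (c₁ : Compat M₁ e₁) (c₂ : Compat M₂ e₂) {g₁ : (α → M₁) → M₁}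
    {g₂ : (α → M₂) → M₂} (hg : UT Lsqf g₁ g₂) :
    UT Lsqf (fun v => - g₁ v) (fun v => - g₂ v) := by
  obtain ⟨s, h3, h4⟩ := hg
  refine ⟨Language.Functions.apply₁ (L := Lsqf) Fn.neg s, fun v => ?_, fun v => ?_⟩
  · rw [Language.Term.realize_functions_apply₁, c₁.neg, h3]; rfl
  · rw [Language.Term.realize_functions_apply₁, c₂.neg, h4]; rfl

theorem UT.one (c₁ : Compat M₁ e₁) (c₂ : Compat M₂ e₂) :
    UT Lsqf (fun _ : α → M₁ => e₁) (fun _ : α → M₂ => e₂) := by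
  refine ⟨Language.Constants.term (L := Lsqf) Fn.one, fun v => ?_, fun v => ?_⟩
  · rw [Language.Term.realize_constants]; exact c₁.one _
  · rw [Language.Term.realize_constants]; exact c₂.one _

theorem UT.zero (c₁ : Compat M₁ e₁) (c₂ : Compat M₂ e₂) :
    UT Lsqf (fun _ : α → M₁ => 0) (fun _ : α → M₂ => 0) := by
  have h := UT.add c₁ c₂ (UT.one (α := α) c₁ c₂) (UT.neg c₁ c₂ (UT.one c₁ c₂))
  simpa only [add_neg_cancel] using h

theorem UT.nsmul (c₁ : Compat M₁ e₁) (c₂ : Compat M₂ e₂) {g₁ : (α → M₁) → M₁}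
    {g₂ : (α → M₂) → M₂} (hg : UT Lsqf g₁ g₂) (n : ℕ) :
    UT Lsqf (fun v => n • g₁ v) (fun v => n • g₂ v) := by
  induction n with
  | zero => simpa only [zero_smul] using UT.zero c₁ c₂
  | succ n ih => simpa only [succ_nsmul] using UT.add c₁ c₂ ih hg

theorem UT.zsmul (c₁ : Compat M₁ e₁) (c₂ : Compat M₂ e₂) {g₁ : (α → M₁) → M₁}
    {g₂ : (α → M₂) → M₂} (hg : UT Lsqf g₁ g₂) (n : ℤ) :
    UT Lsqf (fun v => n • g₁ v) (fun v => n • g₂ v) := by
  cases n with
  | ofNat n => simpa only [Int.ofNat_eq_natCast, natCast_zsmul] using UT.nsmul c₁ c₂ hg n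
  | negSucc n => simpa only [negSucc_zsmul] using UT.neg c₁ c₂ (UT.nsmul c₁ c₂ hg (n + 1))

end

section

variable {M : Type w} [Lsqf.Structure M] [AddCommGroup M] {e : M}

/-- membership in the class of `c` modulo `N` -/
def Cls {M : Type w} [AddCommGroup M] (e : M) (N : ℕ) (c : ℤ) (x : M) : Prop :=
  ∃ z : M, x = N • z + c • e

theorem cls_int (N : ℕ) (c x : ℤ) : Cls (1 : ℤ) N c x ↔ (N : ℤ) ∣ x - c := by
  unfold Cls
  constructor
  · rintro ⟨z, rfl⟩
    exact ⟨z, by simp⟩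
  · rintro ⟨z, hz⟩
    exact ⟨z, by simp only [nsmul_eq_mul, smul_eq_mul, mul_one]; linarith⟩

theorem UP.cls {M₁ : Type w₁} {M₂ : Type w₂} [Lsqf.Structure M₁] [Lsqf.Structure M₂] {α : Type}
    [AddCommGroup M₁] [AddCommGroup M₂] {e₁ : M₁} {e₂ : M₂}
    (c₁ : Compat M₁ e₁) (c₂ : Compat M₂ e₂) {g₁ : (α → M₁) → M₁} {g₂ : (α → M₂) → M₂}
    (hg : UT Lsqf g₁ g₂) (N : ℕ) (c : ℤ) :
    UP Lsqf (fun v => Cls e₁ N c (g₁ v)) (fun v => Cls e₂ N c (g₂ v)) := by
  apply UP.ex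
  obtain ⟨s, h3, h4⟩ := hg
  have hg' : UT Lsqf (fun w : α ⊕ Unit → M₁ => g₁ (w ∘ Sum.inl))
      (fun w : α ⊕ Unit → M₂ => g₂ (w ∘ Sum.inl)) := by
    refine ⟨s.relabel Sum.inl, fun v => ?_, fun v => ?_⟩
    · rw [Language.Term.realize_relabel]; exact h3 _
    · rw [Language.Term.realize_relabel]; exact h4 _
  exact UP.eq hg' (UT.add c₁ c₂ (UT.nsmul c₁ c₂ (UT.var _) N)
    (UT.zsmul c₁ c₂ (UT.one c₁ c₂) c))

variable (hM : M ⊨ Lsqf.completeTheory ℤ) (cM : Compat M e)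
include hM cM

theorem t1 (N : ℕ) (hN : 0 < N) (x : M) : ∃ c ∈ Finset.range N, Cls e N (c : ℤ) x := by
  have h1 : UP Lsqf (fun _ : Empty → ℤ => ∀ x : ℤ, ¬ ∀ c ∈ Finset.range N,
      ¬ Cls (1 : ℤ) N (c : ℤ) x) (fun _ : Empty → M => ∀ x : M, ¬ ∀ c ∈ Finset.range N,
      ¬ Cls e N (c : ℤ) x) :=
    UP.all (UP.not (UP.ball _ fun c => UP.not (UP.cls compatInt cM (UT.var _) N c)))
  have h2 := h1.transfer hM (by
    intro x hx
    have hN' : (0 : ℤ) < N := by exact_mod_cast hN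
    have h3 := Int.emod_nonneg x hN'.ne'
    have h4 := Int.emod_lt_of_pos x hN'
    refine hx (x % N).toNat (Finset.mem_range.2 (by omega)) ?_
    rw [cls_int, Int.toNat_of_nonneg h3]
    exact Int.dvd_self_sub_emod) x
  push Not at h2
  exact h2

theorem t2 (N : ℕ) (c : ℤ) (hc : ¬ (N : ℤ) ∣ c) (z : M) : N • z ≠ c • e := by
  have h1 : UP Lsqf (fun _ : Empty → ℤ => ∀ z : ℤ, ¬ N • z = c • (1 : ℤ))
      (fun _ : Empty → M => ∀ z : M, ¬ N • z = c • e) :=
    UP.all (UP.not (UP.eq (UT.nsmul compatInt cM (UT.var _) N)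
      (UT.zsmul compatInt cM (UT.one compatInt cM) c)))
  exact h1.transfer hM (by
    intro z hz
    apply hc
    simp only [nsmul_eq_mul, smul_eq_mul, mul_one] at hz
    exact ⟨z, hz.symm⟩) z

theorem t3 (q : ℕ) (hq : q.Prime) (z : M) : ¬ IsP M 1 le_rfl ((q ^ 2) • z) := by
  have h1 : UP Lsqf (fun _ : Empty → ℤ => ∀ z : ℤ, ¬ IsP ℤ 1 le_rfl ((q ^ 2) • z))
      (fun _ : Empty → M => ∀ z : M, ¬ IsP M 1 le_rfl ((q ^ 2) • z)) :=
    UP.all (UP.not (UP.isP (UT.nsmul compatInt cM (UT.var _) (q ^ 2)) 1 le_rfl))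
  exact h1.transfer hM (by
    intro z hz
    rw [isP_int, mem_PSet_iff le_rfl] at hz
    apply hz q hq
    rw [padicValNat_one_right, add_zero]
    exact ⟨z, by simp⟩) z

theorem t4 (k : ℕ) (y : Fin k → M) (hy : ∀ i, Cls e k.factorial 0 (y i)) :
    ∃ x : M, ∀ i, IsP M 1 le_rfl (x + y i) := by
  have h1 : UP Lsqf (fun _ : Empty → ℤ => ∀ y : Fin k → ℤ,
        (∀ i ∈ Finset.univ, Cls (1 : ℤ) k.factorial 0 (y i)) →
        ∃ x : ℤ, ∀ i ∈ Finset.univ, IsP ℤ 1 le_rfl (x + y i))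
      (fun _ : Empty → M => ∀ y : Fin k → M,
        (∀ i ∈ Finset.univ, Cls e k.factorial 0 (y i)) →
        ∃ x : M, ∀ i ∈ Finset.univ, IsP M 1 le_rfl (x + y i)) := by
    apply UP.allTuple
    apply UP.imp
    · exact UP.ball _ fun i => UP.cls compatInt cM (UT.var (Sum.inr i)) _ _
    · apply UP.ex
      exact UP.ball _ fun i => UP.isP (UT.add compatInt cM (UT.var (Sum.inr ()))
        (UT.var (Sum.inl (Sum.inr i)))) 1 le_rfl
  obtain ⟨x, hx⟩ := h1.transfer hM (by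
    intro y hy
    obtain ⟨x, hx⟩ := inter_nonempty k y fun i => by
      have := hy i (Finset.mem_univ i)
      rwa [cls_int, sub_zero] at this
    exact ⟨x, fun i _ => hx i⟩) y (fun i _ => hy i)
  exact ⟨x, fun i => hx i (Finset.mem_univ i)⟩

theorem t5 (φ : Lsqf.Formula (Fin 1)) (N : ℕ) (r : ℤ) (hN : 0 < N) :
    ∃ (N' : ℕ) (r' : ℤ) (E : Finset ℤ) (t : Prop), 0 < N' ∧ N ∣ N' ∧ (N : ℤ) ∣ r' - r ∧
      ∀ b : M, Cls e N' r' b → (∀ c ∈ E, b ≠ c • e) → (φ.Realize ![b] ↔ t) := by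
  obtain ⟨N', r', E, t, h1, h2, h3, h4⟩ := star (gd_formula_one φ) N r hN
  refine ⟨N', r', E, t, h1, h2, h3, ?_⟩
  have h5 : UP Lsqf (fun _ : Empty → ℤ => ∀ b : ℤ, Cls (1 : ℤ) N' r' b →
      (∀ c ∈ E, ¬ b = c • (1 : ℤ)) → (φ.Realize ![b] ↔ t))
      (fun _ : Empty → M => ∀ b : M, Cls e N' r' b →
      (∀ c ∈ E, ¬ b = c • e) → (φ.Realize ![b] ↔ t)) := by
    apply UP.all
    refine (UP.cls compatInt cM (UT.var _) _ _).imp ((UP.ball _ fun c => UP.not
      (UP.eq (UT.var _) (UT.zsmul compatInt cM (UT.one compatInt cM) c))).imp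
        (UP.iff ?_ (UP.const t)))
    refine ⟨φ.relabel (fun _ => Sum.inr ()), fun v => ?_, fun v => ?_⟩
    · rw [Language.Formula.realize_relabel]
      refine iff_of_eq (congrArg _ ?_)
      funext i
      rw [Subsingleton.elim i 0]
      rfl
    · rw [Language.Formula.realize_relabel]
      refine iff_of_eq (congrArg _ ?_)
      funext i
      rw [Subsingleton.elim i 0]
      rfl
  exact h5.transfer hM (by
    intro b hb hE
    rw [cls_int] at hb
    refine h4 b hb fun hbE => ?_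
    exact hE b hbE (by simp))

theorem infM : Infinite M := by
  refine Infinite.of_injective (fun n : ℕ => n • e) fun n m hnm => ?_
  by_contra hne
  wlog hlt : n < m generalizing n m
  · exact this m n hnm.symm (Ne.symm hne) (by omega)
  have h1 : (m - n) • e = 0 := by
    have h2 : m • e = (m - n) • e + n • e := by rw [← add_nsmul]; congr 1; omega
    simp only at hnm
    rw [← hnm] at h2
    exact (left_eq_add.1 (by rw [add_comm]; exact h2))
  have h3 := t2 hM cM (m - n + 1) ((m - n : ℕ) : ℤ) (by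
    intro h
    have := Int.le_of_dvd (by omega) h
    push_cast at this
    omega) 0
  apply h3
  rw [nsmul_zero, natCast_zsmul, h1]

end

/-- the addition of a structure -/
def rad {K : Type w} [Lsqf.Structure K] (x y : K) : K :=
  Language.Structure.funMap (L := Lsqf) Fn.add ![x, y]

/-- the negation of a structure -/
def rng {K : Type w} [Lsqf.Structure K] (x : K) : K :=
  Language.Structure.funMap (L := Lsqf) Fn.neg ![x]

/-- the constant of a structure -/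
def rone (K : Type w) [Lsqf.Structure K] : K :=
  Language.Structure.funMap (L := Lsqf) Fn.one ![]

section

variable {M₁ : Type w₁} {M₂ : Type w₂} [Lsqf.Structure M₁] [Lsqf.Structure M₂] {α : Type}

theorem UT.rad {g₁ h₁ : (α → M₁) → M₁}
    {g₂ h₂ : (α → M₂) → M₂} (hg : UT Lsqf g₁ g₂) (hh : UT Lsqf h₁ h₂) :
    UT Lsqf (fun v => Sqf.rad (g₁ v) (h₁ v)) (fun v => Sqf.rad (g₂ v) (h₂ v)) := by
  obtain ⟨s, h3, h4⟩ := hg
  obtain ⟨t, h5, h6⟩ := hh
  refine ⟨Language.Functions.apply₂ (L := Lsqf) Fn.add s t, fun v => ?_, fun v => ?_⟩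
  · rw [Language.Term.realize_functions_apply₂, h3, h5]; rfl
  · rw [Language.Term.realize_functions_apply₂, h4, h6]; rfl

theorem UT.rng {g₁ : (α → M₁) → M₁} {g₂ : (α → M₂) → M₂} (hg : UT Lsqf g₁ g₂) :
    UT Lsqf (fun v => Sqf.rng (g₁ v)) (fun v => Sqf.rng (g₂ v)) := by
  obtain ⟨s, h3, h4⟩ := hg
  refine ⟨Language.Functions.apply₁ (L := Lsqf) Fn.neg s, fun v => ?_, fun v => ?_⟩
  · rw [Language.Term.realize_functions_apply₁, h3]; rfl
  · rw [Language.Term.realize_functions_apply₁, h4]; rfl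

theorem UT.rone : UT Lsqf (fun _ : α → M₁ => Sqf.rone M₁) (fun _ : α → M₂ => Sqf.rone M₂) := by
  refine ⟨Language.Constants.term (L := Lsqf) Fn.one, fun v => ?_, fun v => ?_⟩
  · rw [Language.Term.realize_constants]
    exact congrArg (Language.Structure.funMap (L := Lsqf) Fn.one) (Subsingleton.elim _ _)
  · rw [Language.Term.realize_constants]
    exact congrArg (Language.Structure.funMap (L := Lsqf) Fn.one) (Subsingleton.elim _ _)

end

/-- every model of the theory of `ℤ` has a compatible group structure -/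
theorem exists_compat (M : Type w) [Lsqf.Structure M] (hM : M ⊨ Lsqf.completeTheory ℤ) :
    ∃ (_ : AddCommGroup M) (e : M), Compat M e := by
  have hassoc : ∀ x y z : M, rad (rad x y) z = rad x (rad y z) := by
    have h1 : UP Lsqf
        (fun _ : Empty → ℤ => ∀ x y z : ℤ, rad (rad x y) z = rad x (rad y z))
        (fun _ : Empty → M => ∀ x y z : M, rad (rad x y) z = rad x (rad y z)) := by
      apply UP.all; apply UP.all; apply UP.all
      exact UP.eq (UT.rad (UT.rad (UT.var (Sum.inl (Sum.inl (Sum.inr ())))) (UT.var (Sum.inl (Sum.inr ()))))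
        (UT.var (Sum.inr ()))) (UT.rad (UT.var (Sum.inl (Sum.inl (Sum.inr ()))))
        (UT.rad (UT.var (Sum.inl (Sum.inr ()))) (UT.var (Sum.inr ()))))
    exact h1.transfer hM (fun x y z => add_assoc x y z)
  have hcomm : ∀ x y : M, rad x y = rad y x := by
    have h1 : UP Lsqf
        (fun _ : Empty → ℤ => ∀ x y : ℤ, rad x y = rad y x)
        (fun _ : Empty → M => ∀ x y : M, rad x y = rad y x) := by
      apply UP.all; apply UP.all
      exact UP.eq (UT.rad (UT.var (Sum.inl (Sum.inr ()))) (UT.var (Sum.inr ())))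
        (UT.rad (UT.var (Sum.inr ())) (UT.var (Sum.inl (Sum.inr ()))))
    exact h1.transfer hM (fun x y => add_comm x y)
  have hzero : ∀ x : M, rad (rad (rone M) (rng (rone M))) x = x := by
    have h1 : UP Lsqf
        (fun _ : Empty → ℤ => ∀ x : ℤ, rad (rad (rone ℤ) (rng (rone ℤ))) x = x)
        (fun _ : Empty → M => ∀ x : M, rad (rad (rone M) (rng (rone M))) x = x) := by
      apply UP.all
      exact UP.eq (UT.rad (UT.rad UT.rone (UT.rng UT.rone)) (UT.var (Sum.inr ())))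
        (UT.var (Sum.inr ()))
    exact h1.transfer hM (fun x => by
      show (1 : ℤ) + (-1) + x = x
      ring)
  have hneg : ∀ x : M, rad (rng x) x = rad (rone M) (rng (rone M)) := by
    have h1 : UP Lsqf
        (fun _ : Empty → ℤ => ∀ x : ℤ, rad (rng x) x = rad (rone ℤ) (rng (rone ℤ)))
        (fun _ : Empty → M => ∀ x : M, rad (rng x) x = rad (rone M) (rng (rone M))) := by
      apply UP.all
      exact UP.eq (UT.rad (UT.rng (UT.var (Sum.inr ()))) (UT.var (Sum.inr ())))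
        (UT.rad UT.rone (UT.rng UT.rone))
    exact h1.transfer hM (fun x => by
      show -x + x = (1 : ℤ) + (-1)
      ring)
  letI i1 : Add M := ⟨rad⟩
  letI i2 : Zero M := ⟨rad (rone M) (rng (rone M))⟩
  letI i3 : Neg M := ⟨rng⟩
  letI G : AddGroup M := AddGroup.ofLeftAxioms hassoc hzero hneg
  letI G' : AddCommGroup M := { G with add_comm := hcomm }
  refine ⟨G', rone M, ?_, ?_, ?_⟩
  · intro v
    show _ = rad (v 0) (v 1)
    unfold rad
    congr 1
    funext i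
    fin_cases i <;> rfl
  · intro v
    show _ = rng (v 0)
    unfold rng
    congr 1
    funext i
    fin_cases i
    rfl
  · intro v
    show _ = rone M
    unfold rone
    congr 1
    exact Subsingleton.elim _ _

end Pool.Agent.T2H95.Sqf
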