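import Pool.Agent.T2H95.Sqf.Meas
import Pool.Agent.T2H95.Sqf.Transfer
import Pool.Agent.T2H95.Sqf.Alg

/-!
# Definability helpers and first facts about the measure
-/

set_option autoImplicit false

open FirstOrder Set Pool.Agent.V11251

namespace Pool.Agent.T2H95.Sqf

universe u v w

section general

variable {L : FirstOrder.Language.{u, v}} {M : Type w} [L.Structure M] {A : Set M}
  {α β : Type}

theorem tf_relabel {g : (α → M) → M} (hg : TF L A g) (f : α → β) :
    TF L A (fun w : β → M => g (w ∘ f)) := by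
  obtain ⟨t, ht⟩ := hg
  refine ⟨t.relabel (Sum.map id f), fun v => ?_⟩
  rw [Language.Term.realize_relabel]
  show _ = g (v ∘ f)
  rw [← ht]
  congr 1
  funext z
  rcases z with a | a <;> rfl

theorem dp_exTuple [Finite β] {P : (α → M) → (β → M) → Prop}
    (h : DP L A (fun w : α ⊕ β → M => P (w ∘ Sum.inl) (w ∘ Sum.inr))) :
    DP L A (fun v => ∃ y, P v y) := by
  obtain ⟨φ, hφ⟩ := h
  refine ⟨Language.Formula.iExs β (φ.relabel (Equiv.sumAssoc _ _ _).symm), fun v => ?_⟩
  rw [Language.Formula.realize_iExs]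
  refine exists_congr fun y => ?_
  rw [Language.Formula.realize_relabel]
  have : φ.Realize (Sum.elim (fun a : A => (a : M)) (Sum.elim v y)) ↔ P v y :=
    hφ (Sum.elim v y)
  rw [← this]
  refine iff_of_eq (congrArg _ ?_)
  funext z
  rcases z with a | a | a <;> rfl

theorem graph_tf {n k : ℕ} {X : Set (Fin n → M)} (hX : Dfn L M X)
    (g : Fin k → (Fin n → M) → M) (hg : ∀ i, TF L (Set.univ : Set M) (g i)) :
    (Set.univ : Set M).Definable L
      {z : Fin n ⊕ Fin k → M | z ∘ Sum.inl ∈ X ∧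
        z ∘ Sum.inr = (fun w i => g i w) (z ∘ Sum.inl)} := by
  have h1 : DP L (Set.univ : Set M) (fun z : Fin n ⊕ Fin k → M =>
      (fun i => z (Sum.inl i)) ∈ X ∧ ∀ i, z (Sum.inr i) = g i (z ∘ Sum.inl)) :=
    (Dfn.dp hX Sum.inl).and (DP.forall_fin fun i => DP.eq (TF.var _) (tf_relabel (hg i) _))
  refine (h1.congr fun z => ?_).definable
  refine and_congr Iff.rfl ?_
  rw [funext_iff]
  exact Iff.rfl

theorem image_tf {n k : ℕ} {X : Set (Fin n → M)} (hX : Dfn L M X)
    (g : Fin k → (Fin n → M) → M) (hg : ∀ i, TF L (Set.univ : Set M) (g i)) :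
    Dfn L M ((fun w i => g i w) '' X) := by
  have h1 : DP L (Set.univ : Set M) (fun z : Fin k → M =>
      ∃ x : Fin n → M, x ∈ X ∧ ∀ i, z i = g i x) := by
    apply dp_exTuple
    exact (Dfn.dp hX Sum.inr).and (DP.forall_fin fun i => DP.eq (TF.var _)
      (tf_relabel (hg i) _))
  refine DP.dfn (h1.congr fun z => ?_)
  constructor
  · rintro ⟨x, hx, hz⟩
    exact ⟨x, hx, (funext hz).symm⟩
  · rintro ⟨x, hx, hz⟩
    exact ⟨x, hx, fun i => (congrFun hz i).symm⟩

/-- finite additivity -/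
theorem tm_biUnion {h : ∀ n : ℕ, Set (Fin n → M) → ℕ × ℝ} [Infinite M]
    (hh : IsMSMeasure L M h) {k : ℕ} (hk : 1 ≤ k) {D : ℕ}
    (hD : (h k Set.univ).1 ≤ D) {ι : Type} (s : Finset ι) (A : ι → Set (Fin k → M))
    (hA : ∀ i, Dfn L M (A i)) (hd : ∀ i ∈ s, ∀ j ∈ s, i ≠ j → Disjoint (A i) (A j)) :
    Dfn L M (⋃ i ∈ s, A i) ∧ tm h D (⋃ i ∈ s, A i) = ∑ i ∈ s, tm h D (A i) := by
  classical
  induction s using Finset.induction_on with
  | empty => simp [tm_empty hh hk, Dfn.empty]
  | insert a s ha ih =>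
    obtain ⟨ih1, ih2⟩ := ih (fun i hi j hj => hd i (Finset.mem_insert_of_mem hi) j
      (Finset.mem_insert_of_mem hj))
    rw [Finset.set_biUnion_insert, Finset.sum_insert ha]
    refine ⟨Dfn.union (hA a) ih1, ?_⟩
    rw [tm_union hh hk (hA a) ih1 _ ((dim_mono hh hk (Dfn.union (hA a) ih1) Dfn.univ
      (Set.subset_univ _)).trans hD), ih2]
    rw [Set.disjoint_iUnion₂_right]
    intro i hi
    exact hd a (Finset.mem_insert_self _ _) i (Finset.mem_insert_of_mem hi)
      (fun h => ha (h ▸ hi))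

theorem tm_mono {h : ∀ n : ℕ, Set (Fin n → M) → ℕ × ℝ} [Infinite M]
    (hh : IsMSMeasure L M h) {k : ℕ} (hk : 1 ≤ k) {D : ℕ}
    (hD : (h k Set.univ).1 ≤ D) {A B : Set (Fin k → M)} (hA : Dfn L M A) (hB : Dfn L M B)
    (hAB : A ⊆ B) : tm h D A ≤ tm h D B := by
  have h1 := tm_union hh hk (D := D) hA (hB.diff hA) Set.disjoint_sdiff_right
    (by rw [Set.union_sdiff_cancel hAB]; exact (dim_mono hh hk hB Dfn.univ
      (Set.subset_univ _)).trans hD)
  rw [Set.union_sdiff_cancel hAB] at h1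
  rw [h1]
  have := tm_nonneg hh hk D (hB.diff hA)
  linarith

theorem dim_univ_pos {h : ∀ n : ℕ, Set (Fin n → M) → ℕ × ℝ} [Infinite M]
    (hh : IsMSMeasure L M h) : 1 ≤ (h 1 Set.univ).1 := by
  by_contra hcon
  have hz : (h 1 (Set.univ : Set (Fin 1 → M))).1 = 0 := by omega
  obtain ⟨n, hn⟩ := exists_nat_gt (h 1 (Set.univ : Set (Fin 1 → M))).2
  obtain ⟨s, hs⟩ := Infinite.exists_subset_card_eq (Fin 1 → M) n
  have h1 := tm_mono hh le_rfl (D := 0) hz.le (dfn_finite s.finite_toSet) Dfn.univ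
    (Set.subset_univ _)
  unfold tm at h1
  rw [if_pos hz, hh.finite_sets 1 le_rfl _ s.finite_toSet] at h1
  simp only [Set.ncard_coe_finset, hs, ↓reduceIte] at h1
  linarith

end general

section

variable {M : Type w} [Lsqf.Structure M] [AddCommGroup M] {e : M} {α : Type} {A : Set M}

theorem tf_add (cM : Compat M e) {g h : (α → M) → M} (hg : TF Lsqf A g) (hh : TF Lsqf A h) :
    TF Lsqf A (fun v => g v + h v) :=
  TF.fun₂ (L := Lsqf) Fn.add (fun a b => a + b) cM.add hg hh

theorem tf_neg (cM : Compat M e) {g : (α → M) → M} (hg : TF Lsqf A g) :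
    TF Lsqf A (fun v => - g v) :=
  TF.fun₁ (L := Lsqf) Fn.neg (fun a => - a) cM.neg hg

theorem tf_sub (cM : Compat M e) {g h : (α → M) → M} (hg : TF Lsqf A g) (hh : TF Lsqf A h) :
    TF Lsqf A (fun v => g v - h v) := by
  simpa only [sub_eq_add_neg] using tf_add cM hg (tf_neg cM hh)

theorem tf_e (cM : Compat M e) : TF Lsqf A (fun _ : α → M => e) :=
  TF.fun₀ (L := Lsqf) Fn.one e cM.one

theorem tf_zero (cM : Compat M e) : TF Lsqf A (fun _ : α → M => (0 : M)) := by
  have := tf_sub cM (tf_e (α := α) (A := A) cM) (tf_e cM)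
  simpa only [sub_self] using this

theorem tf_nsmul (cM : Compat M e) {g : (α → M) → M} (hg : TF Lsqf A g) (n : ℕ) :
    TF Lsqf A (fun v => n • g v) := by
  induction n with
  | zero => simpa only [zero_smul] using tf_zero cM
  | succ n ih => simpa only [succ_nsmul] using tf_add cM ih hg

theorem tf_zsmul (cM : Compat M e) {g : (α → M) → M} (hg : TF Lsqf A g) (n : ℤ) :
    TF Lsqf A (fun v => n • g v) := by
  cases n with
  | ofNat n => simpa only [Int.ofNat_eq_natCast, natCast_zsmul] using tf_nsmul cM hg n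
  | negSucc n => simpa only [negSucc_zsmul] using tf_neg cM (tf_nsmul cM hg (n + 1))

theorem dp_isP {g : (α → M) → M} (hg : TF Lsqf A g) (m : ℕ) (hm : 1 ≤ m) :
    DP Lsqf A (fun v => IsP M m hm (g v)) := by
  obtain ⟨s, h3⟩ := hg
  refine ⟨Language.Relations.formula₁ (L := Lsqf) (Rl.P m hm) s, fun v => ?_⟩
  rw [Language.Formula.realize_rel₁, h3]
  exact Iff.rfl

theorem dp_cls (cM : Compat M e) {g : (α → M) → M} (hg : TF Lsqf A g) (N : ℕ) (c : ℤ) :
    DP Lsqf A (fun v => Cls e N c (g v)) := by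
  apply DP.ex
  exact DP.eq (tf_relabel hg some) (tf_add cM (tf_nsmul cM (TF.var _) N)
    (tf_zsmul cM (tf_e cM) c))

theorem cls_congr {N : ℕ} {c c' : ℤ} (hc : (N : ℤ) ∣ c - c') {x : M} (hx : Cls e N c x) :
    Cls e N c' x := by
  obtain ⟨z, rfl⟩ := hx
  obtain ⟨k, hk⟩ := hc
  refine ⟨z + k • e, ?_⟩
  have : c = c' + (N : ℤ) * k := by linarith
  rw [this, add_smul, mul_smul, nsmul_add, natCast_zsmul]
  abel

theorem cls_refine {N N' : ℕ} (hN : N ∣ N') {c : ℤ} {x : M} (hx : Cls e N' c x) :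
    Cls e N c x := by
  obtain ⟨z, rfl⟩ := hx
  obtain ⟨k, rfl⟩ := hN
  exact ⟨k • z, by rw [mul_smul]⟩

theorem cls_add {N : ℕ} {c c' : ℤ} {x y : M} (hx : Cls e N c x) (hy : Cls e N c' y) :
    Cls e N (c + c') (x + y) := by
  obtain ⟨z, rfl⟩ := hx
  obtain ⟨t, rfl⟩ := hy
  exact ⟨z + t, by rw [nsmul_add, add_smul]; abel⟩

theorem cls_sub {N : ℕ} {c c' : ℤ} {x y : M} (hx : Cls e N c x) (hy : Cls e N c' y) :
    Cls e N (c - c') (x - y) := by
  obtain ⟨z, rfl⟩ := hx
  obtain ⟨t, rfl⟩ := hy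
  exact ⟨z - t, by rw [nsmul_sub, sub_smul]; abel⟩

theorem cls_self (N : ℕ) (c : ℤ) : Cls e N c (c • e) := ⟨0, by simp⟩

/-- a set of `1`-tuples -/
def sx (P : M → Prop) : Set (Fin 1 → M) := {x | P (x 0)}

theorem sx_dfn {P : M → Prop} (hP : DP Lsqf (Set.univ : Set M) (fun v : Fin 1 → M => P (v 0))) :
    Dfn Lsqf M (sx P) := hP.definable

variable {h : ∀ n : ℕ, Set (Fin n → M) → ℕ × ℝ} (hM : M ⊨ Lsqf.completeTheory ℤ)
  (cM : Compat M e) (hh : IsMSMeasure Lsqf M h)

include hM cM in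
theorem cls_unique {N : ℕ} {c c' : ℤ} {x : M} (hx : Cls e N c x) (hx' : Cls e N c' x) :
    (N : ℤ) ∣ c - c' := by
  by_contra hcon
  obtain ⟨z, rfl⟩ := hx
  obtain ⟨t, ht⟩ := hx'
  apply t2 hM cM N _ hcon (t - z)
  rw [nsmul_sub, sub_smul, sub_eq_sub_iff_add_eq_add, ← ht]
  abel

include hM cM hh in
/-- translation invariance -/
theorem trans_inv {P : M → Prop}
    (hP : DP Lsqf (Set.univ : Set M) (fun v : Fin 1 → M => P (v 0))) (b : M) :
    h 1 (sx fun x => P (x + b)) = h 1 (sx P) := by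
  have := infM hM cM
  have hb : TF Lsqf (Set.univ : Set M) (fun v : Fin 1 → M => v 0 + b) :=
    tf_add cM (TF.var _) (TF.const (Set.mem_univ _))
  have h1 : DP Lsqf (Set.univ : Set M) (fun v : Fin 1 → M => P (v 0 + b)) := hP.subst₁ hb
  refine h_bij hh le_rfl le_rfl h1.definable hP.definable (fun w _ => w 0 + b) ?_ ?_
    (graph_tf h1.definable (fun _ w => w 0 + b) (fun _ => hb))
  · ext y
    constructor
    · rintro ⟨x, hx, rfl⟩
      exact hx
    · intro hy
      refine ⟨fun _ => y 0 - b, ?_, ?_⟩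
      · show P (y 0 - b + b)
        rw [sub_add_cancel]
        exact hy
      · funext i
        rw [Subsingleton.elim i 0]
        simp
  · intro x _ y _ hxy
    funext i
    rw [Subsingleton.elim i 0]
    exact add_right_cancel (congrFun hxy 0)

include hM cM hh in
/-- fibres of the projection to the first coordinate -/
theorem fib_fst {P : M → Prop}
    (hP : DP Lsqf (Set.univ : Set M) (fun v : Fin 1 → M => P (v 0))) (a : M) :
    h 2 {w | w 0 = a ∧ P (w 1)} = h 1 (sx P) := by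
  have := infM hM cM
  have hb : TF Lsqf (Set.univ : Set M) (fun v : Fin 2 → M => v 1) := TF.var _
  have h1 : DP Lsqf (Set.univ : Set M) (fun v : Fin 2 → M => v 0 = a ∧ P (v 1)) :=
    (DP.eq (TF.var _) (TF.const (Set.mem_univ _))).and (hP.subst₁ hb)
  refine h_bij hh (by norm_num) le_rfl h1.definable hP.definable (fun w _ => w 1) ?_ ?_
    (graph_tf h1.definable (fun _ w => w 1) (fun _ => hb))
  · ext y
    constructor
    · rintro ⟨x, hx, rfl⟩
      exact hx.2
    · intro hy
      refine ⟨![a, y 0], ⟨rfl, hy⟩, ?_⟩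
      funext i
      rw [Subsingleton.elim i 0]
      rfl
  · intro x hx y hy hxy
    funext i
    fin_cases i
    · exact hx.1.trans hy.1.symm
    · exact congrFun hxy 0

include hM cM hh in
/-- fibres of the projection to the second coordinate -/
theorem fib_snd {P : M → Prop}
    (hP : DP Lsqf (Set.univ : Set M) (fun v : Fin 1 → M => P (v 0))) (a : M) :
    h 2 {w | w 1 = a ∧ P (w 0)} = h 1 (sx P) := by
  have := infM hM cM
  have hb : TF Lsqf (Set.univ : Set M) (fun v : Fin 2 → M => v 0) := TF.var _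
  have h1 : DP Lsqf (Set.univ : Set M) (fun v : Fin 2 → M => v 1 = a ∧ P (v 0)) :=
    (DP.eq (TF.var _) (TF.const (Set.mem_univ _))).and (hP.subst₁ hb)
  refine h_bij hh (by norm_num) le_rfl h1.definable hP.definable (fun w _ => w 0) ?_ ?_
    (graph_tf h1.definable (fun _ w => w 0) (fun _ => hb))
  · ext y
    constructor
    · rintro ⟨x, hx, rfl⟩
      exact hx.2
    · intro hy
      refine ⟨![y 0, a], ⟨rfl, hy⟩, ?_⟩
      funext i
      rw [Subsingleton.elim i 0]
      rfl
  · intro x hx y hy hxy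
    funext i
    fin_cases i
    · exact congrFun hxy 0
    · exact hx.1.trans hy.1.symm

include hM cM hh in
/-- fibres of the difference -/
theorem fib_sub {P : M → Prop}
    (hP : DP Lsqf (Set.univ : Set M) (fun v : Fin 1 → M => P (v 0))) (b : M) :
    h 2 {w | w 1 - w 0 = b ∧ P (w 0)} = h 1 (sx P) := by
  have := infM hM cM
  have hb : TF Lsqf (Set.univ : Set M) (fun v : Fin 2 → M => v 0) := TF.var _
  have h1 : DP Lsqf (Set.univ : Set M) (fun v : Fin 2 → M => v 1 - v 0 = b ∧ P (v 0)) :=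
    (DP.eq (tf_sub cM (TF.var _) (TF.var _)) (TF.const (Set.mem_univ _))).and (hP.subst₁ hb)
  refine h_bij hh (by norm_num) le_rfl h1.definable hP.definable (fun w _ => w 0) ?_ ?_
    (graph_tf h1.definable (fun _ w => w 0) (fun _ => hb))
  · ext y
    constructor
    · rintro ⟨x, hx, rfl⟩
      exact hx.2
    · intro hy
      refine ⟨![y 0, y 0 + b], ⟨?_, hy⟩, ?_⟩
      · show y 0 + b - y 0 = b
        abel
      · funext i
        rw [Subsingleton.elim i 0]
        rfl
  · intro x hx y hy hxy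
    have h0 : x 0 = y 0 := congrFun hxy 0
    funext i
    fin_cases i
    · exact h0
    · have h2 := hx.1.trans hy.1.symm
      rw [h0] at h2
      exact sub_left_injective h2

include hM cM hh in
theorem dim_plane : (h 2 Set.univ).1 ≤ (h 1 Set.univ).1 + (h 1 Set.univ).1 := by
  have := infM hM cM
  have hb : TF Lsqf (Set.univ : Set M) (fun v : Fin 2 → M => v 0) := TF.var _
  have h1 := dim_upper hh (n := 2) (k := 1) (by norm_num) le_rfl (X := Set.univ) Dfn.univ
    ⟨fun _ => 0, trivial⟩ (fun w _ => w 0) (image_tf Dfn.univ (fun _ w => w 0) (fun _ => hb))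
    (graph_tf Dfn.univ (fun _ w => w 0) (fun _ => hb)) (a := (h 1 Set.univ).1) (by
      intro y _
      have h2 := fib_fst hM cM hh (P := fun _ => True) DP.true (y 0)
      have h3 : {x : Fin 2 → M | x ∈ Set.univ ∧ (fun (w : Fin 2 → M) (_ : Fin 1) => w 0) x = y} =
          {w | w 0 = y 0 ∧ True} := by
        ext x
        constructor
        · rintro ⟨_, h4⟩
          exact ⟨congrFun h4 0, trivial⟩
        · rintro ⟨h4, _⟩
          refine ⟨trivial, ?_⟩
          funext i
          rw [Subsingleton.elim i 0]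
          exact h4
      rw [h3, h2]
      exact dim_mono hh le_rfl (sx_dfn DP.true) Dfn.univ (Set.subset_univ _))
  refine h1.trans (Nat.add_le_add_left ?_ _)
  exact dim_mono hh le_rfl (image_tf Dfn.univ (fun _ w => w 0) (fun _ => hb)) Dfn.univ
    (Set.subset_univ _)

end

end Pool.Agent.T2H95.Sqf
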