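import Pool.Agent.T2H95.Sqf.Main1

/-!
# The square-free elements have full dimension
-/

set_option autoImplicit false

open FirstOrder Set Pool.Agent.V11251

namespace Pool.Agent.T2H95.Sqf

universe u v w

variable {M : Type w} [Lsqf.Structure M] [AddCommGroup M] {e : M} {α : Type} {A : Set M}

variable {h : ∀ n : ℕ, Set (Fin n → M) → ℕ × ℝ} (hM : M ⊨ Lsqf.completeTheory ℤ)
  (cM : Compat M e) (hh : IsMSMeasure Lsqf M h)

/-- the dimension of the line -/
def d0 (h : ∀ n : ℕ, Set (Fin n → M) → ℕ × ℝ) : ℕ := (h 1 Set.univ).1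

/-- the measure of the line -/
def m0 (h : ∀ n : ℕ, Set (Fin n → M) → ℕ × ℝ) : ℝ := (h 1 Set.univ).2

include hM cM hh

theorem d0_pos : 1 ≤ d0 h := by
  have := infM hM cM
  exact dim_univ_pos hh

theorem m0_pos : 0 < m0 h := by
  have h1 := d0_pos hM cM hh
  rcases hh.values 1 le_rfl Set.univ Dfn.univ with h2 | h2
  · exact h2
  · unfold d0 at h1
    rw [h2] at h1
    simp at h1

/-- all the classes modulo `N` have the same value -/
theorem cls_same (N : ℕ) (c : ℤ) :
    h 1 (sx (Cls e N c)) = h 1 (sx (Cls e N 0)) := by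
  have h1 := trans_inv hM cM hh (P := Cls e N 0) (dp_cls cM (TF.var 0) N 0) ((-c) • e)
  rw [← h1]
  congr 1
  ext x
  show Cls e N c (x 0) ↔ Cls e N 0 (x 0 + (-c) • e)
  constructor
  · intro hx
    have := cls_add hx (cls_self (e := e) N (-c))
    rwa [add_neg_cancel] at this
  · intro hx
    have := cls_add hx (cls_self (e := e) N c)
    rw [add_assoc, ← add_smul, neg_add_cancel, zero_smul, add_zero, zero_add] at this
    exact this

theorem cls_tm {N : ℕ} (hN : 0 < N) (c : ℤ) :
    tm h (d0 h) (sx (Cls e N c)) = m0 h / N := by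
  have := infM hM cM
  have h1 : tm h (d0 h) (⋃ i ∈ Finset.range N, sx (Cls e N (i : ℤ))) =
      ∑ i ∈ Finset.range N, tm h (d0 h) (sx (Cls e N (i : ℤ))) := by
    refine (tm_biUnion hh le_rfl le_rfl _ (fun i : ℕ => sx (Cls e N (i : ℤ)))
      (fun i => sx_dfn (dp_cls cM (TF.var 0) N _)) ?_).2
    intro i hi j hj hij
    rw [Set.disjoint_left]
    intro x hx hx'
    apply hij
    have h2 := cls_unique hM cM hx hx'
    rw [Finset.mem_range] at hi hj
    obtain ⟨k, hk⟩ := h2
    by_contra hne
    rcases lt_trichotomy k 0 with h3 | h3 | h3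
    · nlinarith
    · subst h3; omega
    · nlinarith
  have h2 : (⋃ i ∈ Finset.range N, sx (Cls e N (i : ℤ))) = Set.univ := by
    ext x
    simp only [Set.mem_iUnion, Set.mem_univ, iff_true]
    obtain ⟨c, hc, hx⟩ := t1 hM cM N hN (x 0)
    exact ⟨c, hc, hx⟩
  have h3 : ∀ i ∈ Finset.range N, tm h (d0 h) (sx (Cls e N (i : ℤ))) =
      tm h (d0 h) (sx (Cls e N c)) := by
    intro i _
    unfold tm
    rw [cls_same hM cM hh N i, cls_same hM cM hh N c]
  rw [h2, Finset.sum_congr rfl h3, Finset.sum_const, Finset.card_range, nsmul_eq_mul] at h1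
  have h4 : tm h (d0 h) (Set.univ : Set (Fin 1 → M)) = m0 h := by
    exact if_pos rfl
  rw [h4] at h1
  have h5 : (N : ℝ) ≠ 0 := by exact_mod_cast hN.ne'
  rw [h1]
  field_simp

theorem cls_dim {N : ℕ} (hN : 0 < N) (c : ℤ) : (h 1 (sx (Cls e N c))).1 = d0 h := by
  have h1 := cls_tm hM cM hh hN c
  have h2 := m0_pos hM cM hh
  unfold tm at h1
  by_contra hne
  rw [if_neg hne] at h1
  have h5 : (0 : ℝ) < N := by exact_mod_cast hN
  have : 0 < m0 h / N := div_pos h2 h5
  linarith

/-- the square-free elements have full dimension -/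
theorem sqf_dim : (h 1 (sx (IsP M 1 le_rfl))).1 = d0 h := by
  have := infM hM cM
  have hPd : DP Lsqf (Set.univ : Set M) (fun v : Fin 1 → M => IsP M 1 le_rfl (v 0)) :=
    dp_isP (TF.var 0) 1 le_rfl
  have hle : (h 1 (sx (IsP M 1 le_rfl))).1 ≤ d0 h :=
    dim_mono hh le_rfl (sx_dfn hPd) Dfn.univ (Set.subset_univ _)
  by_contra hne
  have hlt : (h 1 (sx (IsP M 1 le_rfl))).1 + 1 ≤ d0 h := by omega
  set k := d0 h + 1 with hk
  set K := k.factorial with hK
  have hKpos : 0 < K := Nat.factorial_pos _
  -- the intersections of translates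
  let T : ℕ → (ℕ → M) → M → Prop := fun j y x => ∀ i : Fin j, IsP M 1 le_rfl (x + y i)
  have hTd : ∀ j y, DP Lsqf (Set.univ : Set M) (fun v : Fin 1 → M => T j y (v 0)) :=
    fun j y => DP.forall_fin fun i => dp_isP
      (tf_add cM (TF.var 0) (TF.const (Set.mem_univ _))) 1 le_rfl
  have hTne : ∀ j, j ≤ k → ∀ y : ℕ → M, (∀ i, Cls e K 0 (y i)) → ∃ x, T j y x := by
    intro j hj y hy
    obtain ⟨x, hx⟩ := t4 hM cM k (fun i => y i) (fun i => hy i)
    exact ⟨x, fun i => hx ⟨i, lt_of_lt_of_le i.2 hj⟩⟩
  have hmain : ∀ j, j ≤ k → ∃ y : ℕ → M, (∀ i, Cls e K 0 (y i)) ∧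
      (h 1 (sx (T j y))).1 + j ≤ d0 h := by
    intro j
    induction j with
    | zero =>
      intro _
      refine ⟨fun _ => 0, fun _ => ?_, ?_⟩
      · have := cls_self (e := e) K 0
        rwa [zero_smul] at this
      · rw [add_zero]
        exact dim_mono hh le_rfl (sx_dfn (hTd 0 (fun _ => 0))) Dfn.univ (Set.subset_univ _)
    | succ j ih =>
      intro hj
      obtain ⟨y, hy, hyd⟩ := ih (by omega)
      by_contra hcon
      push Not at hcon
      -- all the sections have the same dimension
      have hsec : ∀ b : M, Cls e K 0 b →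
          (∃ x, T j y x ∧ IsP M 1 le_rfl (x + b)) ∧ (h 1 (sx (T j y))).1 ≤
          (h 1 (sx (fun x => T j y x ∧ IsP M 1 le_rfl (x + b)))).1 := by
        intro b hb
        set y' : ℕ → M := Function.update y j b with hy'
        have hy'c : ∀ i, Cls e K 0 (y' i) := by
          intro i
          by_cases hij : i = j
          · subst hij; rw [hy', Function.update_self]; exact hb
          · rw [hy', Function.update_of_ne hij]; exact hy i
        have heq : T (j + 1) y' = fun x => T j y x ∧ IsP M 1 le_rfl (x + b) := by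
          funext x
          apply propext
          show (∀ i : Fin (j + 1), _) ↔ _
          rw [Fin.forall_fin_succ']
          refine and_congr (forall_congr' fun i => ?_) ?_
          · have : ((i.castSucc : Fin (j + 1)) : ℕ) ≠ j := by
              rw [Fin.val_castSucc]; exact i.2.ne
            rw [hy', Function.update_of_ne this, Fin.val_castSucc]
          · rw [hy', Fin.val_last, Function.update_self]
        rw [← heq]
        refine ⟨?_, ?_⟩
        · obtain ⟨x, hx⟩ := hTne (j + 1) hj y' hy'c
          exact ⟨x, hx⟩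
        · have h1 := hcon y' hy'c
          omega
      -- the set of pairs
      let X : Set (Fin 2 → M) := {w | T j y (w 0) ∧ Cls e K 0 (w 1) ∧
        IsP M 1 le_rfl (w 0 + w 1)}
      have hXd : Dfn Lsqf M X := by
        have h1 : DP Lsqf (Set.univ : Set M) (fun w : Fin 2 → M => T j y (w 0) ∧
            Cls e K 0 (w 1) ∧ IsP M 1 le_rfl (w 0 + w 1)) :=
          ((hTd j y).subst₁ (TF.var 0)).and ((dp_cls cM (TF.var 1) K 0).and
            (dp_isP (tf_add cM (TF.var 0) (TF.var 1)) 1 le_rfl))
        exact h1.definable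
      have hX0 : X.Nonempty := by
        obtain ⟨⟨x, hx⟩, -⟩ := hsec (y 0) (hy 0)
        exact ⟨![x, y 0], hx.1, hy 0, hx.2⟩
      -- lower bound
      have hb1 : TF Lsqf (Set.univ : Set M) (fun v : Fin 2 → M => v 1) := TF.var _
      have hb0 : TF Lsqf (Set.univ : Set M) (fun v : Fin 2 → M => v 0) := TF.var _
      have hi1 := image_tf hXd (fun _ : Fin 1 => fun w => w 1) (fun _ => hb1)
      have hi0 := image_tf hXd (fun _ : Fin 1 => fun w => w 0) (fun _ => hb0)
      have hlow := dim_lower hh (n := 2) (k := 1) (by norm_num) le_rfl hXd hX0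
        (fun w _ => w 1) hi1 (graph_tf hXd (fun _ w => w 1) (fun _ => hb1))
        (a := (h 1 (sx (T j y))).1) (by
          rintro _ ⟨w, hw, rfl⟩
          have hb := hw.2.1
          have hP' : DP Lsqf (Set.univ : Set M) (fun v : Fin 1 → M =>
              T j y (v 0) ∧ IsP M 1 le_rfl (v 0 + w 1)) :=
            (hTd j y).and (dp_isP (tf_add cM (TF.var 0) (TF.const (Set.mem_univ _))) 1 le_rfl)
          have h2 := fib_snd hM cM hh (P := fun x => T j y x ∧ IsP M 1 le_rfl (x + w 1))
            hP' (w 1)
          have h3 : {x : Fin 2 → M | x ∈ X ∧ (fun (w : Fin 2 → M) (_ : Fin 1) => w 1) x =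
              fun _ => w 1} = {w' | w' 1 = w 1 ∧ (T j y (w' 0) ∧
                IsP M 1 le_rfl (w' 0 + w 1))} := by
            ext x
            constructor
            · rintro ⟨h4, h5⟩
              have h6 : x 1 = w 1 := congrFun h5 0
              refine ⟨h6, h4.1, ?_⟩
              rw [← h6]
              exact h4.2.2
            · rintro ⟨h6, h4, h5⟩
              refine ⟨⟨h4, ?_, ?_⟩, funext fun _ => h6⟩
              · show Cls e K 0 (x 1)
                rw [h6]; exact hb
              · show IsP M 1 le_rfl (x 0 + x 1)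
                rw [h6]; exact h5
          show (h 1 (sx (T j y))).1 ≤ (h 2 {x : Fin 2 → M | x ∈ X ∧
            (fun (w : Fin 2 → M) (_ : Fin 1) => w 1) x = fun _ => w 1}).1
          rw [h3, h2]
          exact (hsec (w 1) hb).2)
      have himg : (fun (w : Fin 2 → M) (_ : Fin 1) => w 1) '' X = sx (Cls e K 0) := by
        ext z
        constructor
        · rintro ⟨w, hw, rfl⟩
          exact hw.2.1
        · intro hz
          obtain ⟨⟨x, hx⟩, -⟩ := hsec (z 0) hz
          refine ⟨![x, z 0], ⟨hx.1, hz, hx.2⟩, ?_⟩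
          funext i
          rw [Subsingleton.elim i 0]
          rfl
      rw [himg, cls_dim hM cM hh hKpos 0] at hlow
      -- upper bound
      have hup := dim_upper hh (n := 2) (k := 1) (by norm_num) le_rfl hXd hX0
        (fun w _ => w 0) hi0 (graph_tf hXd (fun _ w => w 0) (fun _ => hb0))
        (a := (h 1 (sx (IsP M 1 le_rfl))).1) (by
          rintro _ ⟨w, hw, rfl⟩
          have hP' : DP Lsqf (Set.univ : Set M) (fun v : Fin 1 → M =>
              IsP M 1 le_rfl (v 0 + w 0)) :=
            dp_isP (tf_add cM (TF.var 0) (TF.const (Set.mem_univ _))) 1 le_rfl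
          have h2 := fib_fst hM cM hh (P := fun x => IsP M 1 le_rfl (x + w 0)) hP' (w 0)
          have h2' := trans_inv hM cM hh (P := IsP M 1 le_rfl) hPd (w 0)
          rw [← h2', ← h2]
          refine dim_mono hh (by norm_num) ?_ ?_ ?_
          · have h7 : DP Lsqf (Set.univ : Set M) (fun x : Fin 2 → M =>
                (fun i => x i) ∈ X ∧ x 0 = w 0) :=
              (Dfn.dp hXd id).and (DP.eq (TF.var 0) (TF.const (Set.mem_univ _)))
            refine (h7.congr fun x => ?_).definable
            refine and_congr Iff.rfl ?_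
            constructor
            · intro h8
              funext _
              exact h8
            · intro h8
              exact congrFun h8 0
          · have h7 : DP Lsqf (Set.univ : Set M) (fun x : Fin 2 → M =>
                x 0 = w 0 ∧ IsP M 1 le_rfl (x 1 + w 0)) :=
              (DP.eq (TF.var 0) (TF.const (Set.mem_univ _))).and
                (dp_isP (tf_add cM (TF.var 1) (TF.const (Set.mem_univ _))) 1 le_rfl)
            exact h7.definable
          · rintro x ⟨h4, h5⟩
            have h6 : x 0 = w 0 := congrFun h5 0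
            refine ⟨h6, ?_⟩
            have h8 := h4.2.2
            rw [h6, add_comm] at h8
            exact h8)
      have himg0 : (h 1 ((fun (w : Fin 2 → M) (_ : Fin 1) => w 0) '' X)).1 ≤
          (h 1 (sx (T j y))).1 := by
        refine dim_mono hh le_rfl hi0 (sx_dfn (hTd j y)) ?_
        rintro _ ⟨w, hw, rfl⟩
        exact hw.1
      omega
  obtain ⟨y, hy, hyd⟩ := hmain k le_rfl
  omega

end Pool.Agent.T2H95.Sqf
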