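import Pool.Agent.T2H95.Sqf.Main2

/-!
# The measures of the square-free elements in the classes
-/

set_option autoImplicit false

open FirstOrder Set Pool.Agent.V11251

namespace Pool.Agent.T2H95.Sqf

universe u v w

variable {M : Type w} [Lsqf.Structure M] [AddCommGroup M] {e : M} {α : Type} {A : Set M}

/-- square-free and in a class -/
def SC (e : M) (N : ℕ) (c : ℤ) (x : M) : Prop := IsP M 1 le_rfl x ∧ Cls e N c x

/-- the measure of the square-free elements in a class -/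
noncomputable def al (h : ∀ n : ℕ, Set (Fin n → M) → ℕ × ℝ) (e : M) (N : ℕ) (c : ℤ) : ℝ :=
  tm h (d0 h) (sx (SC e N c))

/-- the measure of the square-free elements -/
noncomputable def sg (h : ∀ n : ℕ, Set (Fin n → M) → ℕ × ℝ) : ℝ :=
  tm h (d0 h) (sx (IsP M 1 le_rfl))

variable {h : ∀ n : ℕ, Set (Fin n → M) → ℕ × ℝ} (hM : M ⊨ Lsqf.completeTheory ℤ)
  (cM : Compat M e) (hh : IsMSMeasure Lsqf M h)

theorem dp_SC (cM : Compat M e) {g : (α → M) → M} (hg : TF Lsqf A g) (N : ℕ) (c : ℤ) :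
    DP Lsqf A (fun v => SC e N c (g v)) :=
  (dp_isP hg 1 le_rfl).and (dp_cls cM hg N c)

theorem al_congr {N : ℕ} {c c' : ℤ} (hc : (N : ℤ) ∣ c - c') : al h e N c = al h e N c' := by
  unfold al
  congr 1
  ext x
  show _ ∧ _ ↔ _ ∧ _
  refine and_congr Iff.rfl ⟨cls_congr hc, cls_congr ?_⟩
  have := dvd_neg.2 hc
  rwa [neg_sub] at this

section

include hM cM hh

theorem sg_pos : 0 < sg h := by
  have h1 := sqf_dim hM cM hh
  have h2 := d0_pos hM cM hh
  unfold sg tm
  rw [if_pos h1]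
  rcases hh.values 1 le_rfl (sx (IsP M 1 le_rfl)) (sx_dfn (dp_isP (TF.var 0) 1 le_rfl))
    with h3 | h3
  · exact h3
  · rw [h3] at h1
    simp only at h1
    omega

omit hM in
theorem al_nonneg (N : ℕ) (c : ℤ) : 0 ≤ al h e N c :=
  tm_nonneg hh le_rfl _ (sx_dfn (dp_SC cM (TF.var 0) N c))

theorem al_le {N : ℕ} (hN : 0 < N) (c : ℤ) : al h e N c ≤ m0 h / N := by
  have := infM hM cM
  rw [← cls_tm hM cM hh hN c]
  exact tm_mono hh le_rfl le_rfl (sx_dfn (dp_SC cM (TF.var 0) N c))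
    (sx_dfn (dp_cls cM (TF.var 0) N c)) (fun x hx => hx.2)

theorem al_zero {N : ℕ} {c : ℤ} {q : ℕ} (hq : q.Prime) (hqN : q ^ 2 ∣ N)
    (hqc : ((q ^ 2 : ℕ) : ℤ) ∣ c) : al h e N c = 0 := by
  have : sx (SC e N c) = (∅ : Set (Fin 1 → M)) := by
    ext x
    simp only [Set.mem_empty_iff_false, iff_false]
    rintro ⟨h1, z, hz⟩
    obtain ⟨k, rfl⟩ := hqN
    obtain ⟨l, rfl⟩ := hqc
    apply t3 hM cM q hq (k • z + l • e)
    have h2 : (q ^ 2) • (k • z + l • e) = x 0 := by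
      rw [hz, nsmul_add, mul_smul, mul_smul, natCast_zsmul]
    rw [h2]
    exact h1
  unfold al
  rw [this, tm_empty hh le_rfl]

theorem al_refine {N N' : ℕ} [NeZero N'] (hd : N ∣ N')
    (y : ZMod N) : al h e N (y.cast : ℤ) =
      ∑ x ∈ Finset.univ.filter (fun x : ZMod N' => (ZMod.castHom hd (ZMod N)) x = y),
        al h e N' (x.cast : ℤ) := by
  classical
  have := infM hM cM
  unfold al
  have h1 := (tm_biUnion hh le_rfl (D := d0 h) le_rfl
    (Finset.univ.filter (fun x : ZMod N' => (ZMod.castHom hd (ZMod N)) x = y))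
    (fun x : ZMod N' => sx (SC e N' (x.cast : ℤ)))
    (fun x => sx_dfn (dp_SC cM (TF.var 0) _ _)) ?_).2
  · rw [← h1]
    congr 1
    ext v
    simp only [Finset.mem_filter, Finset.mem_univ, true_and, Set.mem_iUnion, exists_prop]
    constructor
    · rintro ⟨h2, h3⟩
      obtain ⟨c, -, hc⟩ := t1 hM cM N' (Nat.pos_of_ne_zero (NeZero.ne N')) (v 0)
      refine ⟨((c : ℕ) : ZMod N'), ?_, h2, ?_⟩
      · have h4 := cls_unique hM cM (cls_refine hd hc) h3
        rw [map_natCast]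
        rw [← sub_eq_zero]
        have h5 := (ZMod.intCast_zmod_eq_zero_iff_dvd ((c : ℤ) - (y.cast : ℤ)) N).2 h4
        rw [Int.cast_sub, Int.cast_natCast, ZMod.intCast_zmod_cast] at h5
        exact h5
      · refine cls_congr ?_ hc
        rw [← ZMod.intCast_zmod_eq_zero_iff_dvd, Int.cast_sub, Int.cast_natCast,
          ZMod.intCast_zmod_cast, sub_self]
    · rintro ⟨x, hx, h2, h3⟩
      refine ⟨h2, ?_⟩
      refine cls_congr ?_ (cls_refine hd h3)
      rw [← ZMod.intCast_zmod_eq_zero_iff_dvd, Int.cast_sub, ZMod.intCast_zmod_cast, ← hx,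
        ZMod.castHom_apply, sub_eq_zero]
      rw [ZMod.cast_eq_val x, ZMod.cast_eq_val x]
      simp
  · intro x _ x' _ hxx'
    rw [Set.disjoint_left]
    rintro v ⟨-, h2⟩ ⟨-, h3⟩
    apply hxx'
    have h4 := cls_unique hM cM h2 h3
    rw [← ZMod.intCast_zmod_eq_zero_iff_dvd, Int.cast_sub, ZMod.intCast_zmod_cast,
      ZMod.intCast_zmod_cast, sub_eq_zero] at h4
    exact h4

theorem al_sum (N : ℕ) [NeZero N] : ∑ y : ZMod N, al h e N (y.cast : ℤ) = sg h := by
  have h1 := al_refine hM cM hh (one_dvd N) (N := 1) (N' := N) 0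
  have h2 : (Finset.univ.filter (fun x : ZMod N => (ZMod.castHom (one_dvd N) (ZMod 1)) x = 0)) =
      Finset.univ := by
    ext x
    simp only [Finset.mem_filter, Finset.mem_univ, true_and, iff_true]
    exact Subsingleton.elim _ _
  rw [h2] at h1
  rw [← h1]
  unfold al sg
  congr 1
  ext x
  constructor
  · exact fun hx => hx.1
  · intro hx
    refine ⟨hx, ?_⟩
    exact ⟨x 0, by simp⟩

/-- the measure of a product -/
theorem prod_tm (N : ℕ) (c c' : ℤ) :
    tm h (d0 h + d0 h) {w : Fin 2 → M | SC e N c (w 0) ∧ SC e N c' (w 1)} =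
      al h e N c' * al h e N c := by
  have := infM hM cM
  have hb0 : TF Lsqf (Set.univ : Set M) (fun v : Fin 2 → M => v 0) := TF.var _
  have hX : Dfn Lsqf M {w : Fin 2 → M | SC e N c (w 0) ∧ SC e N c' (w 1)} :=
    ((dp_SC cM (TF.var 0) N c).and (dp_SC cM (TF.var 1) N c')).definable
  have hfib : ∀ y ∈ sx (SC e N c), h 2 {x : Fin 2 → M | x ∈ {w : Fin 2 → M | SC e N c (w 0) ∧
      SC e N c' (w 1)} ∧ (fun (w : Fin 2 → M) (_ : Fin 1) => w 0) x = y} =
      h 1 (sx (SC e N c')) := by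
    intro y hy
    rw [← fib_fst hM cM hh (P := SC e N c') (dp_SC cM (TF.var 0) _ _) (y 0)]
    congr 1
    ext x
    constructor
    · rintro ⟨h1, h2⟩
      exact ⟨congrFun h2 0, h1.2⟩
    · rintro ⟨h1, h2⟩
      refine ⟨⟨?_, h2⟩, ?_⟩
      · rw [h1]; exact hy
      · funext i
        rw [Subsingleton.elim i 0]
        exact h1
  refine fubini_const hh (n := 2) (k := 1) (by norm_num) le_rfl hX
    (sx_dfn (dp_SC cM (TF.var 0) N c)) (fun w _ => w 0) ?_
    (image_tf hX (fun _ w => w 0) (fun _ => hb0)) (graph_tf hX (fun _ w => w 0) (fun _ => hb0))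
    (d0_pos hM cM hh) ?_ ?_ (E := ∅) Set.finite_empty ?_
  · rintro _ ⟨w, hw, rfl⟩
    exact hw.1
  · exact dim_mono hh le_rfl (sx_dfn (dp_SC cM (TF.var 0) N c)) Dfn.univ (Set.subset_univ _)
  · intro y hy
    rw [hfib y hy]
    exact dim_mono hh le_rfl (sx_dfn (dp_SC cM (TF.var 0) N c')) Dfn.univ (Set.subset_univ _)
  · intro y hy _
    unfold tm
    rw [hfib y hy]
    rfl

/-- the pairs of square-free elements with difference in a class -/
def PX (e : M) (N : ℕ) (r : ℤ) : Set (Fin 2 → M) :=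
  {w | Cls e N r (w 1 - w 0) ∧ (IsP M 1 le_rfl (w 0) ∧ IsP M 1 le_rfl (w 1))}

theorem PX_sum (N : ℕ) [NeZero N] (r : ℤ) :
    tm h (d0 h + d0 h) (PX e N r) =
      ∑ y : ZMod N, al h e N (y.cast : ℤ) * al h e N ((y + (r : ZMod N)).cast : ℤ) := by
  classical
  have := infM hM cM
  have h1 := (tm_biUnion hh (k := 2) (by norm_num) (D := d0 h + d0 h) (dim_plane hM cM hh)
    Finset.univ (fun y : ZMod N => {w : Fin 2 → M | SC e N (y.cast : ℤ) (w 0) ∧
      SC e N ((y + (r : ZMod N)).cast : ℤ) (w 1)})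
    (fun y => ((dp_SC cM (TF.var 0) N _).and (dp_SC cM (TF.var 1) N _)).definable) ?_).2
  · have h2 : PX e N r = ⋃ y ∈ (Finset.univ : Finset (ZMod N)),
        {w : Fin 2 → M | SC e N (y.cast : ℤ) (w 0) ∧
          SC e N ((y + (r : ZMod N)).cast : ℤ) (w 1)} := by
      ext w
      simp only [Finset.mem_univ, Set.iUnion_true, Set.mem_iUnion]
      constructor
      · rintro ⟨h2, h3, h4⟩
        obtain ⟨c, -, hc⟩ := t1 hM cM N (Nat.pos_of_ne_zero (NeZero.ne N)) (w 0)
        refine ⟨((c : ℕ) : ZMod N), ⟨h3, ?_⟩, h4, ?_⟩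
        · refine cls_congr ?_ hc
          rw [← ZMod.intCast_zmod_eq_zero_iff_dvd, Int.cast_sub, Int.cast_natCast,
            ZMod.intCast_zmod_cast, sub_self]
        · have h5 := cls_add hc h2
          rw [add_sub_cancel] at h5
          refine cls_congr ?_ h5
          rw [← ZMod.intCast_zmod_eq_zero_iff_dvd, Int.cast_sub, Int.cast_add,
            Int.cast_natCast, ZMod.intCast_zmod_cast, sub_self]
      · rintro ⟨y, ⟨h2, h3⟩, h4, h5⟩
        refine ⟨?_, h2, h4⟩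
        have h6 := cls_sub h5 h3
        refine cls_congr ?_ h6
        rw [← ZMod.intCast_zmod_eq_zero_iff_dvd, Int.cast_sub, Int.cast_sub,
          ZMod.intCast_zmod_cast, ZMod.intCast_zmod_cast]
        ring
    rw [h2, h1]
    refine Finset.sum_congr rfl fun y _ => ?_
    rw [prod_tm hM cM hh, mul_comm]
  · intro x _ x' _ hxx'
    rw [Set.disjoint_left]
    rintro v ⟨⟨-, h2⟩, -⟩ ⟨⟨-, h3⟩, -⟩
    apply hxx'
    have h4 := cls_unique hM cM h2 h3
    rw [← ZMod.intCast_zmod_eq_zero_iff_dvd, Int.cast_sub, ZMod.intCast_zmod_cast,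
      ZMod.intCast_zmod_cast, sub_eq_zero] at h4
    exact h4

/-- the square-free elements which are square-free after adding `b` -/
def FS (b : M) : Set (Fin 1 → M) :=
  sx (fun x => IsP M 1 le_rfl x ∧ IsP M 1 le_rfl (x + b))

theorem dp_FS (b : M) : DP Lsqf (Set.univ : Set M) (fun v : Fin 1 → M =>
    IsP M 1 le_rfl (v 0) ∧ IsP M 1 le_rfl (v 0 + b)) :=
  (dp_isP (TF.var 0) 1 le_rfl).and
    (dp_isP (tf_add cM (TF.var 0) (TF.const (Set.mem_univ _))) 1 le_rfl)

/-- if almost all the sets `FS b`, `b` in a class, have the same measure -/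
theorem PX_const {N : ℕ} (hN : 0 < N) (r : ℤ) {E : Set M} (hE : E.Finite) {t : ℝ}
    (ht : ∀ b : M, Cls e N r b → b ∉ E → tm h (d0 h) (FS b) = t) :
    tm h (d0 h + d0 h) (PX e N r) = t * (m0 h / N) := by
  have := infM hM cM
  have hb0 : TF Lsqf (Set.univ : Set M) (fun v : Fin 2 → M => v 1 - v 0) :=
    tf_sub cM (TF.var _) (TF.var _)
  have hX : Dfn Lsqf M (PX e N r) :=
    ((dp_cls cM hb0 N r).and ((dp_isP (TF.var 0) 1 le_rfl).and
      (dp_isP (TF.var 1) 1 le_rfl))).definable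
  have hfib : ∀ y ∈ sx (Cls e N r), h 2 {x : Fin 2 → M | x ∈ PX e N r ∧
      (fun (w : Fin 2 → M) (_ : Fin 1) => w 1 - w 0) x = y} = h 1 (FS (y 0)) := by
    intro y hy
    unfold FS
    rw [← fib_sub hM cM hh (P := fun x => IsP M 1 le_rfl x ∧ IsP M 1 le_rfl (x + y 0))
      (dp_FS hM cM hh (y 0)) (y 0)]
    congr 1
    ext x
    constructor
    · rintro ⟨⟨h1, h2, h3⟩, h4⟩
      have h5 : x 1 - x 0 = y 0 := congrFun h4 0
      refine ⟨h5, h2, ?_⟩
      rw [← h5, add_sub_cancel]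
      exact h3
    · rintro ⟨h5, h2, h3⟩
      refine ⟨⟨?_, h2, ?_⟩, ?_⟩
      · rw [h5]; exact hy
      · rw [← h5, add_sub_cancel] at h3
        exact h3
      · funext i
        rw [Subsingleton.elim i 0]
        exact h5
  rw [← cls_tm hM cM hh hN r]
  refine fubini_const hh (n := 2) (k := 1) (by norm_num) le_rfl hX
    (sx_dfn (dp_cls cM (TF.var 0) N r)) (fun w _ => w 1 - w 0) ?_
    (image_tf hX (fun _ w => w 1 - w 0) (fun _ => hb0))
    (graph_tf hX (fun _ w => w 1 - w 0) (fun _ => hb0))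
    (d0_pos hM cM hh) ?_ ?_ (E := (fun (b : M) (_ : Fin 1) => b) '' E) (hE.image _) ?_
  · rintro _ ⟨w, hw, rfl⟩
    exact hw.1
  · exact dim_mono hh le_rfl (sx_dfn (dp_cls cM (TF.var 0) N r)) Dfn.univ (Set.subset_univ _)
  · intro y hy
    rw [hfib y hy]
    exact dim_mono hh le_rfl (sx_dfn (dp_FS hM cM hh (y 0))) Dfn.univ (Set.subset_univ _)
  · intro y hy hyE
    unfold tm
    rw [hfib y hy]
    refine ht (y 0) hy fun hy0 => hyE ⟨y 0, hy0, ?_⟩
    funext i
    rw [Subsingleton.elim i 0]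

end

end Pool.Agent.T2H95.Sqf
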