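import Pool.Agent.T2H95.Sqf.Main3

/-!
# The contradiction
-/

set_option autoImplicit false

open FirstOrder Set Pool.Agent.V11251

namespace Pool.Agent.T2H95.Sqf

universe u v w

variable {M : Type w} [Lsqf.Structure M] [AddCommGroup M] {e : M} {α : Type} {A : Set M}

variable {h : ∀ n : ℕ, Set (Fin n → M) → ℕ × ℝ} (hM : M ⊨ Lsqf.completeTheory ℤ)
  (cM : Compat M e) (hh : IsMSMeasure Lsqf M h)

include hM cM hh

theorem FS_values : ∃ V : Finset (ℕ × ℝ), (∀ b : M, h 1 (FS b) ∈ V) ∧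
    ∀ a : ℕ × ℝ, ∃ ψ : Lsqf.Formula (Fin 1), ∀ b : M, ψ.Realize ![b] ↔ h 1 (FS b) = a := by
  have h1 : DP Lsqf (∅ : Set M) (fun v : Fin 1 ⊕ Fin 1 → M =>
      IsP M 1 le_rfl (v (Sum.inl 0)) ∧ IsP M 1 le_rfl (v (Sum.inl 0) + v (Sum.inr 0))) :=
    (dp_isP (TF.var _) 1 le_rfl).and (dp_isP (tf_add cM (TF.var _) (TF.var _)) 1 le_rfl)
  obtain ⟨φ, hφ⟩ := Set.empty_definable_iff.1 h1.definable
  have h2 : ∀ b : Fin 1 → M, {x : Fin 1 → M | φ.Realize (Sum.elim x b)} = FS (b 0) := by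
    intro b
    ext x
    have h3 : Sum.elim x b ∈ {v : Fin 1 ⊕ Fin 1 → M | IsP M 1 le_rfl (v (Sum.inl 0)) ∧
        IsP M 1 le_rfl (v (Sum.inl 0) + v (Sum.inr 0))} ↔ φ.Realize (Sum.elim x b) := by
      rw [hφ]
      exact Iff.rfl
    exact h3.symm
  obtain ⟨h3, h4⟩ := hh.finite_values 1 1 le_rfl φ
  simp only [h2] at h3 h4
  refine ⟨h3.toFinset, fun b => ?_, fun a => ?_⟩
  · rw [Set.Finite.mem_toFinset]
    exact ⟨fun _ => b, rfl⟩
  · obtain ⟨ψ, hψ⟩ := Set.empty_definable_iff.1 (h4 a)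
    refine ⟨ψ, fun b => ?_⟩
    have h5 : (![b] : Fin 1 → M) ∈ {b : Fin 1 → M | h 1 (FS (b 0)) = a} ↔ ψ.Realize ![b] := by
      rw [hψ]
      exact Iff.rfl
    exact h5.symm

theorem iter (hψ : ∀ a : ℕ × ℝ, ∃ ψ : Lsqf.Formula (Fin 1), ∀ b : M,
    ψ.Realize ![b] ↔ h 1 (FS b) = a) (V : Finset (ℕ × ℝ)) (N₀ : ℕ) (hN₀ : 0 < N₀) :
    ∃ (N₁ : ℕ) (r₁ : ℤ) (E : Set M), 0 < N₁ ∧ N₀ ∣ N₁ ∧ (N₀ : ℤ) ∣ r₁ ∧ E.Finite ∧
      ∀ a ∈ V, ∃ t : Prop, ∀ b : M, Cls e N₁ r₁ b → b ∉ E → (h 1 (FS b) = a ↔ t) := by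
  classical
  induction V using Finset.induction_on with
  | empty => exact ⟨N₀, 0, ∅, hN₀, dvd_rfl, dvd_zero _, Set.finite_empty, by simp⟩
  | insert a V ha ih =>
    obtain ⟨N₁, r₁, E, h1, h2, h3, h4, h5⟩ := ih
    obtain ⟨ψ, hψa⟩ := hψ a
    obtain ⟨N', r', E', t, h6, h7, h8, h9⟩ := t5 hM cM ψ N₁ r₁ h1
    refine ⟨N', r', E ∪ (fun c : ℤ => c • e) '' (E' : Set ℤ), h6, h2.trans h7, ?_,
      h4.union (E'.finite_toSet.image _), ?_⟩
    · have h10 : (N₀ : ℤ) ∣ r' - r₁ := (Int.natCast_dvd_natCast.2 h2).trans h8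
      have := dvd_add h10 h3
      rwa [sub_add_cancel] at this
    · intro a' ha'
      rw [Finset.mem_insert] at ha'
      rcases ha' with rfl | ha'
      · refine ⟨t, fun b hb hbE => ?_⟩
        rw [← hψa]
        refine h9 b hb fun c hc hbc => hbE (Or.inr ⟨c, hc, hbc.symm⟩)
      · obtain ⟨t', ht'⟩ := h5 a' ha'
        refine ⟨t', fun b hb hbE => ht' b (cls_congr h8 (cls_refine h7 hb)) fun hbE' =>
          hbE (Or.inl hbE')⟩

theorem const_fib : ∃ V : Finset ℝ, ∀ N₀ : ℕ, 0 < N₀ → ∃ (N₁ : ℕ) (r₁ : ℤ) (E : Set M),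
    ∃ t ∈ V, 0 < N₁ ∧ N₀ ∣ N₁ ∧ (N₀ : ℤ) ∣ r₁ ∧ E.Finite ∧
      ∀ b : M, Cls e N₁ r₁ b → b ∉ E → tm h (d0 h) (FS b) = t := by
  classical
  obtain ⟨V, hV, hψ⟩ := FS_values hM cM hh
  refine ⟨V.image (fun a => if a.1 = d0 h then a.2 else 0), fun N₀ hN₀ => ?_⟩
  obtain ⟨N₁, r₁, E, h1, h2, h3, h4, h5⟩ := iter hM cM hh hψ V N₀ hN₀
  -- the class is infinite
  have hex : ∃ b : M, Cls e N₁ r₁ b ∧ b ∉ E := by
    by_contra hcon
    push Not at hcon
    have h6 : sx (Cls e N₁ r₁) ⊆ (fun (b : M) (_ : Fin 1) => b) '' E := by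
      intro x hx
      refine ⟨x 0, hcon _ hx, ?_⟩
      funext i
      rw [Subsingleton.elim i 0]
    have h7 := tm_finite hh le_rfl (d0_pos hM cM hh) ((h4.image _).subset h6)
    rw [cls_tm hM cM hh h1] at h7
    have h8 : (0 : ℝ) < N₁ := by exact_mod_cast h1
    have h9 := div_pos (m0_pos hM cM hh) h8
    linarith
  obtain ⟨b₀, hb₀, hb₀E⟩ := hex
  refine ⟨N₁, r₁, E, tm h (d0 h) (FS b₀), ?_, h1, h2, h3, h4, ?_⟩
  · rw [Finset.mem_image]
    exact ⟨h 1 (FS b₀), hV b₀, rfl⟩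
  · intro b hb hbE
    obtain ⟨t, ht⟩ := h5 (h 1 (FS b₀)) (hV b₀)
    have h6 := (ht b₀ hb₀ hb₀E).1 rfl
    have h7 := (ht b hb hbE).2 h6
    unfold tm
    rw [h7]

omit hM cM hh in
/-- the normalised second moment -/
noncomputable def GG (h : ∀ n : ℕ, Set (Fin n → M) → ℕ × ℝ) (e : M) (N : ℕ) [NeZero N] : ℝ :=
  N * ∑ y : ZMod N, (al h e N (y.cast : ℤ)) ^ 2

theorem GG_split {N N' : ℕ} [NeZero N] [NeZero N'] (hd : N ∣ N') :
    GG h e N' = GG h e N + N' * ∑ x : ZMod N', (al h e N' (x.cast : ℤ) -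
      al h e N (((ZMod.castHom hd (ZMod N)) x).cast : ℤ) / ((N' / N : ℕ) : ℝ)) ^ 2 := by
  have hN : 0 < N := Nat.pos_of_ne_zero (NeZero.ne N)
  have hN' : 0 < N' := Nat.pos_of_ne_zero (NeZero.ne N')
  have h1 := sum_sq_split (ZMod.castHom hd (ZMod N)) (N' / N)
    (fun x : ZMod N' => al h e N' (x.cast : ℤ)) (fun y : ZMod N => al h e N (y.cast : ℤ))
    (fun y => al_refine hM cM hh hd y) (fun y => card_fib N N' hN hN' hd y)
    (Nat.div_pos (Nat.le_of_dvd hN' hd) hN)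
  unfold GG
  rw [h1, mul_add]
  congr 1
  obtain ⟨k, rfl⟩ := hd
  have hk : 0 < k := Nat.pos_of_ne_zero (by rintro rfl; simp at hN')
  rw [Nat.mul_div_cancel_left k hN]
  have hk' : (k : ℝ) ≠ 0 := by exact_mod_cast hk.ne'
  push_cast
  field_simp

theorem GG_mono {N N' : ℕ} [NeZero N] [NeZero N'] (hd : N ∣ N') : GG h e N ≤ GG h e N' := by
  rw [GG_split hM cM hh hd]
  have : 0 ≤ (N' : ℝ) * ∑ x : ZMod N', (al h e N' (x.cast : ℤ) -
      al h e N (((ZMod.castHom hd (ZMod N)) x).cast : ℤ) / ((N' / N : ℕ) : ℝ)) ^ 2 :=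
    mul_nonneg (Nat.cast_nonneg _) (Finset.sum_nonneg fun x _ => sq_nonneg _)
  linarith

theorem GG_lt {N q : ℕ} [NeZero N] [NeZero (N * q ^ 2)] (hq : q.Prime) (hqN : ¬ q ∣ N) :
    GG h e N < GG h e (N * q ^ 2) := by
  have hN : 0 < N := Nat.pos_of_ne_zero (NeZero.ne N)
  have hd : N ∣ N * q ^ 2 := dvd_mul_right _ _
  rw [GG_split hM cM hh hd]
  have hpos : 0 < ((N * q ^ 2 : ℕ) : ℝ) := by
    have := hq.pos
    exact_mod_cast (by positivity : 0 < N * q ^ 2)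
  suffices hs : 0 < ∑ x : ZMod (N * q ^ 2), (al h e (N * q ^ 2) (x.cast : ℤ) -
      al h e N (((ZMod.castHom hd (ZMod N)) x).cast : ℤ) /
        ((N * q ^ 2 / N : ℕ) : ℝ)) ^ 2 by
    have := mul_pos hpos hs
    linarith
  -- a class of positive measure
  obtain ⟨y, hy⟩ : ∃ y : ZMod N, 0 < al h e N (y.cast : ℤ) := by
    by_contra hcon
    push Not at hcon
    have h1 := al_sum hM cM hh N
    have h2 := sg_pos hM cM hh
    have h3 : ∑ y : ZMod N, al h e N (y.cast : ℤ) ≤ 0 :=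
      Finset.sum_nonpos fun y _ => hcon y
    linarith
  have hcop : Nat.Coprime N (q ^ 2) :=
    Nat.Coprime.pow_right 2 ((Nat.Prime.coprime_iff_not_dvd hq).2 hqN).symm
  obtain ⟨x₀, hx₁, hx₂⟩ := Nat.chineseRemainder hcop y.val 0
  have hx0 : (ZMod.castHom hd (ZMod N)) ((x₀ : ℕ) : ZMod (N * q ^ 2)) = y := by
    rw [map_natCast, ← ZMod.natCast_zmod_val y]
    rw [ZMod.natCast_eq_natCast_iff]
    exact hx₁
  refine Finset.sum_pos' (fun _ _ => sq_nonneg _)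
    ⟨((x₀ : ℕ) : ZMod (N * q ^ 2)), Finset.mem_univ _, ?_⟩
  rw [hx0]
  have hz : al h e (N * q ^ 2) ((((x₀ : ℕ) : ZMod (N * q ^ 2))).cast : ℤ) = 0 := by
    have h1 : al h e (N * q ^ 2) ((((x₀ : ℕ) : ZMod (N * q ^ 2))).cast : ℤ) =
        al h e (N * q ^ 2) (x₀ : ℤ) := by
      apply al_congr
      rw [← ZMod.intCast_zmod_eq_zero_iff_dvd, Int.cast_sub, ZMod.intCast_zmod_cast,
        Int.cast_natCast, sub_self]
    rw [h1]
    refine al_zero hM cM hh hq (dvd_mul_left _ _) ?_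
    have h2 := (Nat.modEq_zero_iff_dvd.1 hx₂)
    exact_mod_cast h2
  rw [hz, zero_sub, neg_sq]
  have h3 : 0 < ((N * q ^ 2 / N : ℕ) : ℝ) := by
    rw [Nat.mul_div_cancel_left _ hN]
    have := hq.pos
    exact_mod_cast (by positivity : 0 < q ^ 2)
  have := div_pos hy h3
  positivity

theorem GG_le (N : ℕ) [NeZero N] : GG h e N ≤ m0 h * sg h := by
  have hN : 0 < N := Nat.pos_of_ne_zero (NeZero.ne N)
  have hN' : (0 : ℝ) < N := by exact_mod_cast hN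
  have h1 : ∑ y : ZMod N, (al h e N (y.cast : ℤ)) ^ 2 ≤
      ∑ y : ZMod N, (m0 h / N) * al h e N (y.cast : ℤ) := by
    refine Finset.sum_le_sum fun y _ => ?_
    rw [sq]
    exact mul_le_mul_of_nonneg_right (al_le hM cM hh hN _) (al_nonneg cM hh N _)
  rw [← Finset.mul_sum, al_sum hM cM hh N] at h1
  unfold GG
  calc (N : ℝ) * ∑ y : ZMod N, (al h e N (y.cast : ℤ)) ^ 2
      ≤ N * (m0 h / N * sg h) := mul_le_mul_of_nonneg_left h1 hN'.le
    _ = m0 h * sg h := by field_simp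

theorem GG_val : ∃ V : Finset ℝ, ∀ (N : ℕ) [NeZero N], ∃ (N₁ : ℕ) (_ : NeZero N₁), ∃ t ∈ V,
    2 * GG h e N - GG h e N₁ ≤ t * m0 h ∧ t * m0 h ≤ GG h e N₁ := by
  obtain ⟨V, hV⟩ := const_fib hM cM hh
  refine ⟨V, fun N _ => ?_⟩
  have hN : 0 < N := Nat.pos_of_ne_zero (NeZero.ne N)
  obtain ⟨N₁, r₁, E, t, htV, hN₁, hd, hr, hE, ht⟩ := hV N hN
  have : NeZero N₁ := ⟨hN₁.ne'⟩
  refine ⟨N₁, this, t, htV, ?_⟩
  have h1 := PX_const hM cM hh hN₁ r₁ hE ht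
  rw [PX_sum hM cM hh N₁ r₁] at h1
  have hN₁' : (0 : ℝ) < N₁ := by exact_mod_cast hN₁
  have h2 : t * m0 h = N₁ * ∑ y : ZMod N₁, al h e N₁ (y.cast : ℤ) *
      al h e N₁ ((y + (r₁ : ZMod N₁)).cast : ℤ) := by
    rw [h1]
    field_simp
  have hN₁0 : 0 < N₁ := hN₁
  have hcard : ∀ y : ZMod N, (Finset.univ.filter
      (fun x : ZMod N₁ => (ZMod.castHom hd (ZMod N)) x = y)).card = N₁ / N :=
    fun y => card_fib N N₁ hN hN₁0 hd y
  have hτ : ∀ x : ZMod N₁, (ZMod.castHom hd (ZMod N)) (Equiv.addRight (r₁ : ZMod N₁) x) =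
      (ZMod.castHom hd (ZMod N)) x := by
    intro x
    rw [Equiv.coe_addRight, map_add, map_intCast,
      (ZMod.intCast_zmod_eq_zero_iff_dvd r₁ N).2 hr, add_zero]
  have h3 := sum_shift_ge (ZMod.castHom hd (ZMod N)) (N₁ / N)
    (fun x : ZMod N₁ => al h e N₁ (x.cast : ℤ)) (fun y : ZMod N => al h e N (y.cast : ℤ))
    (fun y => al_refine hM cM hh hd y) hcard
    (Nat.div_pos (Nat.le_of_dvd hN₁0 hd) hN) (Equiv.addRight (r₁ : ZMod N₁)) hτ
  have h4 := sum_shift_le (fun x : ZMod N₁ => al h e N₁ (x.cast : ℤ))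
    (Equiv.addRight (r₁ : ZMod N₁))
  simp only [Equiv.coe_addRight] at h3 h4
  constructor
  · rw [h2]
    have h5 := mul_le_mul_of_nonneg_left h3 hN₁'.le
    refine le_trans (le_of_eq ?_) h5
    unfold GG
    obtain ⟨k, hk⟩ := hd
    have hk0 : 0 < k := Nat.pos_of_ne_zero (by rintro rfl; simp at hk; omega)
    have h6 : N₁ / N = k := by rw [hk, Nat.mul_div_cancel_left k hN]
    rw [h6]
    have hk' : (k : ℝ) ≠ 0 := by exact_mod_cast hk0.ne'
    have h7 : (N₁ : ℝ) = N * k := by rw [hk]; push_cast; ring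
    rw [mul_sub]
    congr 1
    rw [h7]
    field_simp
  · rw [h2]
    unfold GG
    exact mul_le_mul_of_nonneg_left h4 hN₁'.le

theorem absurd_measure : False := by
  obtain ⟨V, hV⟩ := GG_val hM cM hh
  let S : Set ℝ := {g | ∃ (N : ℕ) (_ : NeZero N), g = GG h e N}
  have hSb : BddAbove S := ⟨m0 h * sg h, by
    rintro _ ⟨N, i, rfl⟩
    exact GG_le hM cM hh N⟩
  have hS0 : S.Nonempty := ⟨_, 1, inferInstance, rfl⟩
  have hle : ∀ (N : ℕ) [NeZero N], GG h e N ≤ sSup S := fun N i => le_csSup hSb ⟨N, i, rfl⟩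
  have hlt : ∀ (N : ℕ) [NeZero N], GG h e N < sSup S := by
    intro N i
    obtain ⟨q, hq1, hq2⟩ := Nat.exists_infinite_primes (N + 1)
    have hN : 0 < N := Nat.pos_of_ne_zero (NeZero.ne N)
    have hqN : ¬ q ∣ N := fun hd => by
      have := Nat.le_of_dvd hN hd
      omega
    have : NeZero (N * q ^ 2) := ⟨by
      have := hq2.pos
      positivity⟩
    exact (GG_lt hM cM hh hq2 hqN).trans_le (hle _)
  have hgap : ∀ V : Finset ℝ, ∃ m < sSup S, ∀ t ∈ V, t * m0 h < sSup S → t * m0 h ≤ m := by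
    intro V
    classical
    induction V using Finset.induction_on with
    | empty => exact ⟨sSup S - 1, by linarith, by simp⟩
    | insert a V ha ih =>
      obtain ⟨m, hm, hmV⟩ := ih
      by_cases hc : a * m0 h < sSup S
      · refine ⟨max m (a * m0 h), max_lt hm hc, ?_⟩
        intro t ht htS
        rw [Finset.mem_insert] at ht
        rcases ht with rfl | ht
        · exact le_max_right _ _
        · exact (hmV t ht htS).trans (le_max_left _ _)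
      · refine ⟨m, hm, ?_⟩
        intro t ht htS
        rw [Finset.mem_insert] at ht
        rcases ht with rfl | ht
        · exact absurd htS hc
        · exact hmV t ht htS
  obtain ⟨m, hm, hmV⟩ := hgap V
  obtain ⟨_, ⟨N, i, rfl⟩, hN⟩ := exists_lt_of_lt_csSup hS0
    (show (m + sSup S) / 2 < sSup S by linarith)
  obtain ⟨N₁, i₁, t, htV, h1, h2⟩ := hV N
  have h3 := hlt N₁
  have h4 := hmV t htV (h2.trans_lt h3)
  linarith

omit [AddCommGroup M] cM hh in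
theorem not_msMeasurable : ¬ MSMeasurable Lsqf M := by
  rintro ⟨h, hh⟩
  obtain ⟨G, e, cM⟩ := exists_compat M hM
  exact absurd_measure hM cM hh

end Pool.Agent.T2H95.Sqf
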