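import Pool.Agent.T2H95.Sqf.Defs
import Pool.Agent.V11251.DP

/-!
# Consequences of MS-measurability: additivity, bijections, Fubini for the top dimensional part
-/

set_option autoImplicit false

open FirstOrder Set Pool.Agent.V11251

namespace Pool.Agent.T2H95.Sqf

universe u v w

variable {L : FirstOrder.Language.{u, v}} {M : Type w} [L.Structure M]

theorem Dfn.dp {n : ℕ} {X : Set (Fin n → M)} (hX : Dfn L M X) {α : Type} (f : Fin n → α) :
    DP L (Set.univ : Set M) (fun z : α → M => (fun i => z (f i)) ∈ X) :=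
  (DP.of_definable (P := fun v => v ∈ X) hX).subst (g := fun i v => v (f i))
    (fun i => TF.var (f i))

theorem DP.dfn {n : ℕ} {X : Set (Fin n → M)}
    (hX : DP L (Set.univ : Set M) (fun z : Fin n → M => z ∈ X)) : Dfn L M X :=
  hX.definable

theorem DP.forall_fin {α : Type} {A : Set M} : ∀ {n : ℕ} {P : Fin n → (α → M) → Prop},
    (∀ i, DP L A (P i)) → DP L A (fun v => ∀ i, P i v)
  | 0, P, _ => DP.true.congr fun v => by simp
  | n + 1, P, hP => by
    have h1 := DP.forall_fin (n := n) (P := fun i => P i.succ) (fun i => hP i.succ)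
    exact ((hP 0).and h1).congr fun v => by rw [Fin.forall_fin_succ]

theorem DP.exists_fin {α : Type} {A : Set M} {n : ℕ} {P : Fin n → (α → M) → Prop}
    (hP : ∀ i, DP L A (P i)) : DP L A (fun v => ∃ i, P i v) := by
  refine (DP.forall_fin (fun i => (hP i).not)).not.congr fun v => ?_
  push Not
  rfl

theorem Dfn.inter {n : ℕ} {X Y : Set (Fin n → M)} (hX : Dfn L M X) (hY : Dfn L M Y) :
    Dfn L M (X ∩ Y) := Set.Definable.inter hX hY

theorem Dfn.union {n : ℕ} {X Y : Set (Fin n → M)} (hX : Dfn L M X) (hY : Dfn L M Y) :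
    Dfn L M (X ∪ Y) := Set.Definable.union hX hY

theorem Dfn.diff {n : ℕ} {X Y : Set (Fin n → M)} (hX : Dfn L M X) (hY : Dfn L M Y) :
    Dfn L M (X \ Y) := Set.Definable.sdiff hX hY

theorem Dfn.empty {n : ℕ} : Dfn L M (∅ : Set (Fin n → M)) := Set.definable_empty

theorem Dfn.univ {n : ℕ} : Dfn L M (Set.univ : Set (Fin n → M)) := Set.definable_univ

theorem dfn_singleton {n : ℕ} (a : Fin n → M) : Dfn L M {a} := by
  have : DP L (Set.univ : Set M) (fun z : Fin n → M => ∀ i, z i = a i) :=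
    DP.forall_fin fun i => DP.eq (TF.var i) (TF.const (Set.mem_univ _))
  exact DP.dfn (this.congr fun z => by
    rw [Set.mem_singleton_iff]
    exact ⟨fun h => funext h, fun h i => congrFun h i⟩)

theorem dfn_finite {n : ℕ} {X : Set (Fin n → M)} (hX : X.Finite) : Dfn L M X := by
  induction X, hX using Set.Finite.induction_on with
  | empty => exact Dfn.empty
  | insert _ _ ih => exact Dfn.union (dfn_singleton _) ih

variable {h : ∀ n : ℕ, Set (Fin n → M) → ℕ × ℝ}

theorem h_empty (hh : IsMSMeasure L M h) {n : ℕ} (hn : 1 ≤ n) : h n ∅ = (0, 0) := by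
  rw [hh.finite_sets n hn ∅ Set.finite_empty]
  simp

theorem h_nonneg (hh : IsMSMeasure L M h) {n : ℕ} (hn : 1 ≤ n) {X : Set (Fin n → M)}
    (hX : Dfn L M X) : 0 ≤ (h n X).2 := by
  rcases hh.values n hn X hX with h1 | h1
  · exact h1.le
  · rw [h1]

/-- additivity for finite partitions into nonempty sets -/
theorem add_formula [Infinite M] (hh : IsMSMeasure L M h) {k r : ℕ} (hk : 1 ≤ k) (hr : 0 < r)
    {Y : Set (Fin k → M)} {Z : Fin r → Set (Fin k → M)}
    (hZ : ∀ i, (Z i).Nonempty ∧ Dfn L M (Z i)) (hd : Pairwise (Function.onFun Disjoint Z))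
    (hY : (⋃ i, Z i) = Y) :
    ∃ c : ℕ, (∀ i, (h k (Z i)).1 ≤ c) ∧ (∃ i, (h k (Z i)).1 = c) ∧
      h k Y = (c, ∑ i : Fin r, if (h k (Z i)).1 = c then (h k (Z i)).2 else 0) := by
  classical
  let t : Fin r → M := fun i => Infinite.natEmbedding M i
  have ht : Function.Injective t := fun i j hij =>
    Fin.ext ((Infinite.natEmbedding M).injective hij)
  let g : (Fin k → M) → (Fin 1 → M) := fun y =>
    if hy : ∃ i, y ∈ Z i then fun _ => t hy.choose else fun _ => t ⟨0, hr⟩
  have hg : ∀ i, ∀ y ∈ Z i, g y = fun _ => t i := by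
    intro i y hy
    have hex : ∃ i, y ∈ Z i := ⟨i, hy⟩
    have h1 : hex.choose = i := by
      by_contra hne
      exact Set.disjoint_left.1 (hd hne) hex.choose_spec hy
    simp only [g, dif_pos hex, h1]
  have hYd : Dfn L M Y := by
    rw [← hY]
    have : DP L (Set.univ : Set M) (fun z : Fin k → M => ∃ i, z ∈ Z i) :=
      DP.exists_fin fun i => Dfn.dp (hZ i).2 id
    exact DP.dfn (this.congr fun z => by rw [Set.mem_iUnion])
  have hYn : Y.Nonempty := by
    obtain ⟨y, hy⟩ := (hZ ⟨0, hr⟩).1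
    exact ⟨y, hY ▸ Set.mem_iUnion.2 ⟨_, hy⟩⟩
  have hmem : ∀ y, y ∈ Y ↔ ∃ i, y ∈ Z i := fun y => by rw [← hY, Set.mem_iUnion]
  let T : Set (Fin 1 → M) := Set.range fun i : Fin r => fun _ => t i
  have hT : T.Finite := Set.finite_range _
  have himg : g '' Y = T := by
    ext z
    constructor
    · rintro ⟨y, hy, rfl⟩
      obtain ⟨i, hi⟩ := (hmem y).1 hy
      exact ⟨i, (hg i y hi).symm⟩
    · rintro ⟨i, rfl⟩
      obtain ⟨y, hy⟩ := (hZ i).1
      exact ⟨y, (hmem y).2 ⟨i, hy⟩, hg i y hy⟩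
  have hgraph : (Set.univ : Set M).Definable L
      {z : Fin k ⊕ Fin 1 → M | z ∘ Sum.inl ∈ Y ∧ z ∘ Sum.inr = g (z ∘ Sum.inl)} := by
    have : DP L (Set.univ : Set M) (fun z : Fin k ⊕ Fin 1 → M =>
        ∃ i : Fin r, (fun j => z (Sum.inl j)) ∈ Z i ∧ z (Sum.inr 0) = t i) :=
      DP.exists_fin fun i => (Dfn.dp (hZ i).2 Sum.inl).and
        (DP.eq (TF.var _) (TF.const (Set.mem_univ _)))
    refine (this.congr fun z => ?_).definable
    constructor
    · rintro ⟨i, h1, h2⟩
      refine ⟨(hmem _).2 ⟨i, h1⟩, ?_⟩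
      rw [hg i (z ∘ Sum.inl) h1]
      funext j
      rw [Subsingleton.elim j 0]
      exact h2
    · rintro ⟨h1, h2⟩
      obtain ⟨i, hi⟩ := (hmem _).1 h1
      refine ⟨i, hi, ?_⟩
      rw [hg i _ hi] at h2
      exact congrFun h2 0
  obtain ⟨s, W, d, μ, c, hW, hWd, hWT, hfib, hle, hex, hval⟩ :=
    hh.fubini k 1 hk le_rfl Y T g hYn hYd (dfn_finite hT) himg hgraph
  have hWfin : ∀ j, (W j).Finite := fun j =>
    hT.subset (by rw [← hWT]; exact Set.subset_iUnion _ _)
  have hWh : ∀ j, h 1 (W j) = (0, ((W j).ncard : ℝ)) := fun j =>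
    hh.finite_sets 1 le_rfl _ (hWfin j)
  have hj : ∀ i : Fin r, ∃ j, (fun _ => t i) ∈ W j := by
    intro i
    have : (fun _ : Fin 1 => t i) ∈ T := ⟨i, rfl⟩
    rw [← hWT, Set.mem_iUnion] at this
    exact this
  choose j hj using hj
  have hfibZ : ∀ i, h k (Z i) = (d (j i), μ (j i)) := by
    intro i
    rw [← hfib (j i) _ (hj i)]
    congr 1
    ext y
    constructor
    · intro hy
      exact ⟨(hmem y).2 ⟨i, hy⟩, hg i y hy⟩
    · rintro ⟨h1, h2⟩
      obtain ⟨i', hi'⟩ := (hmem y).1 h1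
      rw [hg i' y hi'] at h2
      have : t i' = t i := congrFun h2 0
      rw [← ht this]
      exact hi'
  have huniq : ∀ i j', (fun _ : Fin 1 => t i) ∈ W j' → j i = j' := by
    intro i j' hj'
    by_contra hne
    exact Set.disjoint_left.1 (hWd hne) (hj i) hj'
  have hcard : ∀ j', (W j').ncard = (Finset.univ.filter (fun i => j i = j')).card := by
    intro j'
    have : W j' = ((Finset.univ.filter (fun i => j i = j')).image
        (fun i : Fin r => (fun _ : Fin 1 => t i)) : Set (Fin 1 → M)) := by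
      ext z
      simp only [Finset.coe_image, Finset.coe_filter, Finset.mem_univ, true_and,
        Set.mem_image, Set.mem_setOf_eq]
      constructor
      · intro hz
        have hzT : z ∈ T := by rw [← hWT]; exact Set.mem_iUnion.2 ⟨_, hz⟩
        obtain ⟨i, rfl⟩ := hzT
        exact ⟨i, huniq i j' hz, rfl⟩
      · rintro ⟨i, rfl, rfl⟩
        exact hj i
    rw [this, Set.ncard_coe_finset, Finset.card_image_of_injective]
    intro a b hab
    exact ht (congrFun hab 0)
  refine ⟨c, ?_, ?_, ?_⟩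
  · intro i
    have := hle (j i)
    rw [hWh] at this
    rw [hfibZ]
    simpa using this
  · obtain ⟨j', hj'⟩ := hex
    rw [hWh] at hj'
    obtain ⟨z, hz⟩ := (hW j').1
    have hzT : z ∈ T := by rw [← hWT]; exact Set.mem_iUnion.2 ⟨_, hz⟩
    obtain ⟨i, rfl⟩ := hzT
    refine ⟨i, ?_⟩
    rw [hfibZ, huniq i j' hz]
    simpa using hj'
  · rw [hval]
    congr 1
    have e1 : ∀ j', (if d j' + (h 1 (W j')).1 = c then μ j' * (h 1 (W j')).2 else 0) =
        ∑ i ∈ Finset.univ.filter (fun i => j i = j'),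
          (if (h k (Z i)).1 = c then (h k (Z i)).2 else 0) := by
      intro j'
      have e2 : ∀ i ∈ Finset.univ.filter (fun i => j i = j'),
          (if (h k (Z i)).1 = c then (h k (Z i)).2 else 0) = if d j' = c then μ j' else 0 := by
        intro i hi
        rw [Finset.mem_filter] at hi
        rw [hfibZ, hi.2]
      rw [Finset.sum_congr rfl e2, Finset.sum_const, hWh, hcard]
      simp only [add_zero, nsmul_eq_mul, mul_ite, mul_zero]
      split_ifs
      · ring
      · rfl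
    simp_rw [e1]
    exact Finset.sum_fiberwise _ _ _

/-- two disjoint sets -/
theorem add_two [Infinite M] (hh : IsMSMeasure L M h) {k : ℕ} (hk : 1 ≤ k)
    {A B : Set (Fin k → M)} (hA : Dfn L M A) (hB : Dfn L M B) (hAB : Disjoint A B)
    (hAn : A.Nonempty) (hBn : B.Nonempty) :
    (h k A).1 ≤ (h k (A ∪ B)).1 ∧ (h k B).1 ≤ (h k (A ∪ B)).1 ∧
    (h k (A ∪ B)).2 = (if (h k A).1 = (h k (A ∪ B)).1 then (h k A).2 else 0) +
      (if (h k B).1 = (h k (A ∪ B)).1 then (h k B).2 else 0) := by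
  obtain ⟨c, h1, h2, h3⟩ := add_formula hh hk (r := 2) (by norm_num) (Z := ![A, B])
    (Y := A ∪ B)
    (by intro i; fin_cases i; exacts [⟨hAn, hA⟩, ⟨hBn, hB⟩])
    (by
      intro i j hij
      fin_cases i <;> fin_cases j
      · exact absurd rfl hij
      · exact hAB
      · exact hAB.symm
      · exact absurd rfl hij)
    (by ext z; simp [Fin.exists_fin_two])
  have e : (h k (A ∪ B)).1 = c := by rw [h3]
  have e' : (h k (A ∪ B)).2 = ∑ i : Fin 2, if (h k (![A, B] i)).1 = c then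
    (h k (![A, B] i)).2 else 0 := by rw [h3]
  refine ⟨?_, ?_, ?_⟩
  · rw [e]; exact h1 0
  · rw [e]; exact h1 1
  · rw [e', e, Fin.sum_univ_two]
    rfl

/-- the part of the measure in dimension `D` -/
noncomputable def tm (h : ∀ n : ℕ, Set (Fin n → M) → ℕ × ℝ) {n : ℕ} (D : ℕ)
    (X : Set (Fin n → M)) : ℝ := if (h n X).1 = D then (h n X).2 else 0

theorem tm_empty (hh : IsMSMeasure L M h) {n : ℕ} (hn : 1 ≤ n) (D : ℕ) :
    tm h D (∅ : Set (Fin n → M)) = 0 := by
  unfold tm
  rw [h_empty hh hn]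
  simp

theorem tm_nonneg (hh : IsMSMeasure L M h) {n : ℕ} (hn : 1 ≤ n) (D : ℕ) {X : Set (Fin n → M)}
    (hX : Dfn L M X) : 0 ≤ tm h D X := by
  unfold tm
  split_ifs
  · exact h_nonneg hh hn hX
  · exact le_rfl

theorem dim_union [Infinite M] (hh : IsMSMeasure L M h) {k : ℕ} (hk : 1 ≤ k)
    {A B : Set (Fin k → M)} (hA : Dfn L M A) (hB : Dfn L M B) (hAB : Disjoint A B) :
    (h k A).1 ≤ (h k (A ∪ B)).1 ∧ (h k B).1 ≤ (h k (A ∪ B)).1 := by
  rcases A.eq_empty_or_nonempty with rfl | hAn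
  · rw [Set.empty_union, h_empty hh hk]
    exact ⟨Nat.zero_le _, le_rfl⟩
  rcases B.eq_empty_or_nonempty with rfl | hBn
  · rw [Set.union_empty, h_empty hh hk]
    exact ⟨le_rfl, Nat.zero_le _⟩
  have := add_two hh hk hA hB hAB hAn hBn
  exact ⟨this.1, this.2.1⟩

theorem dim_mono [Infinite M] (hh : IsMSMeasure L M h) {k : ℕ} (hk : 1 ≤ k)
    {A X : Set (Fin k → M)} (hA : Dfn L M A) (hX : Dfn L M X) (hAX : A ⊆ X) :
    (h k A).1 ≤ (h k X).1 := by
  have := (dim_union hh hk hA (hX.diff hA) Set.disjoint_sdiff_right).1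
  rwa [Set.union_diff_cancel hAX] at this

theorem tm_union [Infinite M] (hh : IsMSMeasure L M h) {k : ℕ} (hk : 1 ≤ k) {D : ℕ}
    {A B : Set (Fin k → M)} (hA : Dfn L M A) (hB : Dfn L M B) (hAB : Disjoint A B)
    (hD : (h k (A ∪ B)).1 ≤ D) : tm h D (A ∪ B) = tm h D A + tm h D B := by
  rcases A.eq_empty_or_nonempty with rfl | hAn
  · rw [Set.empty_union, tm_empty hh hk, zero_add]
  rcases B.eq_empty_or_nonempty with rfl | hBn
  · rw [Set.union_empty, tm_empty hh hk, add_zero]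
  obtain ⟨h1, h2, h3⟩ := add_two hh hk hA hB hAB hAn hBn
  unfold tm
  by_cases hc : (h k (A ∪ B)).1 = D
  · rw [if_pos hc, h3, hc]
  · rw [if_neg hc, if_neg (by omega), if_neg (by omega), add_zero]

theorem tm_finite (hh : IsMSMeasure L M h) {k : ℕ} (hk : 1 ≤ k) {D : ℕ} (hD : 1 ≤ D)
    {A : Set (Fin k → M)} (hA : A.Finite) : tm h D A = 0 := by
  unfold tm
  rw [hh.finite_sets k hk A hA, if_neg (by simp; omega)]

/-- definable bijections preserve `h` -/
theorem h_bij [Infinite M] (hh : IsMSMeasure L M h) {n k : ℕ} (hn : 1 ≤ n) (hk : 1 ≤ k)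
    {X : Set (Fin n → M)} {Y : Set (Fin k → M)} (hX : Dfn L M X) (hY : Dfn L M Y)
    (f : (Fin n → M) → (Fin k → M)) (hf : f '' X = Y) (hinj : Set.InjOn f X)
    (hgraph : (Set.univ : Set M).Definable L
      {z : Fin n ⊕ Fin k → M | z ∘ Sum.inl ∈ X ∧ z ∘ Sum.inr = f (z ∘ Sum.inl)}) :
    h n X = h k Y := by
  rcases X.eq_empty_or_nonempty with rfl | hXn
  · rw [Set.image_empty] at hf
    rw [← hf, h_empty hh hn, h_empty hh hk]
  obtain ⟨r, Z, d, μ, c, hZ, hZd, hZY, hfib, hle, hex, hval⟩ :=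
    hh.fubini n k hn hk X Y f hXn hX hY hf hgraph
  have hr : 0 < r := by
    obtain ⟨i, -⟩ := hex
    exact lt_of_le_of_lt (Nat.zero_le _) i.2
  have hdm : ∀ i, d i = 0 ∧ μ i = 1 := by
    intro i
    obtain ⟨y, hy⟩ := (hZ i).1
    have hyY : y ∈ Y := by rw [← hZY]; exact Set.mem_iUnion.2 ⟨i, hy⟩
    rw [← hf] at hyY
    obtain ⟨x, hx, hxy⟩ := hyY
    have h1 := hfib i y hy
    have h2 : {x' | x' ∈ X ∧ f x' = y} = {x} := by
      ext x'
      simp only [Set.mem_setOf_eq, Set.mem_singleton_iff]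
      constructor
      · rintro ⟨h3, h4⟩
        exact hinj h3 hx (h4.trans hxy.symm)
      · rintro rfl
        exact ⟨hx, hxy⟩
    rw [h2, hh.finite_sets n hn _ (Set.finite_singleton x), Set.ncard_singleton] at h1
    have h5 := congrArg Prod.fst h1
    have h6 := congrArg Prod.snd h1
    simp only [Nat.cast_one] at h5 h6
    exact ⟨h5.symm, h6.symm⟩
  obtain ⟨c', h1, h2, h3⟩ := add_formula hh hk hr hZ hZd hZY
  have hcc : c = c' := by
    apply le_antisymm
    · obtain ⟨i, hi⟩ := hex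
      rw [(hdm i).1, zero_add] at hi
      rw [← hi]
      exact h1 i
    · obtain ⟨i, hi⟩ := h2
      rw [← hi]
      have := hle i
      rwa [(hdm i).1, zero_add] at this
  rw [hval, h3, hcc]
  congr 1
  refine Finset.sum_congr rfl fun i _ => ?_
  rw [(hdm i).1, (hdm i).2, zero_add, one_mul]

/-- Fubini for the top dimensional part, when the fibres over a definable set `C` have constant
measure outside a finite set -/
theorem fubini_const [Infinite M] (hh : IsMSMeasure L M h) {n k : ℕ} (hn : 1 ≤ n) (hk : 1 ≤ k)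
    {X : Set (Fin n → M)} {C : Set (Fin k → M)} (hX : Dfn L M X) (hC : Dfn L M C)
    (f : (Fin n → M) → (Fin k → M)) (hf : f '' X ⊆ C) (hfd : Dfn L M (f '' X))
    (hgraph : (Set.univ : Set M).Definable L
      {z : Fin n ⊕ Fin k → M | z ∘ Sum.inl ∈ X ∧ z ∘ Sum.inr = f (z ∘ Sum.inl)})
    {a b : ℕ} (hb : 1 ≤ b) (hdimC : (h k C).1 ≤ b)
    (hdimf : ∀ y ∈ C, (h n {x | x ∈ X ∧ f x = y}).1 ≤ a)
    {E : Set (Fin k → M)} (hE : E.Finite) {v : ℝ}
    (hv : ∀ y ∈ C, y ∉ E → tm h a {x | x ∈ X ∧ f x = y} = v) :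
    tm h (a + b) X = v * tm h b C := by
  -- the part of `C` outside the image does not matter
  have hCdiff : v * tm h b (C \ (f '' X)) = 0 := by
    by_cases hv0 : v = 0
    · rw [hv0, zero_mul]
    · have : C \ (f '' X) ⊆ E := by
        rintro y ⟨hyC, hyX⟩
        by_contra hyE
        have h1 := hv y hyC hyE
        have h2 : {x | x ∈ X ∧ f x = y} = ∅ := by
          ext x
          simp only [Set.mem_setOf_eq, Set.mem_empty_iff_false, iff_false]
          rintro ⟨h3, h4⟩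
          exact hyX ⟨x, h3, h4⟩
        rw [h2, tm_empty hh hn] at h1
        exact hv0 h1.symm
      rw [tm_finite hh hk hb (hE.subset this), mul_zero]
  have hCsplit : tm h b C = tm h b (f '' X) + tm h b (C \ (f '' X)) := by
    have := tm_union hh hk (D := b) hfd (hC.diff hfd) Set.disjoint_sdiff_right
      (by rw [Set.union_diff_cancel hf]; exact hdimC)
    rwa [Set.union_diff_cancel hf] at this
  rw [hCsplit, mul_add, hCdiff, add_zero]
  rcases X.eq_empty_or_nonempty with rfl | hXn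
  · rw [Set.image_empty, tm_empty hh hn, tm_empty hh hk, mul_zero]
  obtain ⟨r, Z, d, μ, c, hZ, hZd, hZY, hfib, hle, hex, hval⟩ :=
    hh.fubini n k hn hk X (f '' X) f hXn hX hfd rfl hgraph
  have hr : 0 < r := by
    obtain ⟨i, -⟩ := hex
    exact lt_of_le_of_lt (Nat.zero_le _) i.2
  have hZC : ∀ i, Z i ⊆ C := fun i =>
    (Set.subset_iUnion Z i).trans (by rw [hZY]; exact hf)
  have hd : ∀ i, d i ≤ a := by
    intro i
    obtain ⟨y, hy⟩ := (hZ i).1
    have := hdimf y (hZC i hy)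
    rwa [hfib i y hy] at this
  have he : ∀ i, (h k (Z i)).1 ≤ b := fun i =>
    (dim_mono hh hk (hZ i).2 hC (hZC i)).trans hdimC
  have hfibv : ∀ i, ¬ (Z i ⊆ E) → (if d i = a then μ i else 0) = v := by
    intro i hi
    rw [Set.not_subset] at hi
    obtain ⟨y, hy, hyE⟩ := hi
    have h1 := hv y (hZC i hy) hyE
    unfold tm at h1
    rw [hfib i y hy] at h1
    exact h1
  -- the value of the image
  obtain ⟨c', h1, h2, h3⟩ := add_formula hh hk hr hZ hZd hZY
  have hc' : c' ≤ b := by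
    obtain ⟨i, hi⟩ := h2
    rw [← hi]
    exact he i
  have htmY : tm h b (f '' X) = ∑ i, tm h b (Z i) := by
    unfold tm
    rw [h3]
    simp only
    split_ifs with hcb
    · rw [hcb]
    · symm
      apply Finset.sum_eq_zero
      intro i _
      rw [if_neg]
      have := h1 i
      omega
  have hc : c ≤ a + b := by
    obtain ⟨i, hi⟩ := hex
    rw [← hi]
    exact Nat.add_le_add (hd i) (he i)
  have htmX : tm h (a + b) X = ∑ i, (if d i = a then μ i else 0) * tm h b (Z i) := by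
    unfold tm
    rw [hval]
    simp only
    split_ifs with hcb
    · refine Finset.sum_congr rfl fun i _ => ?_
      have h4 := hd i
      have h5 := he i
      by_cases h6 : d i = a
      · by_cases h7 : (h k (Z i)).1 = b
        · rw [if_pos (by omega), if_pos h6, if_pos h7]
        · rw [if_neg (by omega), if_neg h7, mul_zero]
      · rw [if_neg (by omega), if_neg h6, zero_mul]
    · symm
      apply Finset.sum_eq_zero
      intro i _
      have h4 := hd i
      have h5 := he i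
      have h8 := hle i
      by_cases h6 : d i = a
      · rw [if_neg (show ¬ (h k (Z i)).1 = b by omega), mul_zero]
      · rw [if_neg h6, zero_mul]
  rw [htmX, htmY, Finset.mul_sum]
  refine Finset.sum_congr rfl fun i _ => ?_
  by_cases hi : Z i ⊆ E
  · rw [tm_finite hh hk hb (hE.subset hi), mul_zero, mul_zero]
  · rw [hfibv i hi]

/-- lower bound for the dimension of a fibration -/
theorem dim_lower [Infinite M] (hh : IsMSMeasure L M h) {n k : ℕ} (hn : 1 ≤ n) (hk : 1 ≤ k)
    {X : Set (Fin n → M)} (hX : Dfn L M X) (hXn : X.Nonempty)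
    (f : (Fin n → M) → (Fin k → M)) (hfd : Dfn L M (f '' X))
    (hgraph : (Set.univ : Set M).Definable L
      {z : Fin n ⊕ Fin k → M | z ∘ Sum.inl ∈ X ∧ z ∘ Sum.inr = f (z ∘ Sum.inl)})
    {a : ℕ} (hdimf : ∀ y ∈ f '' X, a ≤ (h n {x | x ∈ X ∧ f x = y}).1) :
    a + (h k (f '' X)).1 ≤ (h n X).1 := by
  obtain ⟨r, Z, d, μ, c, hZ, hZd, hZY, hfib, hle, hex, hval⟩ :=
    hh.fubini n k hn hk X (f '' X) f hXn hX hfd rfl hgraph
  have hr : 0 < r := by
    obtain ⟨i, -⟩ := hex
    exact lt_of_le_of_lt (Nat.zero_le _) i.2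
  obtain ⟨c', h1, ⟨i, hi⟩, h3⟩ := add_formula hh hk hr hZ hZd hZY
  rw [h3, hval]
  show a + c' ≤ c
  rw [← hi]
  refine le_trans ?_ (hle i)
  obtain ⟨y, hy⟩ := (hZ i).1
  have hyY : y ∈ f '' X := by rw [← hZY]; exact Set.mem_iUnion.2 ⟨i, hy⟩
  have := hdimf y hyY
  rw [hfib i y hy] at this
  exact Nat.add_le_add_right this _

/-- upper bound for the dimension of a fibration -/
theorem dim_upper [Infinite M] (hh : IsMSMeasure L M h) {n k : ℕ} (hn : 1 ≤ n) (hk : 1 ≤ k)
    {X : Set (Fin n → M)} (hX : Dfn L M X) (hXn : X.Nonempty)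
    (f : (Fin n → M) → (Fin k → M)) (hfd : Dfn L M (f '' X))
    (hgraph : (Set.univ : Set M).Definable L
      {z : Fin n ⊕ Fin k → M | z ∘ Sum.inl ∈ X ∧ z ∘ Sum.inr = f (z ∘ Sum.inl)})
    {a : ℕ} (hdimf : ∀ y ∈ f '' X, (h n {x | x ∈ X ∧ f x = y}).1 ≤ a) :
    (h n X).1 ≤ a + (h k (f '' X)).1 := by
  obtain ⟨r, Z, d, μ, c, hZ, hZd, hZY, hfib, hle, ⟨i, hi⟩, hval⟩ :=
    hh.fubini n k hn hk X (f '' X) f hXn hX hfd rfl hgraph
  rw [hval]
  show c ≤ _
  rw [← hi]
  obtain ⟨y, hy⟩ := (hZ i).1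
  have hyY : y ∈ f '' X := by rw [← hZY]; exact Set.mem_iUnion.2 ⟨i, hy⟩
  have := hdimf y hyY
  rw [hfib i y hy] at this
  refine Nat.add_le_add this (dim_mono hh hk (hZ i).2 hfd ?_)
  rw [← hZY]
  exact Set.subset_iUnion _ _

end Pool.Agent.T2H95.Sqf
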