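import Mathlib

/-!
# A sieve for square-free values of shifts in arithmetic progressions
-/

set_option autoImplicit false

namespace Pool.Agent.T2H95.Sqf

open Finset

/-- Chinese remainder theorem for one more modulus -/
theorem crt_step (N q : ℕ) (_hN : 0 < N) (_hq : 0 < q) (h : Nat.Coprime N q) (r t : ℤ) :
    ∃ r' : ℤ, (N : ℤ) ∣ r' - r ∧ (q : ℤ) ∣ r' - t := by
  have hc : IsCoprime (N : ℤ) (q : ℤ) := Nat.isCoprime_iff_coprime.2 h
  obtain ⟨u, w, huw⟩ := hc
  refine ⟨r + (t - r) * (u * N), ?_, ?_⟩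
  · exact ⟨(t - r) * u, by ring⟩
  · refine ⟨(r - t) * w, ?_⟩
    have : (u * N : ℤ) = 1 - w * q := by linarith
    rw [this]; ring

/-- number of solutions of a congruence in an interval -/
theorem card_cong (M q : ℕ) (hq : 0 < q) (h : Nat.Coprime M q) (u : ℤ) (S : ℕ) :
    ((range S).filter (fun s : ℕ => (q : ℤ) ∣ u + M * s)).card ≤ S / q + 1 := by
  classical
  have hinj : Set.InjOn (fun s : ℕ => s / q)
      ((range S).filter (fun s : ℕ => (q : ℤ) ∣ u + M * s) : Set ℕ) := by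
    intro s hs s' hs' hss
    simp only [coe_filter, mem_range, Set.mem_setOf_eq] at hs hs'
    have h1 : (q : ℤ) ∣ M * ((s : ℤ) - s') := by
      have := dvd_sub hs.2 hs'.2
      have e : u + (M : ℤ) * s - (u + M * s') = M * ((s : ℤ) - s') := by ring
      rwa [e] at this
    have h2 : (q : ℤ) ∣ (s : ℤ) - s' :=
      (Nat.isCoprime_iff_coprime.2 h).symm.dvd_of_dvd_mul_left h1
    have h3 : s % q = s' % q := by
      have h4 : (s : ℤ) % q = (s' : ℤ) % q :=
        Int.emod_eq_emod_iff_emod_sub_eq_zero.2 (Int.emod_eq_zero_of_dvd h2)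
      exact_mod_cast h4
    have hss' : s / q = s' / q := hss
    rw [← Nat.div_add_mod s q, ← Nat.div_add_mod s' q, hss', h3]
  have hmaps : ∀ s ∈ (range S).filter (fun s : ℕ => (q : ℤ) ∣ u + M * s),
      s / q ∈ range (S / q + 1) := by
    intro s hs
    rw [mem_filter, mem_range] at hs
    rw [mem_range]
    exact Nat.lt_succ_of_le (Nat.div_le_div_right hs.1.le)
  have := card_le_card_of_injOn _ hmaps hinj
  rwa [card_range] at this

theorem sum_inv_sq (z D : ℕ) (hz : 1 ≤ z) :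
    ∑ d ∈ Ioc z D, (1 : ℝ) / ((d : ℝ) ^ 2) ≤ 1 / z := by
  have key : ∀ D : ℕ, z ≤ D → ∑ d ∈ Ioc z D, (1 : ℝ) / ((d : ℝ) ^ 2) ≤ 1 / z - 1 / D := by
    intro D hD
    induction D, hD using Nat.le_induction with
    | base => simp
    | succ D hD ih =>
      rw [← Finset.insert_Ioc_right_eq_Ioc_add_one (by omega), Finset.sum_insert (by simp)]
      have hD0 : (0 : ℝ) < D := by exact_mod_cast (show 0 < D by omega)
      have : (1 : ℝ) / (((D + 1 : ℕ) : ℝ) ^ 2) ≤ 1 / D - 1 / ((D + 1 : ℕ) : ℝ) := by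
        push_cast
        rw [div_sub_div _ _ hD0.ne' (by positivity), div_le_div_iff₀ (by positivity) (by positivity)]
        nlinarith
      linarith
  rcases le_or_gt z D with h | h
  · have h1 := key D h
    have h2 : (0 : ℝ) ≤ 1 / D := by positivity
    linarith
  · rw [Ioc_eq_empty (by omega)]
    simp

/-- large primes: if all primes up to `z` divide `M`, where `z` is large, then some `y` in the
progression has all `y + a` free of squares of primes not dividing `M`, and avoids `E`. -/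
theorem sieve_large (M : ℕ) (hM : 0 < M) (ρ : ℤ) (I E : Finset ℤ)
    (hz : ∀ p : ℕ, p.Prime → p ≤ 2 * I.card + 2 → p ∣ M) :
    ∃ y : ℤ, (M : ℤ) ∣ y - ρ ∧ y ∉ E ∧
      ∀ a ∈ I, ∀ p : ℕ, p.Prime → ¬ p ∣ M → ¬ ((p : ℤ) ^ 2 ∣ y + a) := by
  classical
  set k := I.card with hk
  set z := 2 * k + 2 with hzdef
  -- a bound for the shifts
  obtain ⟨A, hA⟩ : ∃ A : ℕ, ∀ a ∈ I, |a| ≤ A := by
    refine ⟨I.sup fun a => a.natAbs, fun a ha => ?_⟩
    have h1 : a.natAbs ≤ I.sup fun a => a.natAbs := Finset.le_sup (f := fun a : ℤ => a.natAbs) ha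
    rw [Int.abs_eq_natAbs]
    exact_mod_cast h1
  set C : ℕ := M + ρ.natAbs + A + 1 with hC
  have hC1 : 1 ≤ C := by omega
  set T : ℕ := 8 * (k * (C + 2) + E.card + 1) with hT
  have hT1 : 1 ≤ T := by omega
  set S : ℕ := C * T ^ 2 with hS
  have hS1 : 1 ≤ S := Nat.mul_pos (by omega) (pow_pos (by omega) _)
  set D : ℕ := C * T with hD
  -- the bad sets
  let B0 : Finset ℕ := (range S).filter fun s => (ρ + M * s : ℤ) ∈ E
  let B1 : ℤ → Finset ℕ := fun a => (range S).filter fun s => (ρ + M * s : ℤ) + a = 0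
  let B2 : ℤ → ℕ → Finset ℕ := fun a d =>
    if Nat.Coprime M (d ^ 2) then (range S).filter fun s : ℕ => ((d ^ 2 : ℕ) : ℤ) ∣ (ρ + a) + M * s
    else ∅
  let Bad : Finset ℕ := B0 ∪ (I.biUnion B1 ∪ I.biUnion fun a => (Ioc z D).biUnion (B2 a))
  have hMZ : (M : ℤ) ≠ 0 := by exact_mod_cast hM.ne'
  have hB0 : B0.card ≤ E.card := by
    apply card_le_card_of_injOn (fun s : ℕ => (ρ + M * s : ℤ))
    · intro s hs
      exact (mem_filter.1 hs).2
    · intro s _ s' _ hss
      have h1 : (M : ℤ) * s = M * s' := by simpa using hss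
      exact_mod_cast mul_left_cancel₀ hMZ h1
  have hB1 : ∀ a, (B1 a).card ≤ 1 := by
    intro a
    rw [card_le_one]
    intro s hs s' hs'
    have h1 := (mem_filter.1 hs).2
    have h2 := (mem_filter.1 hs').2
    have h3 : (M : ℤ) * s = M * s' := by linarith
    exact_mod_cast mul_left_cancel₀ hMZ h3
  have hB2 : ∀ a, ∀ d ∈ Ioc z D, ((B2 a d).card : ℝ) ≤ S * (1 / (d : ℝ) ^ 2) + 1 := by
    intro a d hd
    rw [mem_Ioc] at hd
    have hd0 : 0 < d := by omega
    simp only [B2]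
    split_ifs with hcop
    · have h1 := card_cong M (d ^ 2) (pow_pos hd0 2) hcop (ρ + a) S
      have h2 : (((range S).filter (fun s : ℕ => ((d ^ 2 : ℕ) : ℤ) ∣ (ρ + a) + M * s)).card : ℝ) ≤
          ((S / d ^ 2 + 1 : ℕ) : ℝ) := by exact_mod_cast h1
      refine h2.trans ?_
      push_cast
      have h3 : ((S / d ^ 2 : ℕ) : ℝ) ≤ (S : ℝ) / ((d ^ 2 : ℕ) : ℝ) := Nat.cast_div_le
      push_cast at h3
      rw [mul_one_div]
      linarith
    · simp only [card_empty, Nat.cast_zero]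
      positivity
  have hz1 : 1 ≤ z := by omega
  have hBad : (Bad.card : ℝ) < S := by
    have h1 : (Bad.card : ℝ) ≤ E.card + (k + ∑ a ∈ I, ∑ d ∈ Ioc z D, ((B2 a d).card : ℝ)) := by
      have e1 : Bad.card ≤ B0.card + ((I.biUnion B1).card +
          (I.biUnion fun a => (Ioc z D).biUnion (B2 a)).card) :=
        (card_union_le _ _).trans (Nat.add_le_add_left (card_union_le _ _) _)
      have e2 : (I.biUnion B1).card ≤ k := by
        refine (card_biUnion_le).trans ?_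
        refine (Finset.sum_le_sum fun a _ => hB1 a).trans ?_
        simp [hk]
      have e3 : (I.biUnion fun a => (Ioc z D).biUnion (B2 a)).card ≤
          ∑ a ∈ I, ∑ d ∈ Ioc z D, (B2 a d).card :=
        (card_biUnion_le).trans (Finset.sum_le_sum fun a _ => card_biUnion_le)
      have e4 : Bad.card ≤ E.card + (k + ∑ a ∈ I, ∑ d ∈ Ioc z D, (B2 a d).card) := by omega
      calc (Bad.card : ℝ) ≤ ((E.card + (k + ∑ a ∈ I, ∑ d ∈ Ioc z D, (B2 a d).card) : ℕ) : ℝ) := by
            exact_mod_cast e4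
        _ = _ := by push_cast; rfl
    have h2 : ∑ a ∈ I, ∑ d ∈ Ioc z D, ((B2 a d).card : ℝ) ≤ k * (S * (1 / z) + D) := by
      have e1 : ∀ a ∈ I, ∑ d ∈ Ioc z D, ((B2 a d).card : ℝ) ≤ S * (1 / z) + D := by
        intro a _
        refine (Finset.sum_le_sum (hB2 a)).trans ?_
        rw [Finset.sum_add_distrib, ← Finset.mul_sum, Finset.sum_const, Nat.card_Ioc]
        have e2 := sum_inv_sq z D hz1
        have e3 : (S : ℝ) * ∑ d ∈ Ioc z D, (1 : ℝ) / ((d : ℝ) ^ 2) ≤ S * (1 / z) :=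
          mul_le_mul_of_nonneg_left e2 (by positivity)
        have e4 : (((D - z : ℕ)) : ℝ) ≤ D := by exact_mod_cast Nat.sub_le _ _
        simp only [nsmul_eq_mul, mul_one]
        linarith
      refine (Finset.sum_le_sum e1).trans ?_
      rw [Finset.sum_const, nsmul_eq_mul]
    have h3 : (k : ℝ) * (S * (1 / z)) ≤ S / 2 := by
      have hzr : (z : ℝ) = 2 * k + 2 := by rw [hzdef]; push_cast; ring
      rw [hzr]
      have hk0 : (0 : ℝ) ≤ k := by positivity
      have hS0 : (0 : ℝ) ≤ S := by positivity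
      rw [mul_one_div, mul_div_assoc', div_le_div_iff₀ (by positivity) (by norm_num)]
      nlinarith
    have h4 : (E.card : ℝ) + k + k * D < S / 2 := by
      have e1 : (S : ℝ) = C * T ^ 2 := by rw [hS]; push_cast; ring
      have e2 : (D : ℝ) = C * T := by rw [hD]; push_cast; ring
      have e3 : (T : ℝ) = 8 * (k * (C + 2) + E.card + 1) := by rw [hT]; push_cast; ring
      have hk0 : (0 : ℝ) ≤ k := by positivity
      have hE0 : (0 : ℝ) ≤ E.card := by positivity
      have hCr : (1 : ℝ) ≤ C := by exact_mod_cast hC1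
      have hTr : (1 : ℝ) ≤ T := by exact_mod_cast hT1
      rw [e1, e2]
      have e4 : (C : ℝ) * T ≥ 8 * (k * (C + 2) + E.card + 1) := by
        rw [← e3]; nlinarith
      have e5 : (k : ℝ) * (C * T) ≤ (C * T) * (T / 8) := by
        have : (k : ℝ) ≤ T / 8 := by rw [e3]; nlinarith
        have h0 : (0 : ℝ) ≤ C * T := by positivity
        nlinarith
      have e6 : (E.card : ℝ) + k ≤ C * T / 8 := by nlinarith
      have e7 : (C : ℝ) * T / 8 ≤ C * T ^ 2 / 8 := by
        have h0 : (0 : ℝ) ≤ C * T := by positivity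
        nlinarith
      have e8 : (C * T : ℝ) * (T / 8) = C * T ^ 2 / 8 := by ring
      have e9 : (0 : ℝ) < C * T ^ 2 := by positivity
      linarith
    have h5 : (k : ℝ) * (S * (1 / z) + D) = k * (S * (1 / z)) + k * D := by ring
    linarith
  have hex : ∃ s ∈ range S, s ∉ Bad := by
    by_contra hcon
    push Not at hcon
    have h1 : range S ⊆ Bad := fun s hs => hcon s hs
    have h2 := card_le_card h1
    rw [card_range] at h2
    have : (S : ℝ) ≤ Bad.card := by exact_mod_cast h2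
    linarith
  obtain ⟨s, hs, hsBad⟩ := hex
  have hs0 := hs
  rw [mem_range] at hs
  simp only [Bad, mem_union, mem_biUnion, not_or, not_exists, not_and] at hsBad
  obtain ⟨hb0, hb1, hb2⟩ := hsBad
  refine ⟨ρ + M * s, ⟨s, by ring⟩, fun hE => hb0 (mem_filter.2 ⟨hs0, hE⟩), ?_⟩
  intro a ha p hp hpM hdvd
  have hne : (ρ + M * s : ℤ) + a ≠ 0 := fun h0 => hb1 a ha (mem_filter.2 ⟨hs0, h0⟩)
  have hpz : z < p := by
    by_contra hcon
    exact hpM (hz p hp (by omega))
  have hpD : p ≤ D := by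
    have h1 : ((p : ℤ)) ^ 2 ≤ |(ρ + M * s : ℤ) + a| := by
      have := Int.le_of_dvd (abs_pos.2 hne) ((dvd_abs _ _).2 hdvd)
      exact this
    have h2 : |(ρ + M * s : ℤ) + a| ≤ C * S := by
      have e1 : |(ρ + M * s : ℤ) + a| ≤ |ρ| + |(M * s : ℤ)| + |a| :=
        (abs_add_le _ _).trans (add_le_add_left (abs_add_le _ _) _)
      have e2 : |(M * s : ℤ)| ≤ M * S := by
        rw [abs_of_nonneg (by positivity)]
        have : (s : ℤ) ≤ S := by exact_mod_cast hs.le
        exact mul_le_mul_of_nonneg_left this (by positivity)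
      have e3 := hA a ha
      have e4 : |ρ| = ρ.natAbs := Int.abs_eq_natAbs ρ
      have e5 : (1 : ℤ) ≤ S := by exact_mod_cast hS1
      have e6 : (C : ℤ) = M + ρ.natAbs + A + 1 := by rw [hC]; push_cast; ring
      rw [e6]
      have e7 : (0 : ℤ) ≤ ρ.natAbs := by positivity
      have e8 : (0 : ℤ) ≤ A := by positivity
      nlinarith
    have h3 : ((p : ℤ)) ^ 2 ≤ (D : ℤ) ^ 2 := by
      refine (h1.trans h2).trans (le_of_eq ?_)
      rw [hS, hD]; push_cast; ring
    have h4 : p ^ 2 ≤ D ^ 2 := by exact_mod_cast h3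
    exact (Nat.pow_le_pow_iff_left (by norm_num)).1 h4
  have hcop : Nat.Coprime M (p ^ 2) :=
    (Nat.Coprime.pow_left 2 ((Nat.Prime.coprime_iff_not_dvd hp).2 hpM)).symm
  apply hb2 a ha p (mem_Ioc.2 ⟨hpz, hpD⟩)
  simp only [B2, if_pos hcop]
  rw [mem_filter]
  refine ⟨hs0, ?_⟩
  have e : (ρ + a : ℤ) + M * s = (ρ + M * s : ℤ) + a := by ring
  rw [e]
  push_cast
  exact hdvd

/-- one small prime -/
theorem sieve_prime (N : ℕ) (hN : 0 < N) (ρ : ℤ) (I : Finset ℤ) (p : ℕ) (hp : p.Prime)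
    (hpN : ¬ p ∣ N) (hI : I.card < p ^ 2) :
    ∃ ρ' : ℤ, (N : ℤ) ∣ ρ' - ρ ∧ ∀ y : ℤ, ((N * p ^ 2 : ℕ) : ℤ) ∣ y - ρ' →
      ∀ a ∈ I, ¬ ((p : ℤ) ^ 2 ∣ y + a) := by
  classical
  have hp2 : 0 < p ^ 2 := pow_pos hp.pos 2
  -- a good residue
  obtain ⟨t, ht⟩ : ∃ t : ℤ, ∀ a ∈ I, ¬ (((p ^ 2 : ℕ) : ℤ) ∣ t + a) := by
    by_contra hcon
    push Not at hcon
    have h1 : ∀ s : ℕ, ∃ a ∈ I, ((p ^ 2 : ℕ) : ℤ) ∣ (s : ℤ) + a := fun s => hcon s
    choose g hg hg' using h1
    have hinj : Set.InjOn g (range (p ^ 2) : Set ℕ) := by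
      intro s hs s' hs' hss
      rw [coe_range, Set.mem_Iio] at hs hs'
      have h2 := dvd_sub (hg' s) (hg' s')
      rw [hss] at h2
      have e : (s : ℤ) + g s' - (s' + g s') = s - s' := by ring
      rw [e] at h2
      have h3 := Int.emod_eq_emod_iff_emod_sub_eq_zero.2 (Int.emod_eq_zero_of_dvd h2)
      have h4 : s % (p ^ 2) = s' % (p ^ 2) := by exact_mod_cast h3
      rwa [Nat.mod_eq_of_lt hs, Nat.mod_eq_of_lt hs'] at h4
    have := card_le_card_of_injOn g (fun s _ => hg s) hinj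
    rw [card_range] at this
    omega
  have hcop : Nat.Coprime N (p ^ 2) :=
    (Nat.Coprime.pow_left 2 ((Nat.Prime.coprime_iff_not_dvd hp).2 hpN)).symm
  obtain ⟨ρ', h1, h2⟩ := crt_step N (p ^ 2) hN hp2 hcop ρ t
  refine ⟨ρ', h1, fun y hy a ha hdvd => ht a ha ?_⟩
  have h3 : ((p ^ 2 : ℕ) : ℤ) ∣ y - ρ' :=
    (by push_cast; exact Dvd.intro_left _ rfl : ((p ^ 2 : ℕ) : ℤ) ∣ ((N * p ^ 2 : ℕ) : ℤ)).trans hy
  have h4 : ((p ^ 2 : ℕ) : ℤ) ∣ y + a := by push_cast; exact hdvd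
  have h5 := dvd_sub h4 (dvd_add h3 h2)
  have e : y + a - (y - ρ' + (ρ' - t)) = t + a := by ring
  rwa [e] at h5

/-- small primes, one after another -/
theorem sieve_small (N : ℕ) (hN : 0 < N) (ρ : ℤ) (I : Finset ℤ)
    (hI : ∀ p : ℕ, p.Prime → ¬ p ∣ N → I.card < p ^ 2) (P : Finset ℕ) (hP : ∀ p ∈ P, p.Prime) :
    ∃ (M : ℕ) (ρ' : ℤ), 0 < M ∧ N ∣ M ∧ (N : ℤ) ∣ ρ' - ρ ∧ (∀ p ∈ P, p ∣ M) ∧
      ∀ y : ℤ, (M : ℤ) ∣ y - ρ' → ∀ a ∈ I, ∀ p : ℕ, p.Prime → p ∣ M → ¬ p ∣ N →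
        ¬ ((p : ℤ) ^ 2 ∣ y + a) := by
  classical
  induction P using Finset.induction_on with
  | empty =>
    exact ⟨N, ρ, hN, dvd_rfl, by simp, by simp, fun y _ a _ p _ h1 h2 => absurd h1 h2⟩
  | insert q P _ ih =>
    obtain ⟨M, ρ', hM, hNM, h1, h2, h3⟩ := ih fun p hp => hP p (mem_insert_of_mem hp)
    have hq : q.Prime := hP q (mem_insert_self _ _)
    by_cases hqM : q ∣ M
    · refine ⟨M, ρ', hM, hNM, h1, ?_, h3⟩
      intro p hp
      rcases mem_insert.1 hp with rfl | hp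
      · exact hqM
      · exact h2 p hp
    · obtain ⟨ρ'', h4, h5⟩ := sieve_prime M hM ρ' I q hq hqM (hI q hq fun h => hqM (h.trans hNM))
      refine ⟨M * q ^ 2, ρ'', Nat.mul_pos hM (pow_pos hq.pos 2), hNM.mul_right _, ?_, ?_, ?_⟩
      · have h6 : (N : ℤ) ∣ ρ'' - ρ' := (Int.natCast_dvd_natCast.2 hNM).trans h4
        have := dvd_add h6 h1
        rwa [sub_add_sub_cancel] at this
      · intro p hp
        rcases mem_insert.1 hp with rfl | hp
        · exact (dvd_pow_self p (by norm_num)).mul_left _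
        · exact (h2 p hp).mul_right _
      · intro y hy a ha p hp hpM hpN
        by_cases hpq : p = q
        · subst hpq
          exact h5 y hy a ha
        · have hpM' : p ∣ M := by
            rcases (Nat.Prime.dvd_mul hp).1 hpM with h | h
            · exact h
            · exact absurd ((Nat.prime_dvd_prime_iff_eq hp hq).1 (hp.dvd_of_dvd_pow h)) hpq
          refine h3 y ?_ a ha p hp hpM' hpN
          have h6 : (M : ℤ) ∣ y - ρ'' :=
            (Int.natCast_dvd_natCast.2 (Dvd.intro _ rfl : M ∣ M * q ^ 2)).trans hy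
          have := dvd_add h6 h4
          rwa [sub_add_sub_cancel] at this

/-- making finitely many shifts divisible by squares of primes -/
theorem sieve_bad (N : ℕ) (hN : 0 < N) (ρ : ℤ) (I J : Finset ℤ) (hIJ : Disjoint I J) :
    ∃ (M : ℕ) (ρ' : ℤ), 0 < M ∧ N ∣ M ∧ (N : ℤ) ∣ ρ' - ρ ∧
      ∀ y : ℤ, (M : ℤ) ∣ y - ρ' →
        (∀ b ∈ J, ∃ p : ℕ, p.Prime ∧ ¬ p ∣ N ∧ ((p : ℤ) ^ 2 ∣ y + b)) ∧
        ∀ a ∈ I, ∀ p : ℕ, p.Prime → p ∣ M → ¬ p ∣ N → ¬ ((p : ℤ) ^ 2 ∣ y + a) := by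
  classical
  induction J using Finset.induction_on with
  | empty =>
    exact ⟨N, ρ, hN, dvd_rfl, by simp, fun y _ => ⟨by simp, fun a _ p _ h1 h2 => absurd h1 h2⟩⟩
  | insert b J _ ih =>
    have hbI : b ∉ I := fun h => disjoint_left.1 hIJ h (mem_insert_self _ _)
    obtain ⟨M, ρ', hM, hNM, h1, h2⟩ := ih (disjoint_of_subset_right (subset_insert _ _) hIJ)
    -- a new prime
    obtain ⟨q, hqgt, hq⟩ := Nat.exists_infinite_primes (M + (∏ a ∈ I, (a - b).natAbs) + 1)
    have hprod : 0 < ∏ a ∈ I, (a - b).natAbs := by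
      apply prod_pos
      intro a ha
      rw [Int.natAbs_pos, sub_ne_zero]
      rintro rfl
      exact hbI ha
    have hqM : ¬ q ∣ M := fun h => by
      have := Nat.le_of_dvd hM h
      omega
    have hqI : ∀ a ∈ I, ¬ (q : ℤ) ∣ a - b := by
      intro a ha h
      have h3 : q ∣ ∏ a ∈ I, (a - b).natAbs :=
        (Int.natCast_dvd.1 h).trans (dvd_prod_of_mem (fun a : ℤ => (a - b).natAbs) ha)
      have := Nat.le_of_dvd hprod h3
      omega
    have hcop : Nat.Coprime M (q ^ 2) :=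
      (Nat.Coprime.pow_left 2 ((Nat.Prime.coprime_iff_not_dvd hq).2 hqM)).symm
    obtain ⟨ρ'', h4, h5⟩ := crt_step M (q ^ 2) hM (pow_pos hq.pos 2) hcop ρ' (-b)
    refine ⟨M * q ^ 2, ρ'', Nat.mul_pos hM (pow_pos hq.pos 2), hNM.mul_right _, ?_, ?_⟩
    · have h6 : (N : ℤ) ∣ ρ'' - ρ' := (Int.natCast_dvd_natCast.2 hNM).trans h4
      have := dvd_add h6 h1
      rwa [sub_add_sub_cancel] at this
    · intro y hy
      have hyM : (M : ℤ) ∣ y - ρ' := by
        have h6 : (M : ℤ) ∣ y - ρ'' :=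
          (Int.natCast_dvd_natCast.2 (Dvd.intro _ rfl : M ∣ M * q ^ 2)).trans hy
        have := dvd_add h6 h4
        rwa [sub_add_sub_cancel] at this
      have hyq : ((q ^ 2 : ℕ) : ℤ) ∣ y + b := by
        have h6 : ((q ^ 2 : ℕ) : ℤ) ∣ y - ρ'' :=
          (Int.natCast_dvd_natCast.2 (Dvd.intro_left _ rfl : q ^ 2 ∣ M * q ^ 2)).trans hy
        have := dvd_add h6 h5
        have e : y - ρ'' + (ρ'' - -b) = y + b := by ring
        rwa [e] at this
      obtain ⟨h7, h8⟩ := h2 y hyM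
      constructor
      · intro b' hb'
        rcases mem_insert.1 hb' with rfl | hb'
        · refine ⟨q, hq, fun h => hqM (h.trans hNM), ?_⟩
          have := hyq
          push_cast at this
          exact this
        · exact h7 b' hb'
      · intro a ha p hp hpM hpN hdvd
        by_cases hpq : p = q
        · subst hpq
          apply hqI a ha
          have h9 : (p : ℤ) ∣ y + a := (dvd_pow_self _ (by norm_num)).trans hdvd
          have h10 : (p : ℤ) ∣ y + b := by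
            have := hyq
            push_cast at this
            exact (dvd_pow_self _ (by norm_num)).trans this
          have := dvd_sub h9 h10
          rwa [add_sub_add_left_eq_sub] at this
        · have hpM' : p ∣ M := by
            rcases (Nat.Prime.dvd_mul hp).1 hpM with h | h
            · exact h
            · exact absurd ((Nat.prime_dvd_prime_iff_eq hp hq).1 (hp.dvd_of_dvd_pow h)) hpq
          exact h8 a ha p hp hpM' hpN hdvd

/-- **The sieve.** -/
theorem sieve (N : ℕ) (hN : 0 < N) (ρ : ℤ) (I J E : Finset ℤ) (hIJ : Disjoint I J)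
    (hI : ∀ p : ℕ, p.Prime → ¬ p ∣ N → I.card < p ^ 2) :
    ∃ y : ℤ, (N : ℤ) ∣ y - ρ ∧ y ∉ E ∧
      (∀ a ∈ I, ∀ p : ℕ, p.Prime → ¬ p ∣ N → ¬ ((p : ℤ) ^ 2 ∣ y + a)) ∧
      ∀ b ∈ J, ∃ p : ℕ, p.Prime ∧ ¬ p ∣ N ∧ ((p : ℤ) ^ 2 ∣ y + b) := by
  classical
  obtain ⟨M, ρ', hM, hNM, h1, h2⟩ := sieve_bad N hN ρ I J hIJ
  obtain ⟨M', ρ'', hM', hMM', h3, h4, h5⟩ := sieve_small M hM ρ' I
    (fun p hp hpM => hI p hp fun h => hpM (h.trans hNM))
    ((range (2 * I.card + 3)).filter Nat.Prime) (fun p hp => (mem_filter.1 hp).2)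
  obtain ⟨y, h6, h7, h8⟩ := sieve_large M' hM' ρ'' I E (fun p hp hple =>
    h4 p (mem_filter.2 ⟨mem_range.2 (by omega), hp⟩))
  have hyM : (M : ℤ) ∣ y - ρ' := by
    have h9 : (M : ℤ) ∣ y - ρ'' := (Int.natCast_dvd_natCast.2 hMM').trans h6
    have := dvd_add h9 h3
    rwa [sub_add_sub_cancel] at this
  obtain ⟨h10, h11⟩ := h2 y hyM
  refine ⟨y, ?_, h7, ?_, h10⟩
  · have h9 : (N : ℤ) ∣ y - ρ' := (Int.natCast_dvd_natCast.2 hNM).trans hyM
    have := dvd_add h9 h1
    rwa [sub_add_sub_cancel] at this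
  · intro a ha p hp hpN
    by_cases hpM : p ∣ M
    · exact h11 a ha p hp hpM hpN
    · by_cases hpM' : p ∣ M'
      · exact h5 y h6 a ha p hp hpM' hpM
      · exact h8 a ha p hp hpM'

end Pool.Agent.T2H95.Sqf
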