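import Pool.Agent.T2H95.Sqf.Defs
import Pool.Agent.T2H95.Sqf.Sieve

/-!
# Quantifier elimination for `(ℤ, +, -, 1, (P_m), (U_{p,l}))`, semantically
-/

set_option autoImplicit false

open FirstOrder

namespace Pool.Agent.T2H95.Sqf

/-- `P_m` in terms of divisibility -/
def PP (m : ℕ) (z : ℤ) : Prop :=
  ∀ p : ℕ, p.Prime → ¬ ((p : ℤ) ^ (2 + padicValNat p m) ∣ z)

theorem mem_PSet_iff {m : ℕ} (hm : 1 ≤ m) (z : ℤ) : z ∈ PSet m ↔ PP m z := by
  unfold PSet PP vp
  simp only [Set.mem_ofPred_eq]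
  refine forall_congr' fun p => forall_congr' fun hp => ?_
  have h1 : (2 : ℕ∞) + emultiplicity (p : ℤ) (m : ℤ) = ((2 + padicValNat p m : ℕ) : ℕ∞) := by
    rw [Int.natCast_emultiplicity]
    have := Fact.mk hp
    rw [← padicValNat_eq_emultiplicity (by omega)]
    push_cast
    rfl
  rw [h1, emultiplicity_lt_iff_not_dvd]

theorem mem_USet_iff (p : ℕ) (l : ℤ) (z : ℤ) : z ∈ USet p l ↔ ((p ^ l.toNat : ℕ) : ℤ) ∣ z := by
  unfold USet vp
  simp only [Set.mem_ofPred_eq]
  push_cast
  exact pow_dvd_iff_le_emultiplicity.symm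

theorem PP_neg (m : ℕ) (z : ℤ) : PP m (-z) ↔ PP m z := by
  unfold PP
  simp only [dvd_neg]

theorem PP_mul (m : ℕ) (hm : m ≠ 0) (t : ℕ) (ht : t ≠ 0) (z : ℤ) :
    PP (m * t) (t * z) ↔ PP m z := by
  unfold PP
  refine forall_congr' fun p => forall_congr' fun hp => not_congr ?_
  have := Fact.mk hp
  rw [padicValNat.mul hm ht]
  obtain ⟨s, hs⟩ : ∃ s, t = p ^ padicValNat p t * s := pow_padicValNat_dvd
  have hs' : ¬ p ∣ s := by
    rintro ⟨r, rfl⟩
    have h1 : p ^ (padicValNat p t + 1) ∣ t := by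
      conv_rhs => rw [hs]
      exact ⟨r, by ring⟩
    exact pow_succ_padicValNat_not_dvd ht h1
  have h2 : (t : ℤ) * z = (p : ℤ) ^ padicValNat p t * (s * z) := by
    have : (t : ℤ) = (p : ℤ) ^ padicValNat p t * s := by exact_mod_cast hs
    rw [this]; ring
  have h3 : (p : ℤ) ^ (2 + (padicValNat p m + padicValNat p t)) =
      (p : ℤ) ^ padicValNat p t * (p : ℤ) ^ (2 + padicValNat p m) := by ring
  have hp0 : (p : ℤ) ^ padicValNat p t ≠ 0 := pow_ne_zero _ (by exact_mod_cast hp.ne_zero)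
  rw [h2, h3, mul_dvd_mul_iff_left hp0]
  constructor
  · intro h
    have hc : IsCoprime ((p : ℤ) ^ (2 + padicValNat p m)) (s : ℤ) := by
      apply IsCoprime.pow_left
      exact Nat.isCoprime_iff_coprime.2 ((Nat.Prime.coprime_iff_not_dvd hp).2 hs')
    exact hc.dvd_of_dvd_mul_left h
  · intro h
    exact h.mul_left _

/-- atomic predicates -/
inductive Atom
  | eq
  | dvd (N : ℕ+)
  | P (m : ℕ+)

def Atom.holds : Atom → ℤ → Prop
  | .eq, z => z = 0
  | .dvd N, z => ((N : ℕ) : ℤ) ∣ z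
  | .P m, z => PP m z

def Atom.scale (t : ℕ+) : Atom → Atom
  | .eq => .eq
  | .dvd N => .dvd (t * N)
  | .P m => .P (m * t)

theorem Atom.holds_neg (a : Atom) (z : ℤ) : a.holds (-z) ↔ a.holds z := by
  cases a with
  | eq => exact neg_eq_zero
  | dvd N => exact dvd_neg
  | P m => exact PP_neg _ _

theorem Atom.holds_scale (a : Atom) (t : ℕ+) (z : ℤ) :
    (a.scale t).holds (((t : ℕ) : ℤ) * z) ↔ a.holds z := by
  have ht : ((t : ℕ) : ℤ) ≠ 0 := by exact_mod_cast t.ne_zero
  cases a with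
  | eq => exact mul_eq_zero_iff_left ht
  | dvd N =>
    show (((t * N : ℕ+) : ℕ) : ℤ) ∣ _ ↔ ((N : ℕ) : ℤ) ∣ z
    push_cast
    exact mul_dvd_mul_iff_left ht
  | P m =>
    show PP ((m * t : ℕ+) : ℕ) _ ↔ PP m z
    rw [PNat.mul_coe]
    exact PP_mul _ m.ne_zero _ t.ne_zero _

theorem Atom.holds_scale_int (a : Atom) (u : ℤ) (t : ℕ+) (hut : ((t : ℕ) : ℤ) = |u|) (z : ℤ) :
    (a.scale t).holds (u * z) ↔ a.holds z := by
  rcases abs_cases u with ⟨h, _⟩ | ⟨h, _⟩
  · rw [h] at hut
    rw [← hut]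
    exact a.holds_scale t z
  · rw [h] at hut
    have : u * z = -(((t : ℕ) : ℤ) * z) := by rw [hut]; ring
    rw [this, Atom.holds_neg]
    exact a.holds_scale t z

/-- Boolean combinations of atomic conditions on functions from `A` -/
inductive Gd {V : Type} (A : AddSubgroup (V → ℤ)) : Set V → Prop
  | atom (a : Atom) (f : V → ℤ) (hf : f ∈ A) : Gd A {v | a.holds (f v)}
  | compl {S : Set V} (h : Gd A S) : Gd A Sᶜ
  | inter {S T : Set V} (h : Gd A S) (h' : Gd A T) : Gd A (S ∩ T)

section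

variable {V : Type} {A : AddSubgroup (V → ℤ)}

theorem Gd.congr {S T : Set V} (h : Gd A S) (hST : ∀ v, v ∈ S ↔ v ∈ T) : Gd A T := by
  rwa [← Set.ext hST]

theorem Gd.univ : Gd A Set.univ :=
  (Gd.atom .eq 0 A.zero_mem).congr fun v => by simp [Atom.holds]

theorem Gd.empty : Gd A ∅ := Gd.univ.compl.congr fun v => by simp

theorem Gd.const (p : Prop) : Gd A {_v | p} := by
  by_cases hp : p
  · exact Gd.univ.congr fun v => by simp [hp]
  · exact Gd.empty.congr fun v => by simp [hp]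

theorem Gd.union {S T : Set V} (h : Gd A S) (h' : Gd A T) : Gd A (S ∪ T) :=
  (h.compl.inter h'.compl).compl.congr fun v => by
    rw [← Set.compl_union, compl_compl]

theorem Gd.imp {P Q : V → Prop} (h : Gd A {v | P v}) (h' : Gd A {v | Q v}) :
    Gd A {v | P v → Q v} :=
  (h.compl.union h').congr fun v => by
    simp only [Set.mem_union, Set.mem_compl_iff, Set.mem_ofPred_eq]
    tauto

theorem Gd.iff {P : V → Prop} (h : Gd A {v | P v}) (q : Prop) : Gd A {v | P v ↔ q} := by
  by_cases hq : q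
  · exact h.congr fun v => by simp [hq]
  · exact h.compl.congr fun v => by simp [hq]

theorem Gd.iInter_finset {ι : Type} (s : Finset ι) {S : ι → Set V} (h : ∀ i, Gd A (S i)) :
    Gd A {v | ∀ i ∈ s, v ∈ S i} := by
  classical
  induction s using Finset.induction_on with
  | empty => exact Gd.univ.congr fun v => by simp
  | insert a s _ ih =>
    exact ((h a).inter ih).congr fun v => by simp

theorem Gd.forall {ι : Type} [Finite ι] {P : ι → V → Prop} (h : ∀ i, Gd A {v | P i v}) :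
    Gd A {v | ∀ i, P i v} := by
  classical
  haveI := Fintype.ofFinite ι
  exact (Gd.iInter_finset Finset.univ h).congr fun v => by simp

theorem Gd.exists {ι : Type} [Finite ι] {P : ι → V → Prop} (h : ∀ i, Gd A {v | P i v}) :
    Gd A {v | ∃ i, P i v} :=
  (Gd.forall (P := fun i v => ¬ P i v) fun i => (h i).compl).compl.congr fun v => by simp

/-- local part of `P_m` at the primes dividing `M` -/
def Loc (M m : ℕ) (z : ℤ) : Prop :=
  ∀ p : ℕ, p.Prime → p ∣ M → ¬ ((p : ℤ) ^ (2 + padicValNat p m) ∣ z)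

theorem loc_dvd {M m p : ℕ} (hp : p ∣ M) (hm : m ∣ M) :
    ((p : ℤ) ^ (2 + padicValNat p m)) ∣ ((M ^ 3 : ℕ) : ℤ) := by
  have h1 : p ^ (2 + padicValNat p m) ∣ M ^ 3 := by
    have h2 : p ^ padicValNat p m ∣ M := pow_padicValNat_dvd.trans hm
    have := mul_dvd_mul (mul_dvd_mul hp hp) h2
    have e1 : p ^ (2 + padicValNat p m) = p * p * p ^ padicValNat p m := by ring
    have e2 : M ^ 3 = M * M * M := by ring
    rw [e1, e2]
    exact this
  exact_mod_cast h1

theorem dvd_iff_of_cong {N z w d : ℤ} (h : N ∣ z - w) (hd : d ∣ N) : d ∣ z ↔ d ∣ w := by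
  have h1 := hd.trans h
  constructor
  · intro h2
    have := dvd_sub h2 h1
    rwa [sub_sub_cancel] at this
  · intro h2
    have := dvd_add h1 h2
    rwa [sub_add_cancel] at this

theorem loc_iff {M m : ℕ} (hm : m ∣ M) {z w : ℤ} (h : ((M ^ 3 : ℕ) : ℤ) ∣ z - w) :
    Loc M m z ↔ Loc M m w := by
  unfold Loc
  refine forall_congr' fun p => forall_congr' fun _ => forall_congr' fun hpM => not_congr ?_
  exact dvd_iff_of_cong h (loc_dvd hpM hm)

theorem padic_zero {M m p : ℕ} (hm : m ∣ M) (hp : ¬ p ∣ M) : padicValNat p m = 0 :=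
  padicValNat.eq_zero_of_not_dvd fun h => hp (h.trans hm)

theorem exists_residue (N : ℕ) (hN : 0 < N) (z : ℤ) : ∃ r : Fin N, (N : ℤ) ∣ z - (r : ℕ) := by
  have hN' : (0 : ℤ) < N := by exact_mod_cast hN
  have h1 := Int.emod_nonneg z hN'.ne'
  have h2 := Int.emod_lt_of_pos z hN'
  refine ⟨⟨(z % N).toNat, by omega⟩, ?_⟩
  have h3 : (((z % N).toNat : ℕ) : ℤ) = z % N := Int.toNat_of_nonneg h1
  show (N : ℤ) ∣ z - (((z % N).toNat : ℕ) : ℤ)
  rw [h3]
  exact Int.dvd_self_sub_emod

/-- the value of an atom used for the modulus -/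
def Atom.val : Atom → ℕ+
  | .eq => 1
  | .dvd N => N
  | .P m => m

theorem gd_cong (h1 : (fun _ : V => (1 : ℤ)) ∈ A) {f : V → ℤ} (hf : f ∈ A) (N : ℕ) (hN : 0 < N)
    (c : ℤ) : Gd A {v | (N : ℤ) ∣ f v - c} := by
  have h2 : (fun v => f v - c) ∈ A := by
    have h3 := A.sub_mem hf (A.zsmul_mem h1 c)
    convert h3 using 1
    funext v
    simp
  exact Gd.atom (.dvd ⟨N, hN⟩) _ h2

open Classical in
theorem lit1 (h1 : (fun _ : V => (1 : ℤ)) ∈ A) {ι : Type} [Fintype ι] (a : ι → Atom)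
    (f : ι → V → ℤ) (hf : ∀ i, f i ∈ A) (ε : ι → Prop) :
    Gd A {v | ∃ y : ℤ, ∀ i, (a i).holds (y + f i v) ↔ ε i} := by
  by_cases hcase : ∃ i, a i = .eq ∧ ε i
  · obtain ⟨i₀, h0, h0'⟩ := hcase
    have : Gd A {v | ∀ i, (a i).holds (-f i₀ v + f i v) ↔ ε i} :=
      Gd.forall fun i => (Gd.atom (a i) (-f i₀ + f i) (A.add_mem (A.neg_mem (hf _)) (hf _))).iff _
    refine this.congr fun v => ?_
    simp only [Set.mem_ofPred_eq]
    constructor
    · intro h
      exact ⟨_, h⟩
    · rintro ⟨y, hy⟩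
      have h1 := (hy i₀).2 h0'
      rw [h0] at h1
      have h2 : y + f i₀ v = 0 := h1
      have h3 : y = -f i₀ v := by linarith
      rw [← h3]
      exact hy
  · have hcase' : ∀ i, a i = .eq → ¬ ε i := fun i h h' => hcase ⟨i, h, h'⟩
    set M : ℕ := (∏ i, ((a i).val : ℕ)) * (Fintype.card ι).factorial with hM
    have hM0 : 0 < M := Nat.mul_pos (Finset.prod_pos fun i _ => (a i).val.pos)
      (Nat.factorial_pos _)
    have hval : ∀ i, ((a i).val : ℕ) ∣ M := fun i =>
      (Finset.dvd_prod_of_mem (fun i => ((a i).val : ℕ)) (Finset.mem_univ i)).mul_right _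
    have hdvdval : ∀ i N, a i = .dvd N → (N : ℕ) ∣ M := by
      intro i N h
      have := hval i
      rwa [h] at this
    have hPval : ∀ i m, a i = .P m → (m : ℕ) ∣ M := by
      intro i m h
      have := hval i
      rwa [h] at this
    have hM3 : 0 < M ^ 3 := pow_pos hM0 3
    -- the conditions
    let Q : ι → ι → (Fin (M ^ 3)) → (Fin (M ^ 3)) → Prop := fun i j ρ l =>
      (∃ m, a i = .P m ∧ ε i) ∧ (∃ m, a j = .P m ∧ ¬ ε j ∧ Loc M m (((ρ : ℕ) : ℤ) + ((l : ℕ) : ℤ)))
    have key : Gd A {v | ∃ x : (ι → Fin (M ^ 3)) × Fin (M ^ 3),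
        (∀ i, ((M ^ 3 : ℕ) : ℤ) ∣ f i v - ((x.1 i : ℕ) : ℤ)) ∧
        ((∀ i N, a i = .dvd N → (((N : ℕ) : ℤ) ∣ ((x.2 : ℕ) : ℤ) + ((x.1 i : ℕ) : ℤ) ↔ ε i)) ∧
        (∀ i m, a i = .P m → ε i → Loc M m (((x.2 : ℕ) : ℤ) + ((x.1 i : ℕ) : ℤ)))) ∧
        (∀ i j, Q i j x.2 (x.1 j) → ¬ (f i v - f j v = 0))} := by
      refine Gd.exists fun x => ?_
      refine Gd.inter (Gd.forall fun i => gd_cong h1 (hf i) _ hM3 _) (Gd.inter (Gd.const _) ?_)
      refine Gd.forall fun i => Gd.forall fun j => Gd.imp (Gd.const _) ?_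
      exact (Gd.atom .eq (f i - f j) (A.sub_mem (hf i) (hf j))).compl
    refine key.congr fun v => ?_
    simp only [Set.mem_ofPred_eq]
    have hcong : ∀ (y : ℤ) (ρ : Fin (M ^ 3)) (l : Fin (M ^ 3)) (w : ℤ),
        ((M ^ 3 : ℕ) : ℤ) ∣ y - ((ρ : ℕ) : ℤ) → ((M ^ 3 : ℕ) : ℤ) ∣ w - ((l : ℕ) : ℤ) →
        ((M ^ 3 : ℕ) : ℤ) ∣ (y + w) - (((ρ : ℕ) : ℤ) + ((l : ℕ) : ℤ)) := by
      intro y ρ l w h2 h3
      have := dvd_add h2 h3
      have e : y - ((ρ : ℕ) : ℤ) + (w - ((l : ℕ) : ℤ)) = y + w - (((ρ : ℕ) : ℤ) + ((l : ℕ) : ℤ)) := by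
        ring
      rwa [e] at this
    have hNd : ∀ N : ℕ+, (N : ℕ) ∣ M → ((N : ℕ) : ℤ) ∣ ((M ^ 3 : ℕ) : ℤ) := by
      intro N hN
      exact Int.natCast_dvd_natCast.2 (hN.trans (dvd_pow_self M (by norm_num)))
    constructor
    · rintro ⟨⟨l, ρ⟩, h2, ⟨h3, h4⟩, h5⟩
      simp only at h2 h3 h4 h5
      let I : Finset ℤ := (Finset.univ.filter fun i => ∃ m, a i = .P m ∧ ε i).image fun i => f i v
      let J : Finset ℤ := (Finset.univ.filter fun j => ∃ m, a j = .P m ∧ ¬ ε j ∧
        Loc M m (((ρ : ℕ) : ℤ) + ((l j : ℕ) : ℤ))).image fun j => f j v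
      let E : Finset ℤ := Finset.univ.image fun i => - f i v
      have hIJ : Disjoint I J := by
        rw [Finset.disjoint_left]
        intro z hz hz'
        simp only [I, J, Finset.mem_image, Finset.mem_filter, Finset.mem_univ, true_and] at hz hz'
        obtain ⟨i, hi, rfl⟩ := hz
        obtain ⟨j, hj, hji⟩ := hz'
        exact h5 i j ⟨hi, hj⟩ (by rw [hji, sub_self])
      have hI : ∀ p : ℕ, p.Prime → ¬ p ∣ M ^ 3 → I.card < p ^ 2 := by
        intro p hp hpM
        have h6 : I.card ≤ Fintype.card ι :=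
          Finset.card_image_le.trans (Finset.card_le_univ _)
        have h7 : Fintype.card ι < p := by
          by_contra hcon
          exact hpM ((((Nat.Prime.dvd_factorial hp).2 (by omega)).mul_left _).trans
            (dvd_pow_self M (by norm_num)))
        have h8 : p ≤ p ^ 2 := Nat.le_self_pow (by norm_num) p
        omega
      obtain ⟨y, hy1, hy2, hy3, hy4⟩ := sieve (M ^ 3) hM3 ((ρ : ℕ) : ℤ) I J E hIJ hI
      refine ⟨y, fun i => ?_⟩
      have hyc := hcong y ρ (l i) (f i v) hy1 (h2 i)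
      cases hai : a i with
      | eq =>
        refine iff_of_false ?_ (hcase' i hai)
        intro h6
        have h7 : y + f i v = 0 := h6
        apply hy2
        simp only [E, Finset.mem_image, Finset.mem_univ, true_and]
        exact ⟨i, by linarith⟩
      | dvd N =>
        rw [← h3 i N hai]
        exact dvd_iff_of_cong hyc (hNd N (hdvdval i N hai))
      | P m =>
        constructor
        · intro h6
          by_contra hε
          by_cases hloc : Loc M m (((ρ : ℕ) : ℤ) + ((l i : ℕ) : ℤ))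
          · have hmem : f i v ∈ J := by
              simp only [J, Finset.mem_image, Finset.mem_filter, Finset.mem_univ, true_and]
              exact ⟨i, ⟨m, hai, hε, hloc⟩, rfl⟩
            obtain ⟨p, hp, hpM, hpd⟩ := hy4 _ hmem
            have hpM' : ¬ p ∣ M := fun h => hpM (h.trans (dvd_pow_self M (by norm_num)))
            have h7 := h6 p hp
            rw [padic_zero (hPval i m hai) hpM', add_zero] at h7
            exact h7 hpd
          · unfold Loc at hloc
            push Not at hloc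
            obtain ⟨p, hp, hpM, hpd⟩ := hloc
            exact h6 p hp ((dvd_iff_of_cong hyc (loc_dvd hpM (hPval i m hai))).2 hpd)
        · intro hε p hp
          by_cases hpM : p ∣ M
          · intro h6
            exact h4 i m hai hε p hp hpM
              ((dvd_iff_of_cong hyc (loc_dvd hpM (hPval i m hai))).1 h6)
          · rw [padic_zero (hPval i m hai) hpM, add_zero]
            have hmem : f i v ∈ I := by
              simp only [I, Finset.mem_image, Finset.mem_filter, Finset.mem_univ, true_and]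
              exact ⟨i, ⟨m, hai, hε⟩, rfl⟩
            exact hy3 _ hmem p hp fun h => hpM (hp.dvd_of_dvd_pow h)
    · rintro ⟨y, hy⟩
      have hl : ∀ i, ∃ r : Fin (M ^ 3), ((M ^ 3 : ℕ) : ℤ) ∣ f i v - ((r : ℕ) : ℤ) :=
        fun i => exists_residue _ hM3 _
      choose l hl using hl
      obtain ⟨ρ, hρ⟩ := exists_residue _ hM3 y
      refine ⟨⟨l, ρ⟩, hl, ⟨?_, ?_⟩, ?_⟩
      · intro i N hai
        have hyc := hcong y ρ (l i) (f i v) hρ (hl i)
        rw [← hy i, hai]
        exact (dvd_iff_of_cong hyc (hNd N (hdvdval i N hai))).symm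
      · intro i m hai hε p hp hpM hpd
        have hyc := hcong y ρ (l i) (f i v) hρ (hl i)
        have h6 := (hy i).2 hε
        rw [hai] at h6
        exact h6 p hp ((dvd_iff_of_cong hyc (loc_dvd hpM (hPval i m hai))).2 hpd)
      · rintro i j ⟨⟨m, hai, hε⟩, ⟨m', haj, hε', hloc⟩⟩ hij
        have hfe : f i v = f j v := by linarith
        have h6 := (hy i).2 hε
        rw [hai] at h6
        have h7 : ¬ PP m' (y + f j v) := by
          intro h8
          apply hε'
          rw [← hy j, haj]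
          exact h8
        unfold PP at h7
        push Not at h7
        obtain ⟨p, hp, hpd⟩ := h7
        have hyc := hcong y ρ (l j) (f j v) hρ (hl j)
        by_cases hpM : p ∣ M
        · exact hloc p hp hpM ((dvd_iff_of_cong hyc (loc_dvd hpM (hPval j m' haj))).1 hpd)
        · rw [padic_zero (hPval j m' haj) hpM, add_zero] at hpd
          have h8 := h6 p hp
          rw [padic_zero (hPval i m hai) hpM, add_zero, hfe] at h8
          exact h8 hpd

open Classical in
theorem lit (h1 : (fun _ : V => (1 : ℤ)) ∈ A) {ι : Type} [Fintype ι] (a : ι → Atom) (k : ι → ℤ)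
    (f : ι → V → ℤ) (hf : ∀ i, f i ∈ A) (ε : ι → Prop) :
    Gd A {v | ∃ y : ℤ, ∀ i, (a i).holds (k i * y + f i v) ↔ ε i} := by
  set K : ℕ := ∏ i, (if k i = 0 then 1 else (k i).natAbs) with hK
  have hK0 : 0 < K := Finset.prod_pos fun i _ => by
    split_ifs with h
    · norm_num
    · exact Int.natAbs_pos.2 h
  have hkK : ∀ i, k i ≠ 0 → ∃ u : ℤ, ∃ t : ℕ+, ((t : ℕ) : ℤ) = |u| ∧ u * k i = K := by
    intro i hi
    have h2 : (k i).natAbs ∣ K := by
      have := Finset.dvd_prod_of_mem (fun i => if k i = 0 then 1 else (k i).natAbs)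
        (Finset.mem_univ i)
      simpa only [if_neg hi] using this
    have h3 : k i ∣ (K : ℤ) := Int.natAbs_dvd.1 (by exact_mod_cast h2)
    obtain ⟨u, hu⟩ := h3
    have hu0 : u ≠ 0 := by
      rintro rfl
      rw [mul_zero] at hu
      exact hK0.ne' (by exact_mod_cast hu)
    exact ⟨u, ⟨u.natAbs, Int.natAbs_pos.2 hu0⟩, by simp, by rw [hu]; ring⟩
  choose! u t htu huK using hkK
  let a' : Option {i // k i ≠ 0} → Atom := fun o => match o with
    | none => .dvd ⟨K, hK0⟩
    | some i => (a i).scale (t i)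
  let f' : Option {i // k i ≠ 0} → V → ℤ := fun o => match o with
    | none => 0
    | some i => u i • f i
  let ε' : Option {i // k i ≠ 0} → Prop := fun o => match o with
    | none => True
    | some i => ε i
  have hf' : ∀ o, f' o ∈ A := by
    rintro (_ | i)
    · exact A.zero_mem
    · exact A.zsmul_mem (hf i) _
  have key := Gd.inter (Gd.forall (P := fun i v => k i = 0 → ((a i).holds (f i v) ↔ ε i))
    fun i => Gd.imp (Gd.const _) ((Gd.atom (a i) (f i) (hf i)).iff _)) (lit1 h1 a' f' hf' ε')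
  refine key.congr fun v => ?_
  simp only [Set.mem_inter_iff, Set.mem_ofPred_eq]
  constructor
  · rintro ⟨h2, y, hy⟩
    have h3 := (hy none).2 trivial
    have h4 : (K : ℤ) ∣ y + 0 := h3
    rw [add_zero] at h4
    obtain ⟨y', rfl⟩ := h4
    refine ⟨y', fun i => ?_⟩
    by_cases hi : k i = 0
    · rw [hi, zero_mul, zero_add]
      exact h2 i hi
    · have h5 := hy (some ⟨i, hi⟩)
      have h6 : (K : ℤ) * y' + (u i • f i) v = u i * (k i * y' + f i v) := by
        rw [← huK i hi]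
        simp only [Pi.smul_apply, smul_eq_mul]
        ring
      change ((a i).scale (t i)).holds ((K : ℤ) * y' + (u i • f i) v) ↔ ε i at h5
      rw [h6, Atom.holds_scale_int _ _ _ (htu i hi)] at h5
      exact h5
  · rintro ⟨y, hy⟩
    refine ⟨fun i hi => ?_, K * y, ?_⟩
    · have := hy i
      rwa [hi, zero_mul, zero_add] at this
    · rintro (_ | ⟨i, hi⟩)
      · refine iff_of_true ?_ trivial
        show (K : ℤ) ∣ K * y + 0
        rw [add_zero]
        exact dvd_mul_right _ _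
      · show ((a i).scale (t i)).holds ((K : ℤ) * y + (u i • f i) v) ↔ ε i
        have h6 : (K : ℤ) * y + (u i • f i) v = u i * (k i * y + f i v) := by
          rw [← huK i hi]
          simp only [Pi.smul_apply, smul_eq_mul]
          ring
        rw [h6, Atom.holds_scale_int _ _ _ (htu i hi)]
        exact hy i

/-- every Boolean combination depends only on the truth values of finitely many atoms -/
theorem Gd.repr {S : Set V} (h : Gd A S) : ∃ (ι : Type) (_ : Fintype ι) (a : ι → Atom)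
    (f : ι → V → ℤ) (T : Set (Set ι)), (∀ i, f i ∈ A) ∧
      ∀ v, v ∈ S ↔ {i | (a i).holds (f i v)} ∈ T := by
  induction h with
  | atom a f hf =>
    refine ⟨Unit, inferInstance, fun _ => a, fun _ => f, {W | () ∈ W}, fun _ => hf, fun v => ?_⟩
    exact Iff.rfl
  | compl _ ih =>
    obtain ⟨ι, inst, a, f, T, hf, hT⟩ := ih
    exact ⟨ι, inst, a, f, Tᶜ, hf, fun v => not_congr (hT v)⟩
  | inter _ _ ih ih' =>
    obtain ⟨ι, inst, a, f, T, hf, hT⟩ := ih
    obtain ⟨ι', inst', a', f', T', hf', hT'⟩ := ih'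
    refine ⟨ι ⊕ ι', inferInstance, Sum.elim a a', Sum.elim f f',
      {W | Sum.inl ⁻¹' W ∈ T ∧ Sum.inr ⁻¹' W ∈ T'}, ?_, fun v => ?_⟩
    · rintro (i | i)
      · exact hf i
      · exact hf' i
    · exact and_congr (hT v) (hT' v)

end

/-- the functions `(v, y) ↦ k y + f(v)` -/
def ext1 {V : Type} (A : AddSubgroup (V → ℤ)) : AddSubgroup (V × ℤ → ℤ) where
  carrier := {g | ∃ k : ℤ, ∃ f ∈ A, ∀ v y, g (v, y) = k * y + f v}
  zero_mem' := ⟨0, 0, A.zero_mem, fun v y => by simp⟩
  add_mem' := by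
    rintro g g' ⟨k, f, hf, h⟩ ⟨k', f', hf', h'⟩
    refine ⟨k + k', f + f', A.add_mem hf hf', fun v y => ?_⟩
    simp only [Pi.add_apply, h, h']
    ring
  neg_mem' := by
    rintro g ⟨k, f, hf, h⟩
    refine ⟨-k, -f, A.neg_mem hf, fun v y => ?_⟩
    simp only [Pi.neg_apply, h]
    ring

/-- closure under projection -/
theorem Gd.proj {V : Type} {A : AddSubgroup (V → ℤ)} (h1 : (fun _ : V => (1 : ℤ)) ∈ A)
    {S : Set (V × ℤ)} (h : Gd (ext1 A) S) : Gd A {v | ∃ y : ℤ, (v, y) ∈ S} := by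
  obtain ⟨ι, inst, a, g, T, hg, hT⟩ := h.repr
  choose k f hf hkf using hg
  have key : Gd A {v | ∃ W : Set ι, W ∈ T ∧
      ∃ y : ℤ, ∀ i, (a i).holds (k i * y + f i v) ↔ i ∈ W} :=
    Gd.exists fun W => Gd.inter (Gd.const _) (lit h1 a k f hf _)
  refine key.congr fun v => ?_
  simp only [Set.mem_ofPred_eq]
  constructor
  · rintro ⟨W, hW, y, hy⟩
    refine ⟨y, (hT _).2 ?_⟩
    convert hW using 1
    ext i
    simp only [Set.mem_ofPred_eq]
    rw [hkf]
    exact hy i
  · rintro ⟨y, hy⟩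
    refine ⟨_, (hT _).1 hy, y, fun i => ?_⟩
    simp only [Set.mem_ofPred_eq]
    rw [hkf]

theorem Gd.preimage {V V' : Type} {A : AddSubgroup (V → ℤ)} {A' : AddSubgroup (V' → ℤ)}
    (θ : V' → V) (hθ : ∀ g ∈ A, g ∘ θ ∈ A') {S : Set V} (h : Gd A S) : Gd A' (θ ⁻¹' S) := by
  induction h with
  | atom a f hf => exact Gd.atom a (f ∘ θ) (hθ f hf)
  | compl _ ih => exact ih.compl
  | inter _ _ ih ih' => exact ih.inter ih'

/-- the affine functions of the variables of a formula -/
def aff (α : Type) (n : ℕ) : AddSubgroup ((α → ℤ) × (Fin n → ℤ) → ℤ) :=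
  AddSubgroup.closure ({fun _ => 1} ∪ (Set.range fun (i : α) v => v.1 i) ∪
    Set.range fun (i : Fin n) v => v.2 i)

theorem aff_one (α : Type) (n : ℕ) : (fun _ => (1 : ℤ)) ∈ aff α n :=
  AddSubgroup.subset_closure (Or.inl (Or.inl rfl))

theorem aff_term {α : Type} {n : ℕ} (t : Lsqf.Term (α ⊕ Fin n)) :
    (fun v : (α → ℤ) × (Fin n → ℤ) => t.realize (Sum.elim v.1 v.2)) ∈ aff α n := by
  induction t with
  | var i =>
    rcases i with i | i
    · exact AddSubgroup.subset_closure (Or.inl (Or.inr ⟨i, rfl⟩))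
    · exact AddSubgroup.subset_closure (Or.inr ⟨i, rfl⟩)
  | func f ts ih =>
    cases f with
    | add => exact (aff α n).add_mem (ih 0) (ih 1)
    | neg => exact (aff α n).neg_mem (ih 0)
    | one => exact aff_one α n

theorem aff_snoc {α : Type} {n : ℕ} (g : (α → ℤ) × (Fin (n + 1) → ℤ) → ℤ)
    (hg : g ∈ aff α (n + 1)) :
    g ∘ (fun w : ((α → ℤ) × (Fin n → ℤ)) × ℤ =>
      ((w.1.1, Fin.snoc w.1.2 w.2) : (α → ℤ) × (Fin (n + 1) → ℤ))) ∈ ext1 (aff α n) := by
  set θ := fun w : ((α → ℤ) × (Fin n → ℤ)) × ℤ =>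
      ((w.1.1, Fin.snoc w.1.2 w.2) : (α → ℤ) × (Fin (n + 1) → ℤ)) with hθ
  induction hg using AddSubgroup.closure_induction with
  | mem g hg =>
    rcases hg with (hg | ⟨i, rfl⟩) | ⟨i, rfl⟩
    · rw [Set.mem_singleton_iff] at hg
      subst hg
      exact ⟨0, _, aff_one α n, fun v y => by simp⟩
    · exact ⟨0, fun v => v.1 i, AddSubgroup.subset_closure (Or.inl (Or.inr ⟨i, rfl⟩)),
        fun v y => by simp [hθ]⟩
    · refine Fin.lastCases ?_ (fun j => ?_) i
      · exact ⟨1, 0, (aff α n).zero_mem, fun v y => by simp [hθ]⟩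
      · exact ⟨0, fun v => v.2 j, AddSubgroup.subset_closure (Or.inr ⟨j, rfl⟩),
          fun v y => by simp [hθ]⟩
  | zero => exact (ext1 (aff α n)).zero_mem
  | add g g' _ _ ih ih' => exact (ext1 (aff α n)).add_mem ih ih'
  | neg g _ ih => exact (ext1 (aff α n)).neg_mem ih

/-- the sets defined by formulas are Boolean combinations of atoms -/
theorem gd_formula {α : Type} {n : ℕ} (φ : Lsqf.BoundedFormula α n) :
    Gd (aff α n) {v : (α → ℤ) × (Fin n → ℤ) | φ.Realize v.1 v.2} := by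
  induction φ with
  | falsum => exact Gd.empty.congr fun v => by simp [Language.BoundedFormula.Realize]
  | equal t₁ t₂ =>
    refine (Gd.atom .eq _ ((aff α _).sub_mem (aff_term t₁) (aff_term t₂))).congr fun v => ?_
    simp only [Set.mem_ofPred_eq, Atom.holds, Pi.sub_apply, sub_eq_zero,
      Language.BoundedFormula.Realize]
  | rel R ts =>
    cases R with
    | P m hm =>
      refine (Gd.atom (.P ⟨m, hm⟩) _ (aff_term (ts 0))).congr fun v => ?_
      exact (mem_PSet_iff hm _).symm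
    | U p hp l =>
      refine (Gd.atom (.dvd ⟨p ^ l.toNat, pow_pos hp.pos _⟩) _ (aff_term (ts 0))).congr
        fun v => ?_
      exact (mem_USet_iff p l _).symm
  | imp _ _ ih ih' =>
    exact (Gd.imp ih ih').congr fun v => by
      simp only [Set.mem_ofPred_eq, Language.BoundedFormula.realize_imp]
  | all φ ih =>
    rename_i n
    have h2 := Gd.preimage (A' := ext1 (aff α n)) _ aff_snoc ih.compl
    have h3 := (Gd.proj (aff_one α n) h2).compl
    refine h3.congr fun v => ?_
    simp only [Set.mem_compl_iff, Set.mem_ofPred_eq, Set.mem_preimage, not_exists, not_not,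
      Language.BoundedFormula.realize_all]

/-- the functions `b ↦ k b + c` -/
def lin1 : AddSubgroup (ℤ → ℤ) where
  carrier := {g | ∃ k c : ℤ, ∀ b, g b = k * b + c}
  zero_mem' := ⟨0, 0, fun b => by simp⟩
  add_mem' := by
    rintro g g' ⟨k, c, h⟩ ⟨k', c', h'⟩
    exact ⟨k + k', c + c', fun b => by simp only [Pi.add_apply, h, h']; ring⟩
  neg_mem' := by
    rintro g ⟨k, c, h⟩
    exact ⟨-k, -c, fun b => by simp only [Pi.neg_apply, h]; ring⟩

theorem gd_formula_one (φ : Lsqf.Formula (Fin 1)) : Gd lin1 {b : ℤ | φ.Realize ![b]} := by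
  have h1 := gd_formula φ
  have h2 := Gd.preimage (A' := lin1)
    (fun b : ℤ => ((![b], default) : (Fin 1 → ℤ) × (Fin 0 → ℤ))) (by
      intro g hg
      induction hg using AddSubgroup.closure_induction with
      | mem g hg =>
        rcases hg with (hg | ⟨i, rfl⟩) | ⟨i, rfl⟩
        · rw [Set.mem_singleton_iff] at hg
          subst hg
          exact ⟨0, 1, fun b => by simp⟩
        · exact ⟨1, 0, fun b => by simp⟩
        · exact i.elim0
      | zero => exact lin1.zero_mem
      | add g g' _ _ ih ih' => exact lin1.add_mem ih ih'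
      | neg g _ ih => exact lin1.neg_mem ih) h1
  refine h2.congr fun b => ?_
  unfold Language.Formula.Realize
  simp only [Set.mem_preimage, Set.mem_ofPred_eq]
  exact iff_of_eq (congrArg _ (Subsingleton.elim _ _))

/-- **Density of constancy.** Every residue class contains a residue class on which a set defined
by a formula with one free variable is constant, up to finitely many exceptions. -/
theorem star {S : Set ℤ} (h : Gd lin1 S) : ∀ (N : ℕ) (r : ℤ), 0 < N →
    ∃ (N' : ℕ) (r' : ℤ) (E : Finset ℤ) (t : Prop), 0 < N' ∧ N ∣ N' ∧ (N : ℤ) ∣ r' - r ∧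
      ∀ b : ℤ, (N' : ℤ) ∣ b - r' → b ∉ E → (b ∈ S ↔ t) := by
  classical
  induction h with
  | atom a f hf =>
    intro N r hN
    obtain ⟨k, c, hkc⟩ := hf
    by_cases hk : k = 0
    · refine ⟨N, r, ∅, a.holds c, hN, dvd_rfl, by simp, fun b _ _ => ?_⟩
      simp only [Set.mem_ofPred_eq, hkc, hk, zero_mul, zero_add]
    · cases a with
      | eq =>
        refine ⟨N, r, {-c / k}, False, hN, dvd_rfl, by simp, fun b _ hb => ?_⟩
        simp only [Set.mem_ofPred_eq, hkc, iff_false]
        intro h1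
        have h2 : k * b + c = 0 := h1
        apply hb
        rw [Finset.mem_singleton]
        have h3 : -c = k * b := by linarith
        rw [h3, Int.mul_ediv_cancel_left _ hk]
      | dvd m =>
        refine ⟨N * m, r, ∅, ((m : ℕ) : ℤ) ∣ k * r + c, Nat.mul_pos hN m.pos, dvd_mul_right _ _,
          by simp, fun b hb _ => ?_⟩
        simp only [Set.mem_ofPred_eq, hkc]
        have h1 : ((m : ℕ) : ℤ) ∣ k * b + c - (k * r + c) := by
          have h2 : ((m : ℕ) : ℤ) ∣ b - r :=
            (by push_cast; exact Dvd.intro_left _ rfl : ((m : ℕ) : ℤ) ∣ ((N * m : ℕ) : ℤ)).trans hb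
          have e : k * b + c - (k * r + c) = k * (b - r) := by ring
          rw [e]
          exact h2.mul_left _
        exact dvd_iff_of_cong h1 dvd_rfl
      | P m =>
        obtain ⟨q, hqgt, hq⟩ := Nat.exists_infinite_primes (N + k.natAbs + m + 1)
        have hqN : ¬ q ∣ N := fun h => by have := Nat.le_of_dvd hN h; omega
        have hqm : ¬ q ∣ m := fun h => by have := Nat.le_of_dvd m.pos h; omega
        have hqk : ¬ q ∣ k.natAbs := fun h => by
          have := Nat.le_of_dvd (Int.natAbs_pos.2 hk) h; omega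
        have hcop : Nat.Coprime N (q ^ 2) :=
          (Nat.Coprime.pow_left 2 ((Nat.Prime.coprime_iff_not_dvd hq).2 hqN)).symm
        -- solve `k t + c ≡ 0` modulo `q ^ 2`
        have hck : IsCoprime k ((q ^ 2 : ℕ) : ℤ) := by
          rw [Int.isCoprime_iff_gcd_eq_one, Int.gcd_comm]
          exact Nat.Coprime.pow_left 2 ((Nat.Prime.coprime_iff_not_dvd hq).2 hqk)
        obtain ⟨u, w, huw⟩ := hck
        obtain ⟨r', h1, h2⟩ := crt_step N (q ^ 2) hN (pow_pos hq.pos 2) hcop r (-(u * c))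
        refine ⟨N * q ^ 2, r', ∅, False, Nat.mul_pos hN (pow_pos hq.pos 2), dvd_mul_right _ _, h1,
          fun b hb _ => ?_⟩
        simp only [Set.mem_ofPred_eq, hkc, iff_false]
        intro h3
        apply h3 q hq
        rw [padicValNat.eq_zero_of_not_dvd hqm, add_zero]
        have h4 : ((q ^ 2 : ℕ) : ℤ) ∣ b - r' :=
          (by push_cast; exact Dvd.intro_left _ rfl :
            ((q ^ 2 : ℕ) : ℤ) ∣ ((N * q ^ 2 : ℕ) : ℤ)).trans hb
        have h5 := dvd_add h4 h2
        have e : k * b + c = k * (b - r' + (r' - -(u * c))) + c * (w * ((q ^ 2 : ℕ) : ℤ)) := by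
          have : w * ((q ^ 2 : ℕ) : ℤ) = 1 - u * k := by linarith
          rw [this]; ring
        have h6 : ((q ^ 2 : ℕ) : ℤ) ∣ k * b + c := by
          rw [e]
          exact dvd_add (h5.mul_left _) ((Dvd.intro_left _ rfl).mul_left _)
        have e2 : ((q ^ 2 : ℕ) : ℤ) = (q : ℤ) ^ 2 := by push_cast; rfl
        rwa [e2] at h6
  | compl _ ih =>
    intro N r hN
    obtain ⟨N', r', E, t, h1, h2, h3, h4⟩ := ih N r hN
    exact ⟨N', r', E, ¬ t, h1, h2, h3, fun b hb hE => not_congr (h4 b hb hE)⟩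
  | inter _ _ ih ih' =>
    intro N r hN
    obtain ⟨N₁, r₁, E₁, t₁, h1, h2, h3, h4⟩ := ih N r hN
    obtain ⟨N₂, r₂, E₂, t₂, h5, h6, h7, h8⟩ := ih' N₁ r₁ h1
    refine ⟨N₂, r₂, E₁ ∪ E₂, t₁ ∧ t₂, h5, h2.trans h6, ?_, fun b hb hE => ?_⟩
    · have h9 : (N : ℤ) ∣ r₂ - r₁ := (Int.natCast_dvd_natCast.2 h2).trans h7
      have := dvd_add h9 h3
      rwa [sub_add_sub_cancel] at this
    · rw [Finset.mem_union, not_or] at hE
      have h9 : (N₁ : ℤ) ∣ b - r₁ := by
        have h10 : (N₁ : ℤ) ∣ b - r₂ := (Int.natCast_dvd_natCast.2 h6).trans hb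
        have := dvd_add h10 h7
        rwa [sub_add_sub_cancel] at this
      exact and_congr (h4 b h9 hE.1) (h8 b hb hE.2)

/-- finite intersections of shifts of the set of the square-free integers by multiples of `N` are
not empty, if `N` is sufficiently divisible -/
theorem inter_nonempty (k : ℕ) (y : Fin k → ℤ) (hy : ∀ i, ((k.factorial : ℕ) : ℤ) ∣ y i) :
    ∃ x : ℤ, ∀ i, x + y i ∈ PSet 1 := by
  classical
  have hN : 0 < k.factorial := Nat.factorial_pos k
  obtain ⟨x, h1, -, h3, -⟩ := sieve k.factorial hN 1 (Finset.univ.image y) ∅ ∅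
    (Finset.disjoint_empty_right _) (by
      intro p hp hpN
      have h6 : (Finset.univ.image y).card ≤ k :=
        Finset.card_image_le.trans (by simp)
      have h7 : k < p := by
        by_contra hcon
        exact hpN ((Nat.Prime.dvd_factorial hp).2 (by omega))
      have h8 : p ≤ p ^ 2 := Nat.le_self_pow (by norm_num) p
      omega)
  refine ⟨x, fun i => ?_⟩
  rw [mem_PSet_iff le_rfl]
  intro p hp
  rw [padicValNat_one_right, add_zero]
  by_cases hpN : p ∣ k.factorial
  · intro h4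
    have h5 : (p : ℤ) ∣ x + y i := (dvd_pow_self _ (by norm_num)).trans h4
    have h6 : (p : ℤ) ∣ x - 1 := (Int.natCast_dvd_natCast.2 hpN).trans h1
    have h7 : (p : ℤ) ∣ y i := (Int.natCast_dvd_natCast.2 hpN).trans (hy i)
    have h8 := dvd_sub h5 (dvd_add h6 h7)
    have e : x + y i - (x - 1 + y i) = 1 := by ring
    rw [e] at h8
    have := Int.le_of_dvd one_pos h8
    have h9 : (2 : ℤ) ≤ p := by exact_mod_cast hp.two_le
    omega
  · exact h3 _ (Finset.mem_image.2 ⟨i, Finset.mem_univ _, rfl⟩) p hp hpN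

end Pool.Agent.T2H95.Sqf
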